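import Pool.Agent.Lib.MP_b07157_agQ.HArc
import Pool.Agent.Lib.MP_b07157_agQ.QMain

/-!
# Homogeneous polynomials: the local and the global zeta function
-/

noncomputable section

namespace MPb07157

open MvPolynomial

namespace MN

/-- Each element of `regularAt s₀` is its constant term plus `T` times an element of
`regularAt s₀`. -/
theorem exists_divX {s₀ : ℚ} {g : PowerSeries Mot} (hg : g ∈ regularAt s₀) :
    ∃ (u : Mot) (h : PowerSeries Mot), h ∈ regularAt s₀ ∧
      g = PowerSeries.C u + PowerSeries.X * h := by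
  have hX : (PowerSeries.X : PowerSeries Mot) ∈ regularAt s₀ :=
    Algebra.subset_adjoin (Or.inl rfl)
  have hC : ∀ u : Mot, PowerSeries.C u ∈ regularAt s₀ := fun u =>
    (regularAt s₀).algebraMap_mem u
  unfold regularAt at hg
  induction hg using Algebra.adjoin_induction with
  | mem x hx =>
    rcases hx with rfl | ⟨a, b, hb, hab, hx⟩
    · exact ⟨0, 1, one_mem _, by rw [map_zero, zero_add, mul_one]⟩
    · have hxm : x ∈ regularAt s₀ := Algebra.subset_adjoin (Or.inr ⟨a, b, hb, hab, hx⟩)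
      obtain ⟨c, rfl⟩ : ∃ c, b = c + 1 := ⟨b - 1, by omega⟩
      refine ⟨1, PowerSeries.C (↑(LU ^ (-a)) : Mot) * PowerSeries.X ^ c * x,
        (regularAt s₀).mul_mem ((regularAt s₀).mul_mem (hC _) ((regularAt s₀).pow_mem hX c)) hxm,
        ?_⟩
      rw [map_one]
      linear_combination hx
  | algebraMap r => exact ⟨r, 0, zero_mem _, by rw [mul_zero, add_zero]; rfl⟩
  | add x y _ _ ihx ihy =>
    obtain ⟨u, h, hh, hx⟩ := ihx
    obtain ⟨v, k, hk, hy⟩ := ihy
    refine ⟨u + v, h + k, (regularAt s₀).add_mem hh hk, ?_⟩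
    rw [hx, hy, map_add]
    ring
  | mul x y _ _ ihx ihy =>
    obtain ⟨u, h, hh, hx⟩ := ihx
    obtain ⟨v, k, hk, hy⟩ := ihy
    refine ⟨u * v, PowerSeries.C u * k + h * PowerSeries.C v + PowerSeries.X * (h * k),
      (regularAt s₀).add_mem ((regularAt s₀).add_mem ((regularAt s₀).mul_mem (hC u) hk)
        ((regularAt s₀).mul_mem hh (hC v)))
        ((regularAt s₀).mul_mem hX ((regularAt s₀).mul_mem hh hk)), ?_⟩
    rw [hx, hy, map_mul]
    ring

theorem mem_of_X_mul {s₀ : ℚ} {Z : PowerSeries Mot} (h : PowerSeries.X * Z ∈ regularAt s₀) :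
    Z ∈ regularAt s₀ := by
  obtain ⟨u, k, hk, hZ⟩ := exists_divX h
  have h0 : u = 0 := by
    have h1 := congrArg (PowerSeries.coeff 0) hZ
    rw [PowerSeries.coeff_zero_X_mul, map_add, PowerSeries.coeff_zero_X_mul,
      PowerSeries.coeff_zero_C, add_zero] at h1
    exact h1.symm
  rw [h0, map_zero, zero_add] at hZ
  rw [PowerSeries.X_mul_cancel hZ]
  exact hk

theorem mem_of_X_pow_mul {s₀ : ℚ} {Z : PowerSeries Mot} {d : ℕ}
    (h : PowerSeries.X ^ d * Z ∈ regularAt s₀) : Z ∈ regularAt s₀ := by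
  induction d with
  | zero => simpa using h
  | succ d ih =>
    apply ih
    apply mem_of_X_mul
    rwa [← mul_assoc, ← pow_succ']

/-- The poles of the local and of the global zeta function of a homogeneous polynomial are the
same. -/
theorem isPole_Zmot0_iff {n : ℕ} {f : MvPolynomial (Fin n) ℂ} {d : ℕ} (hd : 0 < d)
    (hf : f.IsHomogeneous d) {s₀ : ℚ} : IsPole (Zmot0 f) s₀ ↔ IsPole (Zmot f) s₀ := by
  have hX : (PowerSeries.X : PowerSeries Mot) ∈ regularAt s₀ :=
    Algebra.subset_adjoin (Or.inl rfl)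
  have hC : ∀ u : Mot, PowerSeries.C u ∈ regularAt s₀ := fun u =>
    (regularAt s₀).algebraMap_mem u
  unfold IsPole
  rw [not_iff_not, Zmot0_of_isHomogeneous hd hf]
  constructor
  · intro h
    apply mem_of_X_pow_mul (d := d)
    have h1 := (regularAt s₀).mul_mem (hC (↑(LU ^ (n : ℤ)) : Mot)) h
    have h2 : PowerSeries.C (↑(LU ^ (n : ℤ)) : Mot) *
        (PowerSeries.C (↑(LU ^ (-(n : ℤ))) : Mot) * PowerSeries.X ^ d * Zmot f) =
        PowerSeries.X ^ d * Zmot f := by
      rw [← mul_assoc, ← mul_assoc, ← map_mul, ← Units.val_mul, ← zpow_add, add_neg_cancel,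
        zpow_zero, Units.val_one, map_one, one_mul]
    rwa [h2] at h1
  · intro h
    exact (regularAt s₀).mul_mem ((regularAt s₀).mul_mem (hC _) ((regularAt s₀).pow_mem hX d)) h

/-- **The strong monodromy conjecture** (global and local) for the homogeneous polynomials in the
class `StableLoc`. -/
theorem smc_of_stableLoc {n : ℕ} {f : MvPolynomial (Fin n) ℂ} (hf : f ≠ 0) {d : ℕ} (hd : 0 < d)
    (hh : f.IsHomogeneous d) (h : StableLoc n f) {s₀ : ℚ} (hs : s₀ < 0)
    (hp : IsPole (Zmot f) s₀ ∨ IsPole (Zmot0 f) s₀) {b : Polynomial ℂ}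
    (hb : InDnForm f 1 (b.map (MvPowerSeries.C (σ := Fin n) (R := ℂ)))) :
    b.eval (s₀ : ℂ) = 0 := by
  have h0 : coeff 0 f = 0 := by
    rw [← MvPolynomial.notMem_support_iff]
    intro h
    have := hh (mem_support_iff.1 h)
    simp at this
    omega
  have hp0 : IsPole (Zmot0 f) s₀ := by
    rcases hp with hp | hp
    · exact (isPole_Zmot0_iff hd hh).2 hp
    · exact hp
  exact SmcLoc.of_stableLoc h hf h0 s₀ hs hp0 b hb

end MN

end MPb07157
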