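import Pool.Agent.Lib.MP_b07157_agN1.Asm
import Pool.Agent.Lib.MP_b07157_agN1.HomLG
import Pool.Agent.Lib.MP_b07157_agQ.HomDvd
import Pool.Agent.Lib.MP_b07157_agQ.NSQ
import Pool.Agent.Lib.MP_b07157_agL3.Defs2
import Pool.Agent.Lib.MP_b07157_agL3.Emba

/-!
# Homogeneous polynomials with one root in the direction `z`
-/

noncomputable section

namespace MPb07157

open MvPolynomial

namespace MN

variable {L : Type} [Field L] [Algebra ℂ L]

/-- The value at `(1, t)`. -/
def th (t : L) : MvPolynomial (Fin 2) ℂ →ₐ[ℂ] L := aeval ![1, t]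

theorem th_eq (t : L) (F : MvPolynomial (Fin 2) ℂ) : th t F = Polynomial.aeval t (dh F) := by
  have h : th t = (Polynomial.aeval t : Polynomial ℂ →ₐ[ℂ] L).comp
      (aeval ![1, Polynomial.X] : MvPolynomial (Fin 2) ℂ →ₐ[ℂ] Polynomial ℂ) := by
    apply MvPolynomial.algHom_ext
    intro i
    unfold th
    rw [aeval_X, AlgHom.comp_apply, aeval_X]
    fin_cases i
    · simp
    · simp
  rw [h]
  rfl

/-- `t` is transcendental. -/
def Tr (t : L) : Prop := ∀ p : Polynomial ℂ, Polynomial.aeval t p = 0 → p = 0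

theorem th_inj {t : L} (ht : Tr t) {F : MvPolynomial (Fin 2) ℂ} {n : ℕ} (hF : F.IsHomogeneous n)
    (h : th t F = 0) : F = 0 := by
  rw [th_eq] at h
  refine eq_of_dh hF (isHomogeneous_zero _ _ _) ?_
  rw [ht _ h]
  simp [dh]

theorem PL_eq (t : L) (G : MvPolynomial (Fin 3) ℂ) :
    TL.PL G t = (finSuccEquiv ℂ 2 G).map (th t : MvPolynomial (Fin 2) ℂ →+* L) := by
  have h : (aeval ![Polynomial.X, 1, Polynomial.C t] : MvPolynomial (Fin 3) ℂ →ₐ[ℂ]
      Polynomial L).toRingHom = (Polynomial.mapRingHom (th t : MvPolynomial (Fin 2) ℂ →+* L)).comp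
      (finSuccEquiv ℂ 2 : MvPolynomial (Fin 3) ℂ →+* Polynomial (MvPolynomial (Fin 2) ℂ)) := by
    apply MvPolynomial.ringHom_ext
    · intro a
      have h1 : finSuccEquiv ℂ 2 (C a) = Polynomial.C (C a) := by
        simp [finSuccEquiv_apply]
      change aeval ![Polynomial.X, 1, Polynomial.C t] (C a) =
        Polynomial.map _ (finSuccEquiv ℂ 2 (C a))
      rw [h1, aeval_C, Polynomial.map_C]
      change Polynomial.C (algebraMap ℂ L a) = Polynomial.C (th t (C a))
      unfold th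
      rw [aeval_C]
    · intro i
      change aeval ![Polynomial.X, 1, Polynomial.C t] (X i) =
        Polynomial.map _ (finSuccEquiv ℂ 2 (X i))
      refine Fin.cases ?_ (fun j => ?_) i
      · rw [finSuccEquiv_X_zero, aeval_X, Polynomial.map_X]
        rfl
      · rw [finSuccEquiv_X_succ, aeval_X, Polynomial.map_C]
        change _ = Polynomial.C (th t (X j))
        unfold th
        rw [aeval_X]
        fin_cases j
        · rfl
        · rfl
  exact congrArg (fun φ => φ G) h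

/-- The coefficients of a homogeneous polynomial are homogeneous. -/
theorem coeff_hom {G : MvPolynomial (Fin 3) ℂ} {N : ℕ} (hG : G.IsHomogeneous N) (i : ℕ) :
    ((finSuccEquiv ℂ 2 G).coeff i).IsHomogeneous (N - i) := by
  by_cases hi : i ≤ N
  · exact hG.finSuccEquiv_coeff_isHomogeneous i (N - i) (by omega)
  · have h1 : (finSuccEquiv ℂ 2 G).natDegree ≤ N := by
      rw [natDegree_finSuccEquiv]
      exact (degreeOf_le_totalDegree G 0).trans hG.totalDegree_le
    rw [Polynomial.coeff_eq_zero_of_natDegree_lt (by omega)]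
    exact isHomogeneous_zero _ _ _

theorem PL_inj {t : L} (ht : Tr t) {G : MvPolynomial (Fin 3) ℂ} {N : ℕ} (hG : G.IsHomogeneous N)
    (h : TL.PL G t = 0) : G = 0 := by
  apply (finSuccEquiv ℂ 2).injective
  rw [map_zero]
  ext1 i
  rw [Polynomial.coeff_zero]
  refine th_inj ht (coeff_hom hG i) ?_
  rw [PL_eq] at h
  have h1 := congrArg (fun p => p.coeff i) h
  simpa [Polynomial.coeff_map] using h1

theorem PL_mul (t : L) (F G : MvPolynomial (Fin 3) ℂ) :
    TL.PL (F * G) t = TL.PL F t * TL.PL G t := map_mul _ _ _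

theorem PL_pow (t : L) (F : MvPolynomial (Fin 3) ℂ) (k : ℕ) :
    TL.PL (F ^ k) t = TL.PL F t ^ k := map_pow _ _ _

theorem PL_rename (t : L) (F : MvPolynomial (Fin 2) ℂ) :
    TL.PL (rename Fin.succ F) t = Polynomial.C (th t F) := by
  rw [PL_eq, finSuccEquiv_rename_succ, Polynomial.map_C]
  rfl

/-- **Normal form** if `f(X, 1, t)` has exactly one root. -/
theorem exists_mon {t : L} (ht : Tr t) {f : MvPolynomial (Fin 3) ℂ} {d : ℕ}
    (hh : f.IsHomogeneous d) {A0 c : L} {M : ℕ} (hM : 0 < M) (hA0 : A0 ≠ 0)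
    (h : TL.PL f t = Polynomial.C A0 * (Polynomial.X - Polynomial.C c) ^ M) :
    ∃ (P A B : MvPolynomial (Fin 2) ℂ) (q e : ℕ), P.IsHomogeneous q ∧ A.IsHomogeneous e ∧
      B.IsHomogeneous (e + 1) ∧ P ≠ 0 ∧ A ≠ 0 ∧ IsRelPrime A B ∧ d = q + M * (e + 1) ∧
      f = mon P A B M := by
  obtain ⟨N, rfl⟩ : ∃ N, M = N + 1 := ⟨M - 1, by omega⟩
  have hM0 : ((N + 1 : ℕ) : ℂ) ≠ 0 := by exact_mod_cast Nat.succ_ne_zero N
  set a := (finSuccEquiv ℂ 2 f).coeff (N + 1) with ha
  set b := (finSuccEquiv ℂ 2 f).coeff N with hb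
  have hcoef : ∀ i, th t ((finSuccEquiv ℂ 2 f).coeff i) =
      (Polynomial.C A0 * (Polynomial.X - Polynomial.C c) ^ (N + 1)).coeff i := by
    intro i
    rw [← h, PL_eq, Polynomial.coeff_map]
    rfl
  have hta : th t a = A0 := by
    rw [ha, hcoef, Polynomial.coeff_C_mul, sub_eq_add_neg, ← Polynomial.C_neg,
      Polynomial.coeff_X_add_C_pow, Nat.sub_self, pow_zero, Nat.choose_self, Nat.cast_one,
      mul_one, mul_one]
  have htb : th t b = -(((N + 1 : ℕ) : L) * (A0 * c)) := by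
    rw [hb, hcoef, Polynomial.coeff_C_mul, sub_eq_add_neg, ← Polynomial.C_neg,
      Polynomial.coeff_X_add_C_pow, show N + 1 - N = 1 by omega, pow_one,
      Nat.choose_succ_self_right]
    ring
  have ha0 : a ≠ 0 := by
    intro h0
    rw [h0, map_zero] at hta
    exact hA0 hta.symm
  have hf0 : f ≠ 0 := by
    rintro rfl
    apply ha0
    rw [ha, map_zero, Polynomial.coeff_zero]
  have hNd : N + 1 ≤ d := by
    have h1 : (finSuccEquiv ℂ 2 f).natDegree ≤ d := by
      rw [natDegree_finSuccEquiv]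
      exact (degreeOf_le_totalDegree f 0).trans hh.totalDegree_le
    exact (Polynomial.le_natDegree_of_ne_zero ha0).trans h1
  have hah : a.IsHomogeneous (d - (N + 1)) := coeff_hom hh _
  have hbh : b.IsHomogeneous (d - (N + 1) + 1) := by
    have := coeff_hom hh N
    rwa [show d - N = d - (N + 1) + 1 by omega] at this
  set a1 := C ((N + 1 : ℕ) : ℂ) * a with ha1
  have ha10 : a1 ≠ 0 := mul_ne_zero (fun h0 => hM0 (C_eq_zero.1 h0)) ha0
  have ha1h : a1.IsHomogeneous (d - (N + 1)) := by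
    have := (isHomogeneous_C (Fin 2) ((N + 1 : ℕ) : ℂ)).mul hah
    rwa [zero_add] at this
  have hgh : ∀ {A B : MvPolynomial (Fin 2) ℂ} {e : ℕ}, A.IsHomogeneous e →
      B.IsHomogeneous (e + 1) → (gg A B).IsHomogeneous (e + 1) := by
    intro A B e hA hB
    have h1 := (isHomogeneous_X ℂ (0 : Fin 3)).mul (hA.rename_isHomogeneous (f := Fin.succ))
    rw [add_comm 1 e] at h1
    exact h1.add hB.rename_isHomogeneous
  -- the identity
  have hid : rename Fin.succ (C (((N + 1 : ℕ) : ℂ) ^ (N + 1)) * a ^ N) * f =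
      gg a1 b ^ (N + 1) := by
    rw [← sub_eq_zero]
    have h1 : (rename Fin.succ (C (((N + 1 : ℕ) : ℂ) ^ (N + 1)) * a ^ N) * f).IsHomogeneous
        ((d - (N + 1) + 1) * (N + 1)) := by
      have h2 : (C (((N + 1 : ℕ) : ℂ) ^ (N + 1)) * a ^ N : MvPolynomial (Fin 2) ℂ).IsHomogeneous
          ((d - (N + 1)) * N) := by
        have := (isHomogeneous_C (Fin 2) (((N + 1 : ℕ) : ℂ) ^ (N + 1))).mul (hah.pow N)
        rwa [zero_add] at this
      have h3 := (h2.rename_isHomogeneous (f := Fin.succ)).mul hh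
      have h4 : (d - (N + 1)) * N + d = (d - (N + 1) + 1) * (N + 1) := by
        obtain ⟨k, rfl⟩ := Nat.exists_eq_add_of_le hNd
        rw [Nat.add_sub_cancel_left]
        ring
      rwa [h4] at h3
    have h2 : (gg a1 b ^ (N + 1)).IsHomogeneous ((d - (N + 1) + 1) * (N + 1)) :=
      (hgh ha1h hbh).pow (N + 1)
    refine PL_inj ht (h1.sub h2) ?_
    have hsub : ∀ F G : MvPolynomial (Fin 3) ℂ, TL.PL (F - G) t = TL.PL F t - TL.PL G t :=
      fun F G => map_sub _ _ _
    have hCt : ∀ z : ℂ, th t (C z) = algebraMap ℂ L z := fun z => by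
      unfold th
      rw [aeval_C]
    have h3 : TL.PL (gg a1 b) t =
        Polynomial.C ((N + 1 : ℕ) : L) * Polynomial.C A0 *
          (Polynomial.X - Polynomial.C c) := by
      have h4 : TL.PL (gg a1 b) t = TL.PL (X 0) t * TL.PL (rename Fin.succ a1) t +
          TL.PL (rename Fin.succ b) t := by
        unfold gg TL.PL
        rw [map_add, map_mul]
      have h5 : TL.PL (X 0) t = Polynomial.X := by
        unfold TL.PL
        rw [aeval_X]
        rfl
      rw [h4, h5, PL_rename, PL_rename, htb, ha1, map_mul, hta, hCt, map_natCast]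
      simp only [map_neg, map_mul]
      ring
    rw [hsub, PL_mul, PL_rename, h, PL_pow, h3, map_mul, map_pow (th t) a, hta, hCt]
    simp only [map_pow, map_mul, map_natCast, mul_pow]
    ring
  -- reduce
  obtain ⟨A, B, g, hAB, hgA, hgB⟩ := UniqueFactorizationMonoid.exists_reduced_factors a1 ha10 b
  have hg0 : g ≠ 0 := by
    rintro rfl
    rw [zero_mul] at hgA
    exact ha10 hgA.symm
  have hA0' : A ≠ 0 := by
    rintro rfl
    rw [mul_zero] at hgA
    exact ha10 hgA.symm
  obtain ⟨e, hAe⟩ := isHomogeneous_of_dvd ha1h ha10 (Dvd.intro_left g hgA)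
  obtain ⟨γ, hgγ⟩ := isHomogeneous_of_dvd ha1h ha10 (Dvd.intro A hgA)
  have hdeg : γ + e = d - (N + 1) := by
    have h1 := hgγ.mul hAe
    rw [hgA] at h1
    exact h1.inj_right ha1h ha10
  have hBe : B.IsHomogeneous (e + 1) := by
    by_cases hB0 : B = 0
    · rw [hB0]
      exact isHomogeneous_zero _ _ _
    · have hb0 : b ≠ 0 := by
        rw [← hgB]
        exact mul_ne_zero hg0 hB0
      obtain ⟨e', hBe'⟩ := isHomogeneous_of_dvd hbh hb0 (Dvd.intro_left g hgB)
      have h1 := hgγ.mul hBe'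
      rw [hgB] at h1
      have h2 := h1.inj_right hbh hb0
      rwa [show e' = e + 1 by omega] at hBe'
  have hgg : gg a1 b = rename Fin.succ g * gg A B := by
    unfold gg
    rw [← hgA, ← hgB, map_mul, map_mul]
    ring
  have hirr := irr_gg hA0' hAB
  have hpr : Prime (gg A B) := hirr.prime
  have hK0 : (C (((N + 1 : ℕ) : ℂ) ^ (N + 1)) * a ^ N : MvPolynomial (Fin 2) ℂ) ≠ 0 :=
    mul_ne_zero (fun h0 => pow_ne_zero (N + 1) hM0 (C_eq_zero.1 h0)) (pow_ne_zero _ ha0)
  have hdvd : gg A B ^ (N + 1) ∣ f := by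
    refine hpr.pow_dvd_of_dvd_mul_left (N + 1) (not_gg_dvd hK0 hA0') ?_
    rw [hid, hgg, mul_pow]
    exact Dvd.intro_left _ rfl
  obtain ⟨Q, hQ⟩ := hdvd
  have hQ2 : rename Fin.succ (C (((N + 1 : ℕ) : ℂ) ^ (N + 1)) * a ^ N) * Q =
      rename Fin.succ (g ^ (N + 1)) := by
    apply mul_left_cancel₀ (pow_ne_zero (N + 1) hirr.ne_zero)
    have h1 := hid
    rw [hgg, hQ, mul_pow] at h1
    have h2 : rename Fin.succ (g ^ (N + 1)) =
        (rename Fin.succ g : MvPolynomial (Fin 3) ℂ) ^ (N + 1) := map_pow _ _ _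
    rw [h2]
    linear_combination h1
  have hQ0 : Q ≠ 0 := by
    rintro rfl
    rw [mul_zero] at hQ
    exact hf0 hQ
  obtain ⟨P, hP⟩ : ∃ P, Q = rename Fin.succ P := by
    have h1 := congrArg (finSuccEquiv ℂ 2) hQ2
    rw [map_mul, finSuccEquiv_rename_succ, finSuccEquiv_rename_succ] at h1
    have hQ0' : finSuccEquiv ℂ 2 Q ≠ 0 := by
      intro h2
      exact hQ0 ((finSuccEquiv ℂ 2).injective (by rw [h2, map_zero]))
    have h2 := congrArg Polynomial.natDegree h1
    rw [Polynomial.natDegree_mul (Polynomial.C_ne_zero.2 hK0) hQ0', Polynomial.natDegree_C,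
      Polynomial.natDegree_C, zero_add] at h2
    refine ⟨(finSuccEquiv ℂ 2 Q).coeff 0, (finSuccEquiv ℂ 2).injective ?_⟩
    rw [finSuccEquiv_rename_succ]
    exact Polynomial.eq_C_of_natDegree_eq_zero h2
  have hfm : f = mon P A B (N + 1) := by
    rw [hQ, hP]
    unfold mon gg
    ring
  obtain ⟨q, hPq'⟩ : ∃ q, (rename Fin.succ P : MvPolynomial (Fin 3) ℂ).IsHomogeneous q := by
    refine isHomogeneous_of_dvd hh hf0 (Dvd.intro (gg A B ^ (N + 1)) ?_)
    rw [hfm]
    rfl
  have hPq : P.IsHomogeneous q :=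
    (IsHomogeneous.rename_isHomogeneous_iff (Fin.succ_injective 2)).1 hPq'
  have hP0 : P ≠ 0 := by
    rintro rfl
    rw [map_zero] at hP
    exact hQ0 hP
  refine ⟨P, A, B, q, e, hPq, hAe, hBe, hP0, hA0', hAB, ?_, hfm⟩
  have h1 : (mon P A B (N + 1)).IsHomogeneous (q + (N + 1) * (e + 1)) := by
    have h2 := hPq'.mul ((hgh hAe hBe).pow (N + 1))
    rwa [mul_comm (e + 1)] at h2
  rw [← hfm] at h1
  exact hh.inj_right h1 hf0

/-! ### The degenerate cases -/

theorem pderiv_zero_rename (P : MvPolynomial (Fin 2) ℂ) :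
    pderiv 0 (rename Fin.succ P : MvPolynomial (Fin 3) ℂ) = 0 := by
  apply pderiv_eq_zero_of_notMem_vars
  intro h3
  obtain ⟨j, -, hj⟩ := Finset.mem_image.1 (vars_rename Fin.succ P h3)
  exact Fin.succ_ne_zero j hj

/-- Polynomials in `x`, `y`. -/
theorem not_NS_rename (P : MvPolynomial (Fin 2) ℂ) : ¬ NS (rename Fin.succ P) := by
  intro h
  have h1 := h ![X 0, 0, 0] (fun i => by
    fin_cases i
    · exact isHomogeneous_X ℂ 0
    · exact isHomogeneous_zero _ _ _
    · exact isHomogeneous_zero _ _ _) (by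
    rw [Fin.sum_univ_three]
    simp [pderiv_zero_rename P])
  rw [Fin.sum_univ_three] at h1
  simp at h1

/-- Powers of linear forms. -/
theorem not_NS_lin (κ : ℂ) {α : ℂ} (hα : α ≠ 0) {B : MvPolynomial (Fin 2) ℂ}
    (hB : B.IsHomogeneous 1) (M : ℕ) : ¬ NS (mon (C κ) (C α) B M) := by
  intro h
  obtain ⟨b0, hb0⟩ : ∃ b0, pderiv 0 B = C b0 := by
    have h2 : (pderiv 0 B).IsHomogeneous 0 := hB.pderiv
    rw [← totalDegree_zero_iff_isHomogeneous, totalDegree_eq_zero_iff_eq_C] at h2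
    exact ⟨_, h2⟩
  set l : MvPolynomial (Fin 3) ℂ := X 0 * C α + rename Fin.succ B with hl
  have hmon : mon (C κ) (C α) B M = C κ * l ^ M := by
    unfold mon
    rw [rename_C, rename_C]
  have hl0 : pderiv 0 l = C α := by
    rw [hl, map_add, pderiv_zero_rename, mul_comm, pderiv_C_mul, pderiv_X_self, mul_one, add_zero]
  have hl1 : pderiv 1 l = C b0 := by
    have h1 : pderiv (1 : Fin 3) (rename Fin.succ B) = rename Fin.succ (pderiv 0 B) :=
      pderiv_rename (Fin.succ_injective 2) 0 B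
    rw [hl, map_add, h1, hb0, rename_C, mul_comm, pderiv_C_mul,
      pderiv_X_of_ne (by decide : (0 : Fin 3) ≠ 1), mul_zero, zero_add]
  have hd : ∀ i, pderiv i (C κ * l ^ M) = C κ * ((M : MvPolynomial (Fin 3) ℂ) * l ^ (M - 1) * pderiv i l) := by
    intro i
    rw [pderiv_C_mul, pderiv_pow]
  have h1 := h ![-(C b0 * X 1), C α * X 1, 0] (fun i => by
    have hC : ∀ z : ℂ, (C z * X 1 : MvPolynomial (Fin 3) ℂ).IsHomogeneous 1 := fun z => by
      have := (isHomogeneous_C (Fin 3) z).mul (isHomogeneous_X ℂ (1 : Fin 3))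
      rwa [zero_add] at this
    fin_cases i
    · exact (hC b0).neg
    · exact hC α
    · exact isHomogeneous_zero _ _ _) (by
    rw [hmon, Fin.sum_univ_three, hd, hd, hl0, hl1]
    simp only [Matrix.cons_val, zero_mul, add_zero]
    ring)
  rw [Fin.sum_univ_three] at h1
  simp only [Matrix.cons_val, map_neg, pderiv_C_mul, map_zero, add_zero, pderiv_X_self,
    pderiv_X_of_ne (by decide : (1 : Fin 3) ≠ 0), mul_zero, neg_zero, zero_add, mul_one] at h1
  exact hα (C_eq_zero.1 h1)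

/-- **The strong monodromy conjecture at `-3/d`** if `f(X, 1, t)` has at most one root. -/
theorem root_of_one {t : L} (ht : Tr t) {f : MvPolynomial (Fin 3) ℂ} (hf : f ≠ 0) {d : ℕ}
    (hd : 0 < d) (hh : f.IsHomogeneous d) {A0 c : L} {M : ℕ} (hA0 : A0 ≠ 0)
    (h : TL.PL f t = Polynomial.C A0 * (Polynomial.X - Polynomial.C c) ^ M)
    (hpole : IsPole (Zmot f) (-(3 / (d : ℚ))) ∨ IsPole (Zmot0 f) (-(3 / (d : ℚ)))) :
    IsBernsteinSatoRoot f (-(3 / (d : ℚ))) := by
  have hs : -(3 / (d : ℚ)) < 0 := by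
    have : (0 : ℚ) < d := by exact_mod_cast hd
    have h1 : 0 < 3 / (d : ℚ) := by positivity
    linarith
  have hstab : ¬ NS f → IsBernsteinSatoRoot f (-(3 / (d : ℚ))) := by
    intro hNS b hb
    refine smc_of_stableLoc hf hd hh (stable_of_not_NS hf hd hh hNS).1 hs hpole ?_
    have := InDn.toForm hb
    rwa [toForm_C] at this
  rcases Nat.eq_zero_or_pos M with hM | hM
  · apply hstab
    rw [hM, pow_zero, mul_one] at h
    have h1 : f = rename Fin.succ ((finSuccEquiv ℂ 2 f).coeff 0) := by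
      apply (finSuccEquiv ℂ 2).injective
      rw [finSuccEquiv_rename_succ]
      ext1 i
      rw [Polynomial.coeff_C]
      split_ifs with hi
      · rw [hi]
      · refine th_inj ht (coeff_hom hh i) ?_
        have h2 := congrArg (fun p => p.coeff i) h
        rw [PL_eq] at h2
        simpa [Polynomial.coeff_map, Polynomial.coeff_C, hi] using h2
    rw [h1]
    exact not_NS_rename _
  · obtain ⟨P, A, B, q, e, hP, hA, hB, hP0, hA0', hAB, hde, hfm⟩ :=
      exists_mon ht hh hM hA0 h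
    rcases Nat.eq_zero_or_pos (q + M * e) with h1 | h1
    · apply hstab
      obtain ⟨rfl, h2⟩ := Nat.add_eq_zero_iff.1 h1
      have he : e = 0 := by
        rcases Nat.mul_eq_zero.1 h2 with h3 | h3
        · omega
        · exact h3
      subst he
      rw [← totalDegree_zero_iff_isHomogeneous, totalDegree_eq_zero_iff_eq_C] at hP hA
      rw [hfm, hP, hA]
      refine not_NS_lin _ ?_ hB M
      intro h0
      rw [h0, C_0] at hA
      exact hA0' hA
    · exact root_monoid hh AlgEquiv.refl hP hA hB hP0 hA0' hAB hM h1 hde hfm hpole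

/-- **The strong monodromy conjecture at `-3/d`** if `f(X, 1, τ)` has at most one root. -/
theorem root_of_fac {f : MvPolynomial (Fin 3) ℂ} (hf : f ≠ 0) {d : ℕ}
    (hd : 0 < d) (hh : f.IsHomogeneous d) {n : ℕ} (hn : n ≤ 1) {c : Fin n → TL.L0}
    {m : Fin n → ℕ} {A0 : TL.L0} (h : TL.Fac f TL.tau c m A0)
    (hpole : IsPole (Zmot f) (-(3 / (d : ℚ))) ∨ IsPole (Zmot0 f) (-(3 / (d : ℚ)))) :
    IsBernsteinSatoRoot f (-(3 / (d : ℚ))) := by
  have ht : Tr TL.tau := by
    intro p hp
    exact (transcendental_iff_injective.1 TL.Embaux.transcendental_tau) (by rw [hp, map_zero])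
  have heq := h.eq
  interval_cases n
  · rw [Finset.univ_eq_empty, Finset.prod_empty] at heq
    exact root_of_one ht hf hd hh (c := 0) (M := 0) h.ne (by rw [heq, pow_zero]) hpole
  · rw [Fin.prod_univ_one] at heq
    exact root_of_one ht hf hd hh h.ne heq hpole

end MN

end MPb07157
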