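import Pool.Agent.Lib.MP_b07157_agN1.Roots
import Pool.Agent.Lib.MP_b07157_agQ.Lines

/-!
# Binary forms over `ℂ`
-/

noncomputable section

namespace MPb07157

open MvPolynomial

namespace MN

/-- The polynomial `F(1, t)`. -/
def dh (F : MvPolynomial (Fin 2) ℂ) : Polynomial ℂ := aeval ![1, Polynomial.X] F

theorem eval_dh (F : MvPolynomial (Fin 2) ℂ) (t : ℂ) : (dh F).eval t = eval ![1, t] F := by
  have h : (Polynomial.evalRingHom t).comp (aeval ![1, Polynomial.X] :
      MvPolynomial (Fin 2) ℂ →ₐ[ℂ] Polynomial ℂ).toRingHom = eval ![1, t] := by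
    apply MvPolynomial.ringHom_ext
    · intro a
      simp
    · intro i
      fin_cases i <;> simp
  exact congrArg (fun φ => φ F) h

theorem dh_mul (F G : MvPolynomial (Fin 2) ℂ) : dh (F * G) = dh F * dh G := map_mul _ _ _

theorem dh_bin (lam : ℂ) (R : Finset ℂ) (r : ℂ → ℕ) :
    dh (bin lam R r) = Polynomial.C lam * ∏ c ∈ R, (Polynomial.X - Polynomial.C c) ^ r c := by
  unfold dh bin
  rw [map_mul, map_prod]
  congr 1
  · rw [aeval_C]
    rfl
  · refine Finset.prod_congr rfl fun c _ => ?_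
    rw [map_pow, map_sub, map_mul, aeval_X, aeval_X, aeval_C]
    simp only [Matrix.cons_val, mul_one]
    rfl

/-- Two binary forms of the same degree with the same dehomogenization are equal. -/
theorem eq_of_dh {F G : MvPolynomial (Fin 2) ℂ} {n : ℕ} (hF : F.IsHomogeneous n)
    (hG : G.IsHomogeneous n) (h : dh F = dh G) : F = G := by
  have h1 : X 0 * (F - G) = 0 := by
    apply MvPolynomial.funext
    intro v
    rw [map_zero, map_mul, eval_X]
    by_cases hv : v 0 = 0
    · rw [hv, zero_mul]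
    · have h2 : v = v 0 • ![1, v 1 / v 0] := by
        funext i
        fin_cases i
        · simp
        · simp [mul_div_cancel₀ _ hv]
      have h3 : (F - G).IsHomogeneous n := hF.sub hG
      rw [h2, eval_smul_of_isHomogeneous h3, map_sub, ← eval_dh, ← eval_dh, h, sub_self, mul_zero,
        mul_zero]
  rcases mul_eq_zero.1 h1 with h2 | h2
  · exact absurd h2 (X_ne_zero _)
  · exact sub_eq_zero.1 h2

theorem eval_bin_inf (lam : ℂ) (R : Finset ℂ) (r : ℂ → ℕ) : eval ![0, 1] (bin lam R r) = lam := by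
  unfold bin
  rw [map_mul, eval_C, map_prod]
  have : ∀ c ∈ R, eval ![0, 1] ((X 1 - C c * X 0 : MvPolynomial (Fin 2) ℂ) ^ r c) = 1 := by
    intro c _
    simp
  rw [Finset.prod_congr rfl this, Finset.prod_const_one, mul_one]

/-- Factorization of a binary form with `F(0, 1) ≠ 0`. -/
theorem exists_bin {F : MvPolynomial (Fin 2) ℂ} {n : ℕ} (hF : F.IsHomogeneous n)
    (h0 : eval ![0, 1] F ≠ 0) (R : Finset ℂ) (hR : ∀ c, (dh F).eval c = 0 → c ∈ R) :
    ∃ (lam : ℂ) (r : ℂ → ℕ), lam ≠ 0 ∧ F = bin lam R r ∧ ∑ c ∈ R, r c = n ∧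
      ∀ c ∈ R, 0 < r c ↔ (dh F).eval c = 0 := by
  classical
  have hF0 : dh F ≠ 0 := by
    intro h1
    have h2 : F = 0 := eq_of_dh hF (isHomogeneous_zero _ _ _) (by rw [h1]; simp [dh])
    rw [h2, map_zero] at h0
    exact h0 rfl
  set r : ℂ → ℕ := fun c => (dh F).roots.count c with hr
  set lam := (dh F).leadingCoeff with hlam
  have hlam0 : lam ≠ 0 := Polynomial.leadingCoeff_ne_zero.2 hF0
  have hsub : (dh F).roots.toFinset ⊆ R := by
    intro c hc
    exact hR c ((Polynomial.mem_roots hF0).1 (Multiset.mem_toFinset.1 hc))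
  have h1 : dh F = dh (bin lam R r) := by
    rw [dh_bin]
    conv_lhs => rw [(IsAlgClosed.splits (dh F)).eq_prod_roots]
    congr 1
    rw [Finset.prod_multiset_map_count]
    refine Finset.prod_subset hsub fun c _ hc => ?_
    have : (dh F).roots.count c = 0 := by
      rw [Multiset.count_eq_zero]
      exact fun h => hc (Multiset.mem_toFinset.2 h)
    rw [this, pow_zero]
  have hX : ∀ k : ℕ, (X 0 ^ k : MvPolynomial (Fin 2) ℂ).IsHomogeneous k := fun k => by
    have := (isHomogeneous_X ℂ (0 : Fin 2)).pow k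
    rwa [one_mul] at this
  have hdX : ∀ k : ℕ, dh (X 0 ^ k) = 1 := by
    intro k
    unfold dh
    rw [map_pow, aeval_X]
    simp
  have hs : ∑ c ∈ R, r c = n := by
    rcases lt_trichotomy (∑ c ∈ R, r c) n with h2 | h2 | h2
    · exfalso
      obtain ⟨k, hk⟩ := Nat.exists_eq_add_of_lt h2
      have h3 : F = X 0 ^ (k + 1) * bin lam R r := by
        refine eq_of_dh (n := n) hF ?_ ?_
        · have := (hX (k + 1)).mul (bin_hom lam R r)
          rwa [show k + 1 + ∑ c ∈ R, r c = n by omega] at this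
        · rw [dh_mul, hdX, one_mul, h1]
      rw [h3, map_mul, map_pow, eval_X] at h0
      simp at h0
    · exact h2
    · exfalso
      obtain ⟨k, hk⟩ := Nat.exists_eq_add_of_lt h2
      have h3 : bin lam R r = X 0 ^ (k + 1) * F := by
        refine eq_of_dh (n := ∑ c ∈ R, r c) (bin_hom lam R r) ?_ ?_
        · have := (hX (k + 1)).mul hF
          rwa [show k + 1 + n = ∑ c ∈ R, r c by omega] at this
        · rw [dh_mul, hdX, one_mul, h1]
      have h4 := congrArg (eval ![0, 1]) h3
      rw [eval_bin_inf, map_mul, map_pow, eval_X] at h4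
      apply hlam0
      rw [h4]
      simp
  refine ⟨lam, r, hlam0, eq_of_dh hF (hs ▸ bin_hom lam R r) h1, hs, fun c _ => ?_⟩
  rw [hr]
  constructor
  · intro h2
    exact (Polynomial.mem_roots hF0).1 (Multiset.count_pos.1 h2)
  · intro h2
    exact Multiset.count_pos.2 ((Polynomial.mem_roots hF0).2 h2)

/-- `y - c x` divides `B` if `B(1, c) = 0`. -/
theorem lin_dvd {B : MvPolynomial (Fin 2) ℂ} {n : ℕ} (hB : B.IsHomogeneous n) {c : ℂ}
    (h : eval ![1, c] B = 0) : (X 1 - C c * X 0 : MvPolynomial (Fin 2) ℂ) ∣ B := by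
  rw [← Ideal.mem_span_singleton, ← Ideal.Quotient.eq_zero_iff_mem]
  set I := Ideal.span {(X 1 - C c * X 0 : MvPolynomial (Fin 2) ℂ)} with hI
  have h1 : (Ideal.Quotient.mk I) (X 1 : MvPolynomial (Fin 2) ℂ) =
      Ideal.Quotient.mk I (C c * X 0) := by
    rw [Ideal.Quotient.eq]
    exact Ideal.subset_span rfl
  have h2 : (Ideal.Quotient.mk I) = ((Ideal.Quotient.mk I).comp
      (aeval ![X 0, C c * X 0] : MvPolynomial (Fin 2) ℂ →ₐ[ℂ]
        MvPolynomial (Fin 2) ℂ).toRingHom) := by
    apply MvPolynomial.ringHom_ext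
    · intro a
      simp
    · intro i
      fin_cases i
      · simp
      · simpa using h1
  rw [h2]
  change (Ideal.Quotient.mk I) (aeval ![X 0, C c * X 0] B) = 0
  have h3 : (aeval ![X 0, C c * X 0] B : MvPolynomial (Fin 2) ℂ) = 0 := by
    apply MvPolynomial.funext
    intro v
    have h4 : eval v (aeval ![X 0, C c * X 0] B : MvPolynomial (Fin 2) ℂ) =
        eval (v 0 • ![1, c]) B := by
      have h5 : (eval v).comp (aeval ![X 0, C c * X 0] : MvPolynomial (Fin 2) ℂ →ₐ[ℂ]
          MvPolynomial (Fin 2) ℂ).toRingHom = eval (v 0 • ![1, c]) := by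
        apply MvPolynomial.ringHom_ext
        · intro a
          simp
        · intro i
          fin_cases i
          · simp
          · simp [mul_comm]
      exact congrArg (fun φ => φ B) h5
    rw [h4, eval_smul_of_isHomogeneous hB, h, mul_zero, map_zero]
  rw [h3, map_zero]

/-- A point `(t, 1)` where a nonzero binary form does not vanish. -/
theorem exists_t {G : MvPolynomial (Fin 2) ℂ} {n : ℕ} (hG : G.IsHomogeneous n) (h0 : G ≠ 0) :
    ∃ t : ℂ, eval ![t, 1] G ≠ 0 := by
  by_contra hcon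
  push Not at hcon
  have h1 : X 1 * G = 0 := by
    apply MvPolynomial.funext
    intro v
    rw [map_zero, map_mul, eval_X]
    by_cases hv : v 1 = 0
    · rw [hv, zero_mul]
    · have h2 : v = v 1 • ![v 0 / v 1, 1] := by
        funext i
        fin_cases i
        · simp [mul_div_cancel₀ _ hv]
        · simp
      rw [h2, eval_smul_of_isHomogeneous hG, hcon, mul_zero, mul_zero]
  rcases mul_eq_zero.1 h1 with h2 | h2
  · exact absurd h2 (X_ne_zero _)
  · exact h0 h2

end MN

end MPb07157
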