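import Pool.Agent.Lib.MP_b07157_agN1.Defs

/-!
# Initial forms of polynomials
-/

noncomputable section

namespace MPb07157

open MvPolynomial

namespace MN

variable {n : ℕ} {w : Fin n → ℕ}

/-- All terms have weight `≥ N`. -/
def Hi (w : Fin n → ℕ) (N : ℕ) (f : MvPolynomial (Fin n) ℂ) : Prop := ∀ v ∈ f.support, N ≤ wt w v

theorem wt_add (w : Fin n → ℕ) (u v : Fin n →₀ ℕ) : wt w (u + v) = wt w u + wt w v := by
  unfold wt
  rw [← Finset.sum_add_distrib]
  exact Finset.sum_congr rfl fun i _ => by rw [Finsupp.add_apply]; ring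

theorem wt_eq (w : Fin n → ℕ) (v : Fin n →₀ ℕ) : Finsupp.weight w v = wt w v := by
  rw [Finsupp.weight_apply, Finsupp.sum_fintype v (fun i c => c • w i) (by simp)]
  unfold wt
  exact Finset.sum_congr rfl fun i _ => by rw [smul_eq_mul, mul_comm]

theorem Hi.add {N : ℕ} {f g : MvPolynomial (Fin n) ℂ} (hf : Hi w N f) (hg : Hi w N g) :
    Hi w N (f + g) := by
  classical
  intro v hv
  rcases Finset.mem_union.1 (support_add hv) with h | h
  · exact hf v h
  · exact hg v h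

theorem Hi.zero {N : ℕ} : Hi w N 0 := by
  intro v hv
  simp at hv

theorem Hi.mul {N M : ℕ} {f g : MvPolynomial (Fin n) ℂ} (hf : Hi w N f) (hg : Hi w M g) :
    Hi w (N + M) (f * g) := by
  classical
  intro v hv
  obtain ⟨a, ha, b, hb, rfl⟩ := Finset.mem_add.1 (support_mul _ _ hv)
  rw [wt_add]
  exact add_le_add (hf a ha) (hg b hb)

theorem Hi.mono {N M : ℕ} (h : N ≤ M) {f : MvPolynomial (Fin n) ℂ} (hf : Hi w M f) : Hi w N f :=
  fun v hv => h.trans (hf v hv)

theorem Hi.of_hom {N : ℕ} {f : MvPolynomial (Fin n) ℂ} (hf : f.IsWeightedHomogeneous w N) :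
    Hi w N f := by
  intro v hv
  have h1 := hf (mem_support_iff.1 hv)
  rw [wt_eq] at h1
  exact h1.ge

/-- `f` is `f₀`, weighted homogeneous of weight `N`, plus terms of larger weight. -/
def HT (w : Fin n → ℕ) (N : ℕ) (f f₀ : MvPolynomial (Fin n) ℂ) : Prop :=
  f₀.IsWeightedHomogeneous w N ∧ Hi w (N + 1) (f - f₀)

theorem HT.self {N : ℕ} {f : MvPolynomial (Fin n) ℂ} (hf : f.IsWeightedHomogeneous w N) :
    HT w N f f := ⟨hf, by rw [sub_self]; exact Hi.zero⟩

theorem HT.hi {N : ℕ} {f f₀ : MvPolynomial (Fin n) ℂ} (hf : HT w N f f₀) : Hi w N f := by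
  have h1 := (Hi.of_hom hf.1).add (hf.2.mono (Nat.le_succ N))
  rwa [add_sub_cancel] at h1

theorem HT.mul {N M : ℕ} {f f₀ g g₀ : MvPolynomial (Fin n) ℂ} (hf : HT w N f f₀)
    (hg : HT w M g g₀) : HT w (N + M) (f * g) (f₀ * g₀) := by
  refine ⟨hf.1.mul hg.1, ?_⟩
  have h1 : f * g - f₀ * g₀ = (f - f₀) * g + f₀ * (g - g₀) := by ring
  rw [h1]
  exact ((hf.2.mul hg.hi).mono (by omega)).add (((Hi.of_hom hf.1).mul hg.2).mono (by omega))

theorem HT.one : HT w 0 (1 : MvPolynomial (Fin n) ℂ) 1 := HT.self (isWeightedHomogeneous_one ℂ w)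

theorem HT.const (c : ℂ) : HT w 0 (C c : MvPolynomial (Fin n) ℂ) (C c) :=
  HT.self (isWeightedHomogeneous_C w c)

theorem HT.var (i : Fin n) : HT w (w i) (X i : MvPolynomial (Fin n) ℂ) (X i) :=
  HT.self (isWeightedHomogeneous_X ℂ w i)

theorem HT.add {N : ℕ} {f f₀ g g₀ : MvPolynomial (Fin n) ℂ} (hf : HT w N f f₀)
    (hg : HT w N g g₀) : HT w N (f + g) (f₀ + g₀) := by
  refine ⟨hf.1.add hg.1, ?_⟩
  have h1 : f + g - (f₀ + g₀) = (f - f₀) + (g - g₀) := by ring
  rw [h1]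
  exact hf.2.add hg.2

/-- Adding terms of larger weight. -/
theorem HT.add_hi {N : ℕ} {f f₀ g : MvPolynomial (Fin n) ℂ} (hf : HT w N f f₀)
    (hg : Hi w (N + 1) g) : HT w N (f + g) f₀ := by
  refine ⟨hf.1, ?_⟩
  have h1 : f + g - f₀ = (f - f₀) + g := by ring
  rw [h1]
  exact hf.2.add hg

theorem HT.pow {N : ℕ} {f f₀ : MvPolynomial (Fin n) ℂ} (hf : HT w N f f₀) (k : ℕ) :
    HT w (k * N) (f ^ k) (f₀ ^ k) := by
  induction k with
  | zero => simpa using HT.one
  | succ k ih =>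
    rw [pow_succ, pow_succ, add_mul, one_mul]
    exact ih.mul hf

theorem HT.prod {ι : Type*} {s : Finset ι} {N : ι → ℕ} {f f₀ : ι → MvPolynomial (Fin n) ℂ}
    (hf : ∀ i ∈ s, HT w (N i) (f i) (f₀ i)) : HT w (∑ i ∈ s, N i) (∏ i ∈ s, f i)
      (∏ i ∈ s, f₀ i) := by
  classical
  induction s using Finset.induction_on with
  | empty => simpa using HT.one
  | insert i s hi ih =>
    rw [Finset.sum_insert hi, Finset.prod_insert hi, Finset.prod_insert hi]
    exact (hf i (Finset.mem_insert_self _ _)).mul (ih fun j hj => hf j (Finset.mem_insert_of_mem hj))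

theorem HT.sum {ι : Type*} {s : Finset ι} {N : ℕ} {f f₀ : ι → MvPolynomial (Fin n) ℂ}
    (hf : ∀ i ∈ s, HT w N (f i) (f₀ i)) : HT w N (∑ i ∈ s, f i) (∑ i ∈ s, f₀ i) := by
  classical
  induction s using Finset.induction_on with
  | empty => exact ⟨isWeightedHomogeneous_zero _ _ _, by simpa using Hi.zero⟩
  | insert i s hi ih =>
    rw [Finset.sum_insert hi, Finset.sum_insert hi]
    exact (hf i (Finset.mem_insert_self _ _)).add (ih fun j hj => hf j (Finset.mem_insert_of_mem hj))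

end MN

end MPb07157
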