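import Pool.Agent.Lib.MP_b07157_agI.SqR3

/-!
# `NonEx` for the initial form `x ^ a (c y z + b x ^ 2) ^ M`
-/

noncomputable section

namespace MPb07157.MN

open MvPolynomial

namespace NE

/-- The products `(κ - 1) (κ - 2) ... (κ - j - 1)`. -/
def DD (κ : ℂ) (j : ℕ) : ℂ := ∏ l ∈ Finset.range (j + 1), (κ - 1 - l)

theorem DD_succ (κ : ℂ) (j : ℕ) : DD κ (j + 1) = DD κ j * (κ - 1 - ((j + 1 : ℕ) : ℂ)) :=
  Finset.prod_range_succ _ _

theorem DD_shift (κ : ℂ) (j : ℕ) : DD (κ + 1) (j + 1) = κ * DD κ j := by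
  unfold DD
  rw [Finset.prod_range_succ' (fun l : ℕ => κ + 1 - 1 - (l : ℂ))]
  rw [mul_comm]
  congr 1
  · push_cast
    ring
  · refine Finset.prod_congr rfl fun l _ => ?_
    push_cast
    ring

theorem DD_ne {κ : ℂ} (hκ : ∀ z : ℤ, κ ≠ z) (j : ℕ) : DD κ j ≠ 0 := by
  unfold DD
  refine Finset.prod_ne_zero_iff.2 fun l _ h => ?_
  refine hκ (1 + l) ?_
  push_cast
  linear_combination h

/-- The integrals of `u ^ j (c u + b) ^ (- κ - n)`, up to a constant. -/
def be (κ b c : ℂ) (n j : ℕ) : ℂ := (j.factorial : ℂ) / DD (κ + n) j * (b / c) ^ (j + 1) / b ^ n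

variable {κ b c : ℂ}

theorem be_one (hκ : ∀ z : ℤ, κ ≠ z) (hb : b ≠ 0) (hc : c ≠ 0) (n j : ℕ) :
    (κ + n) * (c * be κ b c (n + 1) (j + 1)) = ((j + 1 : ℕ) : ℂ) * be κ b c n j := by
  have h1 : κ + n ≠ 0 := by
    intro h
    refine hκ (-n) ?_
    push_cast
    linear_combination h
  have h2 : DD (κ + n) j ≠ 0 := by
    refine DD_ne (fun z hz => hκ (z - n) ?_) j
    push_cast
    linear_combination hz
  unfold be
  have h3 : DD (κ + ((n + 1 : ℕ) : ℂ)) (j + 1) = (κ + n) * DD (κ + n) j := by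
    rw [← DD_shift]
    congr 1
    push_cast
    ring
  rw [h3, Nat.factorial_succ, pow_succ (b / c) (j + 1), pow_succ b n]
  push_cast
  field_simp

theorem be_two (hκ : ∀ z : ℤ, κ ≠ z) (hb : b ≠ 0) (hc : c ≠ 0) (n j : ℕ) :
    (κ + n) * (b * be κ b c (n + 1) j) = (κ + n - (j + 1)) * be κ b c n j := by
  have h1 : κ + n ≠ 0 := by
    intro h
    refine hκ (-n) ?_
    push_cast
    linear_combination h
  have h2 : DD (κ + n) j ≠ 0 := by
    refine DD_ne (fun z hz => hκ (z - n) ?_) j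
    push_cast
    linear_combination hz
  have h4 : DD (κ + ((n + 1 : ℕ) : ℂ)) j ≠ 0 := by
    refine DD_ne (fun z hz => hκ (z - (n + 1)) ?_) j
    push_cast at hz ⊢
    linear_combination hz
  have h3 : DD (κ + ((n + 1 : ℕ) : ℂ)) j * (κ + n - (j + 1)) = (κ + n) * DD (κ + n) j := by
    rw [← DD_shift]
    have h5 := DD_succ (κ + ((n + 1 : ℕ) : ℂ)) j
    have h6 : κ + (n : ℂ) + 1 = κ + ((n + 1 : ℕ) : ℂ) := by
      push_cast
      ring
    rw [h6, h5]
    congr 1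
    push_cast
    ring
  unfold be
  rw [pow_succ b n]
  have h7 : (κ + n - (j + 1)) = (κ + n) * DD (κ + n) j / DD (κ + ((n + 1 : ℕ) : ℂ)) j := by
    rw [eq_div_iff h4, mul_comm]
    exact h3
  rw [h7]
  field_simp

theorem be_three (hκ : ∀ z : ℤ, κ ≠ z) (hb : b ≠ 0) (hc : c ≠ 0) (n j : ℕ) :
    c * be κ b c (n + 1) (j + 1) + b * be κ b c (n + 1) j = be κ b c n j := by
  have h1 : κ + n ≠ 0 := by
    intro h
    refine hκ (-n) ?_
    push_cast
    linear_combination h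
  have h2 := be_one hκ hb hc n j
  have h3 := be_two hκ hb hc n j
  refine mul_left_cancel₀ h1 ?_
  push_cast at h2
  linear_combination h2 + h3

/-- The functional on the fractions `p / (x ^ A q ^ N)`. -/
def LL (κ b c : ℂ) (A N : ℕ) : MvPolynomial (Fin 3) ℂ →ₗ[ℂ] ℂ :=
  (basisMonomials (Fin 3) ℂ).constr ℂ
    (fun v => if v 1 = v 2 ∧ v 0 + 2 * v 1 = A + 2 * N then be κ b c N (v 1) else 0)

theorem LL_monomial (A N : ℕ) (v : Fin 3 →₀ ℕ) (r : ℂ) :
    LL κ b c A N (monomial v r) =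
      r * (if v 1 = v 2 ∧ v 0 + 2 * v 1 = A + 2 * N then be κ b c N (v 1) else 0) := by
  have h1 : (monomial v r : MvPolynomial (Fin 3) ℂ) = r • basisMonomials (Fin 3) ℂ v := by
    rw [coe_basisMonomials, smul_monomial, smul_eq_mul, mul_one]
  rw [h1, map_smul, LL, Module.Basis.constr_basis, smul_eq_mul]

/-- The second factor. -/
def qq (b c : ℂ) : MvPolynomial (Fin 3) ℂ := C c * (X 1 * X 2) + C b * X 0 ^ 2

theorem ext_monomial {L₁ L₂ : MvPolynomial (Fin 3) ℂ →ₗ[ℂ] ℂ}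
    (h : ∀ v, L₁ (monomial v 1) = L₂ (monomial v 1)) (p : MvPolynomial (Fin 3) ℂ) :
    L₁ p = L₂ p := by
  have : L₁ = L₂ := by
    refine (basisMonomials (Fin 3) ℂ).ext fun v => ?_
    rw [coe_basisMonomials]
    exact h v
  rw [this]

theorem ext_mul {L₁ L₂ : MvPolynomial (Fin 3) ℂ →ₗ[ℂ] ℂ} (f : MvPolynomial (Fin 3) ℂ)
    (h : ∀ v, L₁ (f * monomial v 1) = L₂ (monomial v 1)) (p : MvPolynomial (Fin 3) ℂ) :
    L₁ (f * p) = L₂ p :=
  ext_monomial (L₁ := L₁.comp (LinearMap.mulLeft ℂ f)) h p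

theorem X_mul_monomial (i : Fin 3) (v : Fin 3 →₀ ℕ) (r : ℂ) :
    (X i : MvPolynomial (Fin 3) ℂ) * monomial v r = monomial (v + Finsupp.single i 1) r := by
  rw [X, monomial_mul, one_mul, add_comm]

theorem LL_X (A N : ℕ) (p : MvPolynomial (Fin 3) ℂ) :
    LL κ b c (A + 1) N (X 0 * p) = LL κ b c A N p := by
  refine ext_mul _ (fun v => ?_) p
  rw [X_mul_monomial, LL_monomial, LL_monomial]
  congr 1
  simp only [Finsupp.add_apply, Finsupp.single_apply, Fin.isValue, if_true, zero_ne_one,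
    if_false, add_zero, Fin.reduceEq]
  refine if_congr ?_ rfl rfl
  constructor
  · rintro ⟨h1, h2⟩
    exact ⟨h1, by omega⟩
  · rintro ⟨h1, h2⟩
    exact ⟨h1, by omega⟩

theorem qq_mul_monomial (v : Fin 3 →₀ ℕ) (r : ℂ) :
    qq b c * monomial v r =
      monomial (v + Finsupp.single 2 1 + Finsupp.single 1 1) (c * r) +
        monomial (v + Finsupp.single 0 1 + Finsupp.single 0 1) (b * r) := by
  unfold qq
  rw [add_mul, mul_assoc, mul_assoc, mul_assoc, X_mul_monomial, X_mul_monomial, C_mul_monomial,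
    pow_two, mul_assoc, X_mul_monomial, X_mul_monomial, C_mul_monomial]

theorem LL_qq (hκ : ∀ z : ℤ, κ ≠ z) (hb : b ≠ 0) (hc : c ≠ 0) (A N : ℕ)
    (p : MvPolynomial (Fin 3) ℂ) :
    LL κ b c A (N + 1) (qq b c * p) = LL κ b c A N p := by
  refine ext_mul _ (fun v => ?_) p
  rw [qq_mul_monomial, map_add, LL_monomial, LL_monomial, LL_monomial]
  simp only [Finsupp.add_apply, Finsupp.single_apply, Fin.isValue, if_true, zero_ne_one,
    if_false, add_zero, Fin.reduceEq, mul_one, one_mul]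
  by_cases h : v 1 = v 2 ∧ v 0 + 2 * v 1 = A + 2 * N
  · rw [if_pos ⟨by omega, by omega⟩, if_pos ⟨by omega, by omega⟩, if_pos h]
    exact be_three hκ hb hc N (v 1)
  · rw [if_neg (by omega), if_neg (by omega), if_neg h]
    ring

theorem LL_X_pow (A N k : ℕ) (p : MvPolynomial (Fin 3) ℂ) :
    LL κ b c (A + k) N (X 0 ^ k * p) = LL κ b c A N p := by
  induction k generalizing p with
  | zero => simp
  | succ k ih => rw [pow_succ, mul_assoc, ← add_assoc, mul_left_comm, LL_X, ih]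

theorem LL_qq_pow (hκ : ∀ z : ℤ, κ ≠ z) (hb : b ≠ 0) (hc : c ≠ 0) (A N k : ℕ)
    (p : MvPolynomial (Fin 3) ℂ) :
    LL κ b c A (N + k) (qq b c ^ k * p) = LL κ b c A N p := by
  induction k generalizing p with
  | zero => simp
  | succ k ih => rw [pow_succ, mul_assoc, ← add_assoc, mul_left_comm, LL_qq hκ hb hc, ih]

/-- The derivative with respect to `y` or `z`. -/
theorem LL_yz (hκ : ∀ z : ℤ, κ ≠ z) (hb : b ≠ 0) (hc : c ≠ 0) (A N : ℕ) {i i' : Fin 3}
    (hi : i = 1 ∧ i' = 2 ∨ i = 2 ∧ i' = 1) (p : MvPolynomial (Fin 3) ℂ) :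
    LL κ b c A (N + 1) (qq b c * pderiv i p - C (κ + N) * (p * (C c * X i'))) = 0 := by
  rw [map_sub, LL_qq hκ hb hc, sub_eq_zero]
  refine ext_monomial (L₁ := (LL κ b c A N).comp (pderiv i).toLinearMap)
    (L₂ := (LL κ b c A (N + 1)).comp (LinearMap.mulLeft ℂ (C ((κ + N) * c) * X i')))
    (fun v => ?_) p |>.trans ?_
  · rw [LinearMap.comp_apply, LinearMap.comp_apply, LinearMap.mulLeft_apply, mul_assoc,
      X_mul_monomial, C_mul_monomial, LL_monomial]
    change LL κ b c A N (pderiv i (monomial v 1)) = _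
    rw [pderiv_monomial, LL_monomial]
    have h0 := be_one hκ hb hc N
    rcases hi with ⟨rfl, rfl⟩ | ⟨rfl, rfl⟩
    · simp only [Finsupp.add_apply, Finsupp.single_apply, Fin.isValue, if_true,
        if_false, add_zero, Fin.reduceEq, mul_one, one_mul, Finsupp.coe_tsub, Pi.sub_apply,
        tsub_zero]
      by_cases h1 : v 1 = 0
      · rw [h1]
        rw [if_neg (c := 0 = v 2 + 1 ∧ _) (by omega)]
        simp
      · by_cases h : v 1 - 1 = v 2 ∧ v 0 + 2 * (v 1 - 1) = A + 2 * N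
        · rw [if_pos h, if_pos ⟨by omega, by omega⟩]
          have h2 := h0 (v 1 - 1)
          rw [show v 1 - 1 + 1 = v 1 by omega] at h2
          rw [← h2]
          ring
        · rw [if_neg h, if_neg (by omega)]
          ring
    · simp only [Finsupp.add_apply, Finsupp.single_apply, Fin.isValue, if_true,
        if_false, add_zero, Fin.reduceEq, mul_one, one_mul, Finsupp.coe_tsub, Pi.sub_apply,
        tsub_zero]
      by_cases h1 : v 2 = 0
      · rw [h1]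
        rw [if_neg (c := v 1 + 1 = 0 ∧ _) (by omega)]
        simp
      · by_cases h : v 1 = v 2 - 1 ∧ v 0 + 2 * v 1 = A + 2 * N
        · rw [if_pos h, if_pos ⟨by omega, by omega⟩]
          have h2 := h0 (v 1)
          rw [show v 1 + 1 = v 2 by omega] at h2 ⊢
          rw [← h2]
          ring
        · rw [if_neg h, if_neg (by omega)]
          ring
  · rw [LinearMap.comp_apply, LinearMap.mulLeft_apply]
    congr 1
    rw [C_mul]
    ring

theorem LL_C (A N : ℕ) (r : ℂ) (p : MvPolynomial (Fin 3) ℂ) :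
    LL κ b c A N (C r * p) = r * LL κ b c A N p := by
  rw [C_mul', map_smul, smul_eq_mul]

theorem LL_x_mon (hκ : ∀ z : ℤ, κ ≠ z) (hb : b ≠ 0) (hc : c ≠ 0) (A N : ℕ) {r : ℂ}
    (hr : r + 2 * (κ + N) = A + 2 * N + 3) (v : Fin 3 →₀ ℕ) (s : ℂ) :
    LL κ b c A N (pderiv 0 (monomial v s)) - r * LL κ b c (A + 1) N (monomial v s) -
      2 * (κ + N) * b * LL κ b c A (N + 1) (X 0 * monomial v s) = 0 := by
  have h0 := be_two hκ hb hc N (v 1)
  rw [pderiv_monomial, X_mul_monomial, LL_monomial, LL_monomial, LL_monomial]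
  have e0 : (v - Finsupp.single 0 1 : Fin 3 →₀ ℕ) 0 = v 0 - 1 := by simp
  have e1 : (v - Finsupp.single 0 1 : Fin 3 →₀ ℕ) 1 = v 1 := by simp
  have e2 : (v - Finsupp.single 0 1 : Fin 3 →₀ ℕ) 2 = v 2 := by simp
  have f0 : (v + Finsupp.single 0 1 : Fin 3 →₀ ℕ) 0 = v 0 + 1 := by simp
  have f1 : (v + Finsupp.single 0 1 : Fin 3 →₀ ℕ) 1 = v 1 := by simp
  have f2 : (v + Finsupp.single 0 1 : Fin 3 →₀ ℕ) 2 = v 2 := by simp
  rw [e0, e1, e2, f0, f1, f2]
  by_cases h : v 1 = v 2 ∧ v 0 + 2 * v 1 = A + 2 * N + 1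
  · rw [if_pos (c := v 1 = v 2 ∧ v 0 + 2 * v 1 = A + 1 + 2 * N) ⟨h.1, by omega⟩,
      if_pos (c := v 1 = v 2 ∧ v 0 + 1 + 2 * v 1 = A + 2 * (N + 1)) ⟨h.1, by omega⟩]
    have h1 : (v 0 : ℂ) * (if v 1 = v 2 ∧ v 0 - 1 + 2 * v 1 = A + 2 * N then
        be κ b c N (v 1) else 0) = (v 0 : ℂ) * be κ b c N (v 1) := by
      by_cases h2 : v 0 = 0
      · rw [h2, Nat.cast_zero, zero_mul, zero_mul]
      · rw [if_pos ⟨h.1, by omega⟩]
    have h3 : (v 0 : ℂ) = A + 2 * N + 1 - 2 * (v 1 : ℂ) := by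
      have h4 : ((v 0 + 2 * v 1 : ℕ) : ℂ) = ((A + 2 * N + 1 : ℕ) : ℂ) := by rw [h.2]
      push_cast at h4
      linear_combination h4
    rw [mul_assoc, h1, h3]
    linear_combination (-2 * s) * h0 - s * be κ b c N (v 1) * hr
  · rw [if_neg (c := v 1 = v 2 ∧ v 0 + 2 * v 1 = A + 1 + 2 * N) (by omega),
      if_neg (c := v 1 = v 2 ∧ v 0 + 1 + 2 * v 1 = A + 2 * (N + 1)) (by omega)]
    by_cases h2 : v 0 = 0
    · rw [h2, Nat.cast_zero]
      ring
    · rw [if_neg (c := v 1 = v 2 ∧ v 0 - 1 + 2 * v 1 = A + 2 * N) (by omega)]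
      ring

/-- The derivative with respect to `x`. -/
theorem LL_x (hκ : ∀ z : ℤ, κ ≠ z) (hb : b ≠ 0) (hc : c ≠ 0) (A N : ℕ) {r : ℂ}
    (hr : r + 2 * (κ + N) = A + 2 * N + 3) (p : MvPolynomial (Fin 3) ℂ) :
    LL κ b c A N (pderiv 0 p) - r * LL κ b c (A + 1) N p -
      2 * (κ + N) * b * LL κ b c A (N + 1) (X 0 * p) = 0 := by
  refine MvPolynomial.induction_on' p (fun v s => LL_x_mon hκ hb hc A N hr v s)
    (fun p q hp hq => ?_)
  rw [map_add, map_add, map_add, mul_add (X 0), map_add]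
  linear_combination hp + hq

/-- `3 M / (a + 2 M)` is not an integer. -/
theorem not_int {a M : ℕ} (hM : 1 ≤ M) (hne : a ≠ M) (z : ℤ) :
    (M : ℂ) * (3 / (a + 2 * M)) ≠ z := by
  intro h
  have h1 : ((a : ℂ) + 2 * M) ≠ 0 := by
    have : ((a + 2 * M : ℕ) : ℂ) ≠ 0 := by
      exact_mod_cast (by omega : a + 2 * M ≠ 0)
    push_cast at this
    exact this
  rw [mul_div_assoc', div_eq_iff h1] at h
  have h2 : (M : ℤ) * 3 = z * (a + 2 * M) := by exact_mod_cast h
  have h3 : (0 : ℤ) < a + 2 * M := by omega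
  rcases lt_trichotomy z 1 with hz | hz | hz
  · have : z * (a + 2 * M : ℤ) ≤ 0 := mul_nonpos_of_nonpos_of_nonneg (by omega) h3.le
    omega
  · rw [hz] at h2
    omega
  · have : 2 * (a + 2 * M : ℤ) ≤ z * (a + 2 * M : ℤ) :=
      mul_le_mul_of_nonneg_right (by omega) h3.le
    omega

end NE

open MPb07157.MN.NE

theorem nonEx_cone_aux (a M : ℕ) (hM : 1 ≤ M) (hne : a ≠ M) {e b c : ℂ} (he : e ≠ 0) (hb : b ≠ 0)
    (hc : c ≠ 0) :
    NonEx (C e * X 0 ^ a * (C c * (X 1 * X 2) + C b * X 0 ^ 2) ^ M : MvPolynomial (Fin 3) ℂ)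
      (3 / (a + 2 * M)) := by
  intro m p h
  set α : ℂ := 3 / (a + 2 * M) with hα
  set κ : ℂ := (M : ℂ) * α with hκd
  have hκ : ∀ z : ℤ, κ ≠ z := not_int hM hne
  have hden : ((a : ℂ) + 2 * M) ≠ 0 := by
    have : ((a + 2 * M : ℕ) : ℂ) ≠ 0 := by
      exact_mod_cast (by omega : a + 2 * M ≠ 0)
    push_cast at this
    exact this
  have hα3 : α * (a + 2 * M) = 3 := div_mul_cancel₀ _ hden
  obtain ⟨M', rfl⟩ : ∃ M', M = M' + 1 := ⟨M - 1, by omega⟩
  have hq : (C c * (X 1 * X 2) + C b * X 0 ^ 2 : MvPolynomial (Fin 3) ℂ) = qq b c := rfl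
  rw [hq] at h
  have h1 := congrArg (LL κ b c (a * (m + 1)) ((M' + 1) * (m + 1))) h
  -- the right hand side
  have h2 : LL κ b c (a * (m + 1)) ((M' + 1) * (m + 1))
      ((C e * X 0 ^ a * qq b c ^ (M' + 1)) ^ (m + 1)) = e ^ (m + 1) * be κ b c 0 0 := by
    have e1 : (C e * X 0 ^ a * qq b c ^ (M' + 1)) ^ (m + 1) =
        C (e ^ (m + 1)) * (X 0 ^ (a * (m + 1)) * (qq b c ^ ((M' + 1) * (m + 1)) * 1)) := by
      rw [C_pow, mul_pow, mul_pow, ← pow_mul, ← pow_mul]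
      ring
    have e2 : LL κ b c (0 + a * (m + 1)) (0 + (M' + 1) * (m + 1))
        (X 0 ^ (a * (m + 1)) * (qq b c ^ ((M' + 1) * (m + 1)) * 1)) = be κ b c 0 0 := by
      rw [LL_X_pow, LL_qq_pow hκ hb hc, ← C_1, C_apply, LL_monomial]
      simp
    rw [e1, LL_C]
    rw [zero_add, zero_add] at e2
    rw [e2]
  have h3 : be κ b c 0 0 ≠ 0 := by
    unfold be
    have : DD (κ + ((0 : ℕ) : ℂ)) 0 ≠ 0 := by
      refine DD_ne (fun z hz => hκ z ?_) 0
      push_cast at hz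
      linear_combination hz
    have h4 : (b / c) ≠ 0 := div_ne_zero hb hc
    rw [Nat.factorial_zero, pow_zero, div_one]
    exact mul_ne_zero (div_ne_zero (by norm_num) this) (pow_ne_zero _ h4)
  -- the left hand side
  have hκm : κ + (((M' + 1) * m : ℕ) : ℂ) = (α + m) * ((M' + 1 : ℕ) : ℂ) := by
    rw [hκd]
    push_cast
    ring
  have hyz : ∀ {i i' : Fin 3}, (i = 1 ∧ i' = 2 ∨ i = 2 ∧ i' = 1) →
      ∀ r : MvPolynomial (Fin 3) ℂ, LL κ b c (a * (m + 1)) ((M' + 1) * (m + 1))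
        (C e * X 0 ^ a * qq b c ^ (M' + 1) * pderiv i r -
          C (α + m) * (r * pderiv i (C e * X 0 ^ a * qq b c ^ (M' + 1)))) = 0 := by
    intro i i' hi r
    have d1 : pderiv i (X 0 : MvPolynomial (Fin 3) ℂ) = 0 := by
      rcases hi with ⟨rfl, rfl⟩ | ⟨rfl, rfl⟩ <;> exact pderiv_X_of_ne (by decide)
    have d2 : pderiv i (qq b c) = C c * X i' := by
      unfold qq
      rw [map_add, pderiv_C_mul, pderiv_C_mul, pderiv_pow, d1, mul_zero, mul_zero, add_zero,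
        pderiv_mul]
      rcases hi with ⟨rfl, rfl⟩ | ⟨rfl, rfl⟩
      · rw [pderiv_X_self, pderiv_X_of_ne (by decide), mul_zero, add_zero, one_mul]
      · rw [pderiv_X_self, pderiv_X_of_ne (by decide), zero_mul, zero_add, mul_one]
    have d3 : C e * X 0 ^ a * qq b c ^ (M' + 1) * pderiv i r -
          C (α + m) * (r * pderiv i (C e * X 0 ^ a * qq b c ^ (M' + 1))) =
        C e * (X 0 ^ a * (qq b c ^ M' * (qq b c * pderiv i r -
          C (κ + (((M' + 1) * m : ℕ) : ℂ)) * (r * (C c * X i'))))) := by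
      rw [hκm, pderiv_mul, pderiv_mul, pderiv_C, pderiv_pow, d1, pderiv_pow, d2, C_mul,
        Nat.add_sub_cancel, map_natCast C (M' + 1)]
      ring
    rw [d3, LL_C, show a * (m + 1) = a * m + a by ring,
      show (M' + 1) * (m + 1) = (M' + 1) * m + 1 + M' by ring, LL_X_pow, LL_qq_pow hκ hb hc,
      LL_yz hκ hb hc _ _ hi, mul_zero]
  have hx : ∀ r : MvPolynomial (Fin 3) ℂ, LL κ b c (a * (m + 1)) ((M' + 1) * (m + 1))
        (C e * X 0 ^ a * qq b c ^ (M' + 1) * pderiv 0 r -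
          C (α + m) * (r * pderiv 0 (C e * X 0 ^ a * qq b c ^ (M' + 1)))) = 0 := by
    intro r
    have d2 : pderiv 0 (qq b c) = C (2 * b) * X 0 := by
      unfold qq
      rw [map_add, pderiv_C_mul, pderiv_C_mul, pderiv_mul, pderiv_pow, pderiv_X_self,
        pderiv_X_of_ne (by decide), pderiv_X_of_ne (by decide), C_mul]
      simp only [zero_mul, mul_zero, add_zero, zero_add, mul_one, Nat.cast_ofNat,
        Nat.add_one_sub_one, pow_one, map_ofNat]
      ring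
    have key := LL_x hκ hb hc (a * m) ((M' + 1) * m) (r := (α + m) * a) (by
      rw [hκm]
      push_cast at hα3 ⊢
      linear_combination hα3) r
    rcases Nat.eq_zero_or_pos a with ha | ha
    · subst ha
      have d3 : C e * X 0 ^ 0 * qq b c ^ (M' + 1) * pderiv 0 r -
            C (α + m) * (r * pderiv 0 (C e * X 0 ^ 0 * qq b c ^ (M' + 1))) =
          C e * (qq b c ^ (M' + 1) * pderiv 0 r) -
            C (e * (2 * (κ + (((M' + 1) * m : ℕ) : ℂ)) * b)) * (qq b c ^ M' * (X 0 * r)) := by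
        rw [hκm, pow_zero, mul_one, pderiv_C_mul, pderiv_pow, d2, Nat.add_sub_cancel]
        simp only [C_mul, map_natCast, C_add]
        ring
      rw [d3, map_sub, LL_C, LL_C, zero_mul]
      rw [show (M' + 1) * (m + 1) = (M' + 1) * m + (M' + 1) by ring, LL_qq_pow hκ hb hc]
      rw [show (M' + 1) * m + (M' + 1) = (M' + 1) * m + 1 + M' by ring, LL_qq_pow hκ hb hc]
      rw [zero_mul] at key
      push_cast at key ⊢
      linear_combination e * key
    · obtain ⟨a', rfl⟩ : ∃ a', a = a' + 1 := ⟨a - 1, by omega⟩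
      have d3 : C e * X 0 ^ (a' + 1) * qq b c ^ (M' + 1) * pderiv 0 r -
            C (α + m) * (r * pderiv 0 (C e * X 0 ^ (a' + 1) * qq b c ^ (M' + 1))) =
          C e * (X 0 ^ (a' + 1) * (qq b c ^ (M' + 1) * pderiv 0 r)) -
            C (e * ((α + m) * ((a' + 1 : ℕ) : ℂ))) * (X 0 ^ a' * (qq b c ^ (M' + 1) * r)) -
            C (e * (2 * (κ + (((M' + 1) * m : ℕ) : ℂ)) * b)) *
              (X 0 ^ (a' + 1) * (qq b c ^ M' * (X 0 * r))) := by
        rw [hκm, pderiv_mul, pderiv_mul, pderiv_C, pderiv_pow, pderiv_X_self, pderiv_pow, d2,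
          Nat.add_sub_cancel, Nat.add_sub_cancel]
        simp only [C_mul, map_natCast, C_add]
        ring
      rw [d3, map_sub, map_sub, LL_C, LL_C, LL_C]
      rw [show (a' + 1) * (m + 1) = (a' + 1) * m + (a' + 1) by ring,
        show (M' + 1) * (m + 1) = (M' + 1) * m + (M' + 1) by ring, LL_X_pow,
        LL_qq_pow hκ hb hc, LL_X_pow,
        show (a' + 1) * m + (a' + 1) = (a' + 1) * m + 1 + a' by ring, LL_X_pow,
        LL_qq_pow hκ hb hc,
        show (M' + 1) * m + (M' + 1) = (M' + 1) * m + 1 + M' by ring, LL_qq_pow hκ hb hc]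
      linear_combination e * key
  rw [Fin.sum_univ_three, map_add, map_add, hx, hyz (Or.inl ⟨rfl, rfl⟩),
    hyz (Or.inr ⟨rfl, rfl⟩), add_zero, add_zero, h2] at h1
  exact mul_ne_zero (pow_ne_zero _ he) h3 h1.symm

/-- The form `e x^a (c z y + b x^2)^M` to the power `-3/(a + 2M)` is not a sum of derivatives. -/
theorem nonEx_cone (a M : ℕ) (hM : 1 ≤ M) (hne : a ≠ M) {e b c : ℂ} (he : e ≠ 0) (hb : b ≠ 0)
    (hc : c ≠ 0) :
    NonEx (C e * X 0 ^ a * (C c * (X 1 * X 2) + C b * X 0 ^ 2) ^ M : MvPolynomial (Fin 3) ℂ)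
      (3 / ((a + 2 * M : ℕ) : ℂ)) := by
  have h := nonEx_cone_aux a M hM hne he hb hc
  have e1 : ((a : ℂ) + 2 * M) = ((a + 2 * M : ℕ) : ℂ) := by
    push_cast
    ring
  rwa [e1] at h

end MPb07157.MN
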