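import Pool.Agent.Lib.MP_b07157_agN1.Roots
import Pool.Agent.Lib.MP_b07157_agN1.HT
import Pool.Agent.Lib.MP_b07157_agN1.NE
import Pool.Agent.Lib.MP_b07157_agY.Ym8

/-!
# The root `-3/d` at a simple zero of `A`
-/

noncomputable section

namespace MPb07157

open MvPolynomial

namespace MN

/-- The coordinates `z ↦ X 1`, `x ↦ X 0`, `y ↦ X 2 + c X 0`. -/
def chg (c : ℂ) : MvPolynomial (Fin 3) ℂ ≃ₐ[ℂ] MvPolynomial (Fin 3) ℂ :=
  AlgEquiv.ofAlgHom (aeval ![X 1, X 0, X 2 + C c * X 0]) (aeval ![X 1, X 0, X 2 - C c * X 1])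
    (by
      apply MvPolynomial.algHom_ext
      intro i
      fin_cases i <;> simp)
    (by
      apply MvPolynomial.algHom_ext
      intro i
      fin_cases i <;> simp)

/-- `x`, `y + c x`. -/
def vv (c : ℂ) : Fin 2 → MvPolynomial (Fin 3) ℂ := ![X 0, X 2 + C c * X 0]

theorem chg_rename (c : ℂ) (F : MvPolynomial (Fin 2) ℂ) :
    chg c (rename Fin.succ F) = aeval (vv c) F := by
  change aeval ![X 1, X 0, X 2 + C c * X 0] (rename Fin.succ F) = _
  rw [aeval_rename]
  have h : ![X 1, X 0, X 2 + C c * X 0] ∘ Fin.succ = vv c := by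
    funext i
    fin_cases i <;> rfl
  rw [h]

theorem chg_mon (c : ℂ) (P A B : MvPolynomial (Fin 2) ℂ) (m : ℕ) :
    chg c (mon P A B m) = aeval (vv c) P * (X 1 * aeval (vv c) A + aeval (vv c) B) ^ m := by
  unfold mon
  rw [map_mul, map_pow, map_add, map_mul, chg_rename, chg_rename, chg_rename]
  have h1 : chg c (X 0) = X 1 := by
    change aeval ![X 1, X 0, X 2 + C c * X 0] (X 0) = _
    rw [aeval_X]
    rfl
  rw [h1]

/-- The weights of `x`, `z`, `y`. -/
def ww : Fin 3 → ℕ := ![2, 1, 3]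

theorem ht_lin (c c' : ℂ) :
    HT ww 2 (aeval (vv c) (X 1 - C c' * X 0 : MvPolynomial (Fin 2) ℂ)) (C (c - c') * X 0) := by
  have h1 : aeval (vv c) (X 1 - C c' * X 0 : MvPolynomial (Fin 2) ℂ) =
      C (c - c') * X 0 + X 2 := by
    rw [map_sub, map_mul, aeval_X, aeval_X, aeval_C]
    unfold vv
    simp only [Matrix.cons_val, algebraMap_eq, C_sub]
    ring
  rw [h1]
  have h2 := (HT.const (w := ww) (c - c')).mul (HT.var (w := ww) 0)
  exact h2.add_hi (HT.var (w := ww) 2).hi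

theorem ht_self (c : ℂ) :
    HT ww 3 (aeval (vv c) (X 1 - C c * X 0 : MvPolynomial (Fin 2) ℂ)) (X 2) := by
  have h1 : aeval (vv c) (X 1 - C c * X 0 : MvPolynomial (Fin 2) ℂ) = X 2 := by
    rw [map_sub, map_mul, aeval_X, aeval_X, aeval_C]
    unfold vv
    simp only [Matrix.cons_val, algebraMap_eq]
    ring
  rw [h1]
  exact HT.var (w := ww) 2

theorem ht_bin0 (c lam : ℂ) (R : Finset ℂ) (r : ℂ → ℕ) :
    HT ww (2 * ∑ c' ∈ R, r c') (aeval (vv c) (bin lam R r))
      (C (lam * ∏ c' ∈ R, (c - c') ^ r c') * X 0 ^ ∑ c' ∈ R, r c') := by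
  have h1 := (HT.const (w := ww) lam).mul (HT.prod (s := R) fun c' _ => (ht_lin c c').pow (r c'))
  have h2 : aeval (vv c) (bin lam R r) =
      C lam * ∏ c' ∈ R, aeval (vv c) (X 1 - C c' * X 0 : MvPolynomial (Fin 2) ℂ) ^ r c' := by
    unfold bin
    rw [map_mul, map_prod, aeval_C]
    simp only [map_pow]
    rfl
  rw [h2]
  have h3 : C (lam * ∏ c' ∈ R, (c - c') ^ r c') * X 0 ^ ∑ c' ∈ R, r c' =
      (C lam * ∏ c' ∈ R, (C (c - c') * X 0) ^ r c' : MvPolynomial (Fin 3) ℂ) := by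
    simp only [mul_pow, Finset.prod_mul_distrib, Finset.prod_pow_eq_pow_sum, map_mul, map_prod,
      map_pow]
    ring
  rw [h3, Finset.mul_sum]
  rw [zero_add] at h1
  simpa only [mul_comm 2] using h1

theorem ht_B {B : MvPolynomial (Fin 2) ℂ} {E : ℕ} (hB : B.IsHomogeneous E) (c : ℂ) :
    HT ww (2 * E) (aeval (vv c) B) (C (eval ![1, c] B) * X 0 ^ E) := by
  classical
  have h1 : ∀ v ∈ B.support, HT ww (2 * E) (aeval (vv c) (monomial v (coeff v B)))
      (C (coeff v B * c ^ v 1) * X 0 ^ E) := by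
    intro v hv
    have hE : v 0 + v 1 = E := by
      have := hB (mem_support_iff.1 hv)
      rw [Finsupp.weight_apply, Finsupp.sum_fintype v (fun i c => c • (1 : Fin 2 → ℕ) i) (by simp),
        Fin.sum_univ_two] at this
      simpa using this
    have h2 : aeval (vv c) (monomial v (coeff v B)) =
        C (coeff v B) * ((X 0) ^ v 0 * (X 2 + C c * X 0) ^ v 1) := by
      rw [aeval_monomial, Finsupp.prod_fintype _ _ (by simp), Fin.prod_univ_two]
      rfl
    have h3 : HT ww 2 (X 2 + C c * X 0 : MvPolynomial (Fin 3) ℂ) (C c * X 0) := by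
      have h4 := ht_lin c 0
      rw [sub_zero] at h4
      have h5 : aeval (vv c) (X 1 - C 0 * X 0 : MvPolynomial (Fin 2) ℂ) =
          (X 2 + C c * X 0 : MvPolynomial (Fin 3) ℂ) := by
        rw [C_0, zero_mul, sub_zero, aeval_X]
        rfl
      rwa [h5] at h4
    rw [h2]
    have h6 := (HT.const (w := ww) (coeff v B)).mul
      (((HT.var (w := ww) 0).pow (v 0)).mul (h3.pow (v 1)))
    have h7 : 0 + (v 0 * ww 0 + v 1 * 2) = 2 * E := by
      have : ww 0 = 2 := rfl
      rw [this]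
      omega
    rw [h7] at h6
    have h8 : (C (coeff v B * c ^ v 1) * X 0 ^ E : MvPolynomial (Fin 3) ℂ) =
        C (coeff v B) * (X 0 ^ v 0 * (C c * X 0) ^ v 1) := by
      rw [mul_pow, C_mul, C_pow, ← hE, pow_add]
      ring
    rw [h8]
    exact h6
  have h2 := HT.sum h1
  rw [← map_sum, support_sum_monomial_coeff] at h2
  have h3 : (∑ v ∈ B.support, C (coeff v B * c ^ v 1) * X 0 ^ E : MvPolynomial (Fin 3) ℂ) =
      C (eval ![1, c] B) * X 0 ^ E := by
    rw [← Finset.sum_mul, ← map_sum]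
    congr 2
    rw [eval_eq']
    exact Finset.sum_congr rfl fun v _ => by simp
  rwa [h3] at h2

/-- **The root `-3/d`** if `A` has a simple zero which is not a zero of `P`. -/
theorem root_simple {R : Finset ℂ} {p r : ℂ → ℕ} {lP lA : ℂ} {B : MvPolynomial (Fin 2) ℂ} {m : ℕ}
    (h : Dt R p r lP lA B m) {c : ℂ} (hc : c ∈ R) (hr : r c = 1) (hp : p c = 0)
    {b : Polynomial ℂ} (hb : IsBernsteinSato (mon (bin lP R p) (bin lA R r) B m) b) :
    b.eval (-(3 / ((mu R p r m + m : ℕ) : ℂ))) = 0 := by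
  classical
  have hm := h.hm
  -- the initial forms
  have hP := ht_bin0 c lP R p
  have hB := ht_B h.hB c
  have hre : ∑ c' ∈ R, r c' = (∑ c' ∈ R.erase c, r c') + 1 := by
    rw [← Finset.add_sum_erase _ _ hc, hr, add_comm]
  set e := ∑ c' ∈ R.erase c, r c' with he
  set κ := lP * ∏ c' ∈ R, (c - c') ^ p c' with hκ
  set α := lA * ∏ c' ∈ R.erase c, (c - c') ^ r c' with hα
  set β := eval ![1, c] B with hβ
  set q := ∑ c' ∈ R, p c' with hq
  have hκ0 : κ ≠ 0 := by
    refine mul_ne_zero h.hP (Finset.prod_ne_zero_iff.2 fun c' _ => ?_)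
    by_cases hcc : c' = c
    · rw [hcc, hp, pow_zero]
      exact one_ne_zero
    · exact pow_ne_zero _ (sub_ne_zero.2 (Ne.symm hcc))
  have hα0 : α ≠ 0 := by
    refine mul_ne_zero h.hA (Finset.prod_ne_zero_iff.2 fun c' hc' => ?_)
    exact pow_ne_zero _ (sub_ne_zero.2 (Ne.symm (Finset.mem_erase.1 hc').1))
  have hβ0 : β ≠ 0 := h.hcop c hc (by omega)
  have hA : HT ww (3 + 2 * e) (aeval (vv c) (bin lA R r)) (X 2 * (C α * X 0 ^ e)) := by
    have h1 : bin lA R r = (X 1 - C c * X 0) * bin lA (R.erase c) r := by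
      unfold bin
      rw [← Finset.mul_prod_erase _ _ hc, hr, pow_one]
      ring
    rw [h1, map_mul]
    exact (ht_self c).mul (ht_bin0 c lA (R.erase c) r)
  have hg : HT ww (2 * e + 4) (X 1 * aeval (vv c) (bin lA R r) + aeval (vv c) B)
      (X 0 ^ e * (C α * (X 1 * X 2) + C β * X 0 ^ 2)) := by
    have h1 := (HT.var (w := ww) 1).mul hA
    have h2 : ww 1 + (3 + 2 * e) = 2 * e + 4 := by
      have : ww 1 = 1 := rfl
      rw [this]
      omega
    rw [h2] at h1
    have h3 : 2 * (∑ c' ∈ R, r c' + 1) = 2 * e + 4 := by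
      rw [hre]
      ring
    rw [h3] at hB
    have h4 := h1.add hB
    have h5 : (X 1 * (X 2 * (C α * X 0 ^ e)) + C β * X 0 ^ (∑ c' ∈ R, r c' + 1) :
        MvPolynomial (Fin 3) ℂ) = X 0 ^ e * (C α * (X 1 * X 2) + C β * X 0 ^ 2) := by
      rw [hre]
      ring
    rwa [h5] at h4
  have hf := hP.mul (hg.pow m)
  rw [← chg_mon] at hf
  set f := mon (bin lP R p) (bin lA R r) B m with hfdef
  have hd : mu R p r m + m = (q + m * e) + 2 * m := by
    unfold mu
    rw [hre]
    ring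
  -- the case `d = 3 m`
  by_cases hne : q + m * e = m
  · have h1 := root_m (bin_ne_zero h.hP R p) (bin_ne_zero h.hA R r) h.relPrime hm b hb
    rw [hd, hne]
    rw [← h1]
    congr 1
    push_cast
    have : (m : ℂ) ≠ 0 := by exact_mod_cast hm.ne'
    field_simp
    ring
  -- the general case
  have hNE := nonEx_cone (q + m * e) m hm hne hκ0 hβ0 hα0
  have hg0 : (C κ * X 0 ^ (q + m * e) * (C α * (X 1 * X 2) + C β * X 0 ^ 2) ^ m :
      MvPolynomial (Fin 3) ℂ) =
      C κ * X 0 ^ q * (X 0 ^ e * (C α * (X 1 * X 2) + C β * X 0 ^ 2)) ^ m := by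
    rw [mul_pow, ← pow_mul, pow_add, mul_comm e m]
    ring
  rw [hg0] at hNE
  have hN : 2 * q + m * (2 * e + 4) = 2 * (q + m * e + 2 * m) := by ring
  rw [hN] at hf
  set g₀ : MvPolynomial (Fin 3) ℂ :=
    C κ * X 0 ^ q * (X 0 ^ e * (C α * (X 1 * X 2) + C β * X 0 ^ 2)) ^ m with hg₀
  have hg00 : g₀ ≠ 0 := by
    intro h0
    have h1 := hNE 0 (fun _ => 0)
    apply h1
    rw [h0]
    simp
  have hb' : IsBernsteinSato (chg c f) b := Alp.isBernsteinSato_equiv (chg c) hb
  have hb2 : InDnForm (g₀ + (chg c f - g₀)) 1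
      (b.map (MvPowerSeries.C (σ := Fin 3) (R := ℂ))) := by
    rw [add_sub_cancel]
    have := InDn.toForm hb'
    rwa [toForm_C] at this
  have h1 := root_of_initial (w := ww) (fun i => by fin_cases i <;> simp [ww])
    (N := 2 * (q + m * e + 2 * m)) (fun i => by
      fin_cases i
      · change 2 < _; omega
      · change 1 < _; omega
      · change 3 < _; omega) (by omega) hg00 hf.1 (fun v hv => hf.2 v hv)
    (α := 3 / ((q + m * e + 2 * m : ℕ) : ℂ)) (by
      have : ((q + m * e + 2 * m : ℕ) : ℂ) ≠ 0 := by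
        have : 0 < q + m * e + 2 * m := by omega
        exact_mod_cast this.ne'
      rw [Fin.sum_univ_three]
      change _ = ((2 : ℕ) : ℂ) + ((1 : ℕ) : ℂ) + ((3 : ℕ) : ℂ)
      rw [Nat.cast_mul]
      field_simp
      norm_num) hNE hb2
  rw [hd]
  exact h1

end MN

end MPb07157
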