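import Pool.Agent.Lib.MP_b07157_agN1.Defs

/-!
# The series are regular
-/

noncomputable section

namespace MPb07157

open MvPolynomial

namespace MN

open PC
open P1aux (Lp Lp_add)

variable {s₀ : ℚ}

namespace SerAux

theorem Lp_zero : Lp 0 = 1 := by
  unfold Lp
  simp

theorem Lp_mul (a n : ℕ) : Lp (a * n) = ((LU ^ (-(a : ℤ)) : Motˣ) : Mot) ^ n := by
  unfold Lp
  rw [← Units.val_pow_eq_pow_val, ← zpow_natCast, ← zpow_mul]
  congr 2
  push_cast
  ring

/-- The inverse of `1 - L^{-a} T^b`. -/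
def G0 (a b : ℕ) : PowerSeries Mot :=
  PowerSeries.mk fun k => if b ∣ k then Lp (a * (k / b)) else 0

theorem G0_eq (a : ℕ) {b : ℕ} (hb : 0 < b) : G0 a b = 1 + geo a b := by
  rw [geo_eq_geoK a hb]
  ext k
  rw [map_add, PowerSeries.coeff_one]
  unfold G0 geoK
  rw [PowerSeries.coeff_mk, PowerSeries.coeff_mk]
  rcases Nat.eq_zero_or_pos k with rfl | hk
  · simp [Lp_zero]
  · rw [if_neg hk.ne', zero_add]
    by_cases h : b ∣ k
    · rw [if_pos h, if_pos ⟨h, hk⟩, Lp_mul]
    · rw [if_neg h, if_neg fun h2 => h h2.1]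

theorem G0_mem {a b : ℕ} (hb : 0 < b) (h : (a : ℚ) ≠ -s₀ * b) : G0 a b ∈ regularAt s₀ := by
  rw [G0_eq a hb]
  exact add_mem (one_mem _) (geo_mem hb h)

theorem coeff_G0 (a : ℕ) {b : ℕ} (hb : 0 < b) {n M : ℕ} (h : n < M) :
    PowerSeries.coeff n (G0 a b) = ∑ i ∈ Finset.range M, if b * i = n then Lp (a * i) else 0 := by
  rw [G0, PowerSeries.coeff_mk]
  split_ifs with h1
  · obtain ⟨q, rfl⟩ := h1
    rw [Nat.mul_div_cancel_left _ hb, Finset.sum_eq_single_of_mem q
      (Finset.mem_range.2 (lt_of_le_of_lt (Nat.le_mul_of_pos_left q hb) h)), if_pos rfl]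
    intro i _ hi
    rw [if_neg]
    intro h2
    exact hi (Nat.eq_of_mul_eq_mul_left hb h2)
  · symm
    refine Finset.sum_eq_zero fun i _ => ?_
    rw [if_neg]
    rintro rfl
    exact h1 (dvd_mul_right _ _)

theorem coeff_G0_mul (a : ℕ) {b : ℕ} (hb : 0 < b) (F : PowerSeries Mot) {k M : ℕ} (h : k < M) :
    PowerSeries.coeff k (G0 a b * F) = ∑ i ∈ Finset.range M,
      if b * i ≤ k then Lp (a * i) * PowerSeries.coeff (k - b * i) F else 0 := by
  rw [PowerSeries.coeff_mul]
  have e : ∀ p ∈ Finset.HasAntidiagonal.antidiagonal k, PowerSeries.coeff p.1 (G0 a b) *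
      PowerSeries.coeff p.2 F = ∑ i ∈ Finset.range M,
        (if b * i = p.1 then Lp (a * i) else 0) * PowerSeries.coeff p.2 F := by
    intro p hp
    have hp' := Finset.HasAntidiagonal.mem_antidiagonal.1 hp
    rw [coeff_G0 a hb (show p.1 < M by omega), Finset.sum_mul]
  rw [Finset.sum_congr rfl e, Finset.sum_comm]
  refine Finset.sum_congr rfl fun i _ => ?_
  split_ifs with h1
  · rw [Finset.sum_eq_single_of_mem (b * i, k - b * i)
      (Finset.HasAntidiagonal.mem_antidiagonal.2 (by omega))]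
    · rw [if_pos rfl]
    · rintro ⟨x, y⟩ hp hne
      rw [if_neg, zero_mul]
      intro h2
      have hp' := Finset.HasAntidiagonal.mem_antidiagonal.1 hp
      apply hne
      simp only at h2 hp'
      rw [h2]
      congr 1
      omega
  · refine Finset.sum_eq_zero fun p hp => ?_
    have hp' := Finset.HasAntidiagonal.mem_antidiagonal.1 hp
    rw [if_neg (by omega), zero_mul]

theorem coeff_geo_mul (a : ℕ) {b : ℕ} (hb : 0 < b) (F : PowerSeries Mot) {k M : ℕ} (h : k < M) :
    PowerSeries.coeff k (geo a b * F) = ∑ i ∈ Finset.Ico 1 M,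
      if b * i ≤ k then Lp (a * i) * PowerSeries.coeff (k - b * i) F else 0 := by
  have h1 : geo a b * F = G0 a b * F - F := by
    rw [G0_eq a hb]
    ring
  rw [h1, map_sub, coeff_G0_mul a hb F h, Finset.range_eq_Ico,
    Finset.sum_eq_sum_Ico_succ_bot (show 0 < M by omega)]
  simp [Lp_zero]

/-- Reindexing. -/
theorem sum_shift (f : ℕ → Mot) {s M : ℕ} (hf : ∀ i, M ≤ i → f i = 0) :
    ∑ i ∈ Finset.range M, (if s ≤ i then f i else 0) = ∑ i ∈ Finset.range M, f (s + i) := by
  have h1 : ∑ i ∈ Finset.range M, (if s ≤ i then f i else 0) =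
      ∑ i ∈ Finset.range (s + M), (if s ≤ i then f i else 0) := by
    refine Finset.sum_subset (Finset.range_subset_range.2 (by omega)) fun i _ hi => ?_
    rw [hf i (by simpa using hi), ite_self]
  rw [h1, Finset.sum_range_add, Finset.sum_eq_zero, zero_add]
  · refine Finset.sum_congr rfl fun i _ => ?_
    rw [if_pos (by omega)]
  · intro i hi
    rw [if_neg]
    have := Finset.mem_range.1 hi
    omega

theorem sum_blocks (f : ℕ → Mot) (r M : ℕ) :
    ∑ i ∈ Finset.range (r * M), f i =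
      ∑ q ∈ Finset.range M, ∑ s ∈ Finset.range r, f (r * q + s) := by
  induction M with
  | zero => simp
  | succ M ih => rw [Nat.mul_succ, Finset.sum_range_add, ih, Finset.sum_range_succ]

/-- The weights of `z`. -/
def W (m : ℕ) : PowerSeries Mot := PowerSeries.mk (wt1 m 0)

theorem W_mem {m : ℕ} (hm : 0 < m) (h1 : (1 : ℚ) ≠ -s₀ * m) : W m ∈ regularAt s₀ := by
  have h : W m = PowerSeries.C (1 - Lp 1) * G0 1 m := by
    ext k
    rw [PowerSeries.coeff_C_mul, W, G0, PowerSeries.coeff_mk, PowerSeries.coeff_mk, wt1]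
    simp
  rw [h]
  exact mul_mem (C_mem_regularAt s₀ _) (G0_mem hm (by push_cast; exact h1))

theorem wt1_eq (m a k : ℕ) : wt1 m a k =
    if a ≤ k then PowerSeries.coeff (k - a) (W m) else 0 := by
  rw [W, PowerSeries.coeff_mk, wt1, wt1]
  by_cases h : a ≤ k
  · simp [h]
  · simp [h]

theorem wt1_zero {m a k : ℕ} (h : k < a) : wt1 m a k = 0 := by
  rw [wt1, if_neg]
  omega

theorem wt1_shift (m a b k : ℕ) (h : b ≤ k) : wt1 m a (k - b) = wt1 m (b + a) k := by
  rw [wt1_eq, wt1_eq]
  by_cases h2 : b + a ≤ k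
  · rw [if_pos (by omega), if_pos h2, Nat.sub_sub]
  · rw [if_neg (by omega), if_neg h2]

end SerAux

open SerAux

theorem g1_mem {R : Finset ℂ} {p r : ℂ → ℕ} {m : ℕ} (hm : 0 < m) (hμ : 0 < mu R p r m)
    (h1 : (1 : ℚ) ≠ -s₀ * m) (h2 : (2 : ℚ) ≠ -s₀ * (mu R p r m : ℕ)) :
    PowerSeries.mk (g1 R p r m) ∈ regularAt s₀ := by
  have h : PowerSeries.mk (g1 R p r m) =
      PowerSeries.C (1 - Lp 2 - (R.card : Mot) * (Lp 1 - Lp 2)) *
        (G0 2 (mu R p r m) * W m) := by
    ext k
    rw [PowerSeries.coeff_C_mul, coeff_G0_mul 2 hμ _ (Nat.lt_succ_self k), PowerSeries.coeff_mk,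
      g1, Finset.mul_sum]
    refine Finset.sum_congr rfl fun i _ => ?_
    rw [wt1_eq, mul_comm i]
    split_ifs
    · ring
    · ring
  rw [h]
  exact mul_mem (C_mem_regularAt s₀ _) (mul_mem (G0_mem hμ (by push_cast; exact h2)) (W_mem hm h1))

theorem g2_mem {μ p r m : ℕ} (hm : 0 < m) (hμ : 0 < μ) (hpr : 0 < p + r)
    (h1 : (1 : ℚ) ≠ -s₀ * m) (h2 : (2 : ℚ) ≠ -s₀ * μ) (h3 : r = 0 → (1 : ℚ) ≠ -s₀ * p)
    (h4 : 0 < r → ((2 * r + 1 : ℕ) : ℚ) ≠ -s₀ * ((r * (μ + m) + p : ℕ) : ℚ)) :
    PowerSeries.mk (g2 μ p r m) ∈ regularAt s₀ := by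
  have hE : 0 < r * (μ + m) + p := by
    rcases Nat.eq_zero_or_pos r with rfl | hr
    · omega
    · have : 0 < r * (μ + m) := Nat.mul_pos hr (by omega)
      omega
  have hpm : 1 ≤ p + m * r := by
    rcases Nat.eq_zero_or_pos r with rfl | hr
    · omega
    · have : 0 < m * r := Nat.mul_pos hm hr
      omega
  have h : PowerSeries.mk (g2 μ p r m) = PowerSeries.C ((1 - Lp 1) ^ 2) *
      (geo (2 * r + 1) (r * (μ + m) + p) * (G0 2 μ * W m)) := by
    ext k
    rw [PowerSeries.coeff_C_mul, coeff_geo_mul _ hE _ (Nat.lt_succ_self k), PowerSeries.coeff_mk]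
    -- the right side
    have eR : ∀ j ∈ Finset.Ico 1 (k + 1), (if (r * (μ + m) + p) * j ≤ k then
        Lp ((2 * r + 1) * j) * PowerSeries.coeff (k - (r * (μ + m) + p) * j) (G0 2 μ * W m)
        else 0) = ∑ i ∈ Finset.range (k + 1), Lp ((2 * r + 1) * j + 2 * i) *
          wt1 m ((r * (μ + m) + p) * j + μ * i) k := by
      intro j _
      split_ifs with hj
      · rw [coeff_G0_mul 2 hμ _ (show k - (r * (μ + m) + p) * j < k + 1 by omega), Finset.mul_sum]
        refine Finset.sum_congr rfl fun i _ => ?_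
        rw [← wt1_shift m (μ * i) _ k hj, wt1_eq, Lp_add]
        split_ifs
        · ring
        · ring
      · symm
        refine Finset.sum_eq_zero fun i _ => ?_
        rw [wt1_zero (by omega), mul_zero]
    rw [Finset.sum_congr rfl eR, Finset.mul_sum]
    -- the left side
    have eL : ∀ i ∈ Finset.range (k + 1), (∑ j ∈ Finset.Ico 1 (k + 1 - i),
        if r * j ≤ i then (1 - Lp 1) ^ 2 * Lp (2 * i + j) * wt1 m (i * μ + (p + m * r) * j) k
          else 0) = ∑ j ∈ Finset.Ico 1 (k + 1), if r * j ≤ i then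
            (1 - Lp 1) ^ 2 * Lp (2 * i + j) * wt1 m (i * μ + (p + m * r) * j) k else 0 := by
      intro i _
      refine Finset.sum_subset (Finset.Ico_subset_Ico_right (by omega)) fun j hj hj' => ?_
      have h5 : i + j ≤ i * μ + (p + m * r) * j :=
        Nat.add_le_add (Nat.le_mul_of_pos_right i hμ) (Nat.le_mul_of_pos_left j hpm)
      have h6 : 1 ≤ j := (Finset.mem_Ico.1 hj).1
      have h7 : ¬ j < k + 1 - i := fun h => hj' (Finset.mem_Ico.2 ⟨h6, h⟩)
      rw [wt1_zero (by omega), mul_zero, ite_self]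
    rw [g2, Finset.sum_congr rfl eL, Finset.sum_comm]
    refine Finset.sum_congr rfl fun j hj => ?_
    rw [sum_shift (fun i => (1 - Lp 1) ^ 2 * Lp (2 * i + j) *
      wt1 m (i * μ + (p + m * r) * j) k), Finset.mul_sum]
    · refine Finset.sum_congr rfl fun i _ => ?_
      rw [mul_assoc]
      congr 2
      · congr 1
        ring
      · congr 1
        ring
    · intro i hi
      have h5 : i + j ≤ i * μ + (p + m * r) * j :=
        Nat.add_le_add (Nat.le_mul_of_pos_right i hμ) (Nat.le_mul_of_pos_left j hpm)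
      show _ * wt1 _ _ _ = 0
      rw [wt1_zero (by omega), mul_zero]
  rw [h]
  refine mul_mem (C_mem_regularAt s₀ _) (mul_mem (geo_mem hE ?_)
    (mul_mem (G0_mem hμ (by push_cast; exact h2)) (W_mem hm h1)))
  rcases Nat.eq_zero_or_pos r with rfl | hr
  · have := h3 rfl
    simpa using this
  · exact h4 hr

/-- The coefficients of a cone with two generators. -/
theorem coeff_cone (a b : ℕ) {A B : ℕ} (hA : 0 < A) (hB : 0 < B) (e k : ℕ) :
    PowerSeries.coeff k (PowerSeries.X ^ e * (G0 a A * G0 b B)) =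
      ∑ q ∈ Finset.range (k + 1), ∑ j ∈ Finset.range (k + 1),
        if e + A * q + B * j = k then Lp (a * q + b * j) else 0 := by
  rw [PowerSeries.coeff_X_pow_mul']
  split_ifs with h
  · rw [coeff_G0_mul a hA _ (show k - e < k + 1 by omega)]
    refine Finset.sum_congr rfl fun q _ => ?_
    split_ifs with h1
    · rw [coeff_G0 b hB (show k - e - A * q < k + 1 by omega), Finset.mul_sum]
      refine Finset.sum_congr rfl fun j _ => ?_
      by_cases h2 : e + A * q + B * j = k
      · rw [if_pos h2, if_pos (by omega), Lp_add]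
      · rw [if_neg h2, if_neg (by omega), mul_zero]
    · symm
      refine Finset.sum_eq_zero fun j _ => ?_
      rw [if_neg (by omega)]
  · symm
    refine Finset.sum_eq_zero fun q _ => Finset.sum_eq_zero fun j _ => ?_
    rw [if_neg (by omega)]

theorem coeff_ray (a : ℕ) {A : ℕ} (hA : 0 < A) (e k : ℕ) :
    PowerSeries.coeff k (PowerSeries.X ^ e * G0 a A) =
      ∑ q ∈ Finset.range (k + 1), if e + A * q = k then Lp (a * q) else 0 := by
  rw [PowerSeries.coeff_X_pow_mul']
  split_ifs with h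
  · rw [coeff_G0 a hA (show k - e < k + 1 by omega)]
    refine Finset.sum_congr rfl fun q _ => ?_
    by_cases h2 : e + A * q = k
    · rw [if_pos h2, if_pos (by omega)]
    · rw [if_neg h2, if_neg (by omega)]
  · symm
    refine Finset.sum_eq_zero fun q _ => ?_
    rw [if_neg (by omega)]

theorem lt_mul_iff {i r j : ℕ} (hr : 0 < r) : i < r * j ↔ i / r + 1 ≤ j := by
  rw [Nat.add_one_le_iff, Nat.div_lt_iff_lt_mul hr, mul_comm]

theorem sum_g3_pos {d p r : ℕ} (hd : 1 < d) (hp : 0 < p) (hr : 0 < r) (k : ℕ) :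
    g3 d p r k = ∑ q ∈ Finset.range (k + 1), ∑ s ∈ Finset.range r, ∑ j ∈ Finset.range (k + 1),
      if (r * q + s) * d + p * (q + 1 + j) = k then
        (1 - Lp 1) ^ 2 * Lp (2 * (r * q + s) + (q + 1 + j)) else 0 := by
  have hb : ∀ i j : ℕ, i + j ≤ i * d + p * j := fun i j =>
    Nat.add_le_add (Nat.le_mul_of_pos_right i (by omega)) (Nat.le_mul_of_pos_left j hp)
  have e1 : ∀ i ∈ Finset.range (k + 1), ((∑ j ∈ Finset.Ico 1 (k + 1 - i),
      if i < r * j ∧ i * d + p * j = k then (1 - Lp 1) ^ 2 * Lp (2 * i + j) else 0) +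
      if p = 0 ∧ 0 < r ∧ i * d = k then (1 - Lp 1) * Lp (i + (k + 1)) else 0) =
      ∑ j ∈ Finset.range (k + 1), if i * d + p * (i / r + 1 + j) = k then
        (1 - Lp 1) ^ 2 * Lp (2 * i + (i / r + 1 + j)) else 0 := by
    intro i _
    rw [if_neg (show ¬(p = 0 ∧ 0 < r ∧ i * d = k) by omega), add_zero]
    rw [← sum_shift (s := i / r + 1) (fun j => if i * d + p * j = k then
      (1 - Lp 1) ^ 2 * Lp (2 * i + j) else 0)]
    · have e2 : ∀ j : ℕ, (if i / r + 1 ≤ j then if i * d + p * j = k then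
          (1 - Lp 1) ^ 2 * Lp (2 * i + j) else 0 else 0) =
          if i < r * j ∧ i * d + p * j = k then (1 - Lp 1) ^ 2 * Lp (2 * i + j) else 0 := by
        intro j
        have h0 := lt_mul_iff (i := i) (j := j) hr
        by_cases h1 : i < r * j
        · rw [if_pos (h0.1 h1)]
          simp [h1]
        · rw [if_neg fun h => h1 (h0.2 h)]
          simp [h1]
      rw [Finset.sum_congr rfl fun j _ => e2 j, Finset.range_eq_Ico]
      refine Finset.sum_subset (Finset.Ico_subset_Ico (by omega) (by omega)) fun j _ hj' => ?_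
      rw [if_neg]
      rintro ⟨h1, h2⟩
      have h3 := hb i j
      apply hj'
      rw [Finset.mem_Ico]
      refine ⟨?_, by omega⟩
      rcases Nat.eq_zero_or_pos j with rfl | hj
      · simp at h1
      · exact hj
    · intro j hj
      show (if _ then _ else _) = (0 : Mot)
      rw [if_neg]
      have h3 := hb i j
      omega
  rw [g3, Finset.sum_congr rfl e1]
  have e4 : ∑ i ∈ Finset.range (k + 1), (∑ j ∈ Finset.range (k + 1),
      if i * d + p * (i / r + 1 + j) = k then
        (1 - Lp 1) ^ 2 * Lp (2 * i + (i / r + 1 + j)) else 0) =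
      ∑ i ∈ Finset.range (r * (k + 1)), ∑ j ∈ Finset.range (k + 1),
      if i * d + p * (i / r + 1 + j) = k then
        (1 - Lp 1) ^ 2 * Lp (2 * i + (i / r + 1 + j)) else 0 := by
    refine Finset.sum_subset (Finset.range_subset_range.2 (Nat.le_mul_of_pos_left _ hr))
      fun i _ hi => ?_
    have hi' : k + 1 ≤ i := by simpa using hi
    refine Finset.sum_eq_zero fun j _ => ?_
    rw [if_neg]
    have h3 := hb i (i / r + 1 + j)
    generalize i / r = t at h3 ⊢
    omega
  rw [e4, sum_blocks]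
  refine Finset.sum_congr rfl fun q _ => Finset.sum_congr rfl fun s hs => ?_
  have hs' := Finset.mem_range.1 hs
  have hq : (r * q + s) / r = q := by
    rw [Nat.mul_add_div hr, Nat.div_eq_of_lt hs', add_zero]
  rw [hq]

theorem sum_g3_zero {d r : ℕ} (hd : 1 < d) (hr : 0 < r) (k : ℕ) :
    g3 d 0 r k = ∑ q ∈ Finset.range (k + 1), ∑ s ∈ Finset.range r,
      if (r * q + s) * d = k then (1 - Lp 1) * Lp (2 * (r * q + s) + (q + 1)) else 0 := by
  have e0 : ∀ a b : ℕ, ∑ j ∈ Finset.Ico a (a + b), (1 - Lp 1) ^ 2 * Lp j =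
      (1 - Lp 1) * (Lp a - Lp (a + b)) := by
    intro a b
    induction b with
    | zero => simp
    | succ b ih =>
      rw [← add_assoc, Finset.sum_Ico_succ_top (by omega), ih, Lp_add (a + b) 1]
      ring
  have e1 : ∀ i ∈ Finset.range (k + 1), ((∑ j ∈ Finset.Ico 1 (k + 1 - i),
      if i < r * j ∧ i * d + 0 * j = k then (1 - Lp 1) ^ 2 * Lp (2 * i + j) else 0) +
      if 0 = 0 ∧ 0 < r ∧ i * d = k then (1 - Lp 1) * Lp (i + (k + 1)) else 0) =
      if i * d = k then (1 - Lp 1) * Lp (2 * i + (i / r + 1)) else 0 := by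
    intro i _
    by_cases h : i * d = k
    · rw [if_pos ⟨rfl, hr, h⟩, if_pos h]
      have h5 : i / r ≤ i := Nat.div_le_self i r
      have h6 : i * 2 ≤ i * d := Nat.mul_le_mul_left i hd
      have e2 : ∑ j ∈ Finset.Ico 1 (k + 1 - i), (if i < r * j ∧ i * d + 0 * j = k then
          (1 - Lp 1) ^ 2 * Lp (2 * i + j) else 0) =
          Lp (2 * i) * ∑ j ∈ Finset.Ico (i / r + 1) (i / r + 1 + (k - i - i / r)),
            (1 - Lp 1) ^ 2 * Lp j := by
        rw [Finset.mul_sum]
        symm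
        refine Finset.sum_subset_zero_on_sdiff (Finset.Ico_subset_Ico (Nat.le_add_left 1 _)
          (by generalize i / r = t at h5 ⊢; omega)) ?_ ?_
        · intro j hj
          rw [Finset.mem_sdiff, Finset.mem_Ico, Finset.mem_Ico] at hj
          rw [if_neg]
          rintro ⟨h7, _⟩
          rw [lt_mul_iff hr] at h7
          generalize i / r = t at h5 h7 hj
          omega
        · intro j hj
          rw [Finset.mem_Ico] at hj
          rw [if_pos ⟨(lt_mul_iff hr).2 hj.1, by omega⟩, Lp_add (2 * i) j]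
          ring
      have h7 : i / r + 1 + (k - i - i / r) = k - i + 1 := by
        generalize i / r = t at h5 ⊢
        omega
      rw [e2, e0, h7]
      have h8 : i + (k + 1) = 2 * i + (k - i + 1) := by omega
      rw [h8, Lp_add (2 * i), Lp_add (2 * i)]
      ring
    · rw [if_neg (fun h2 => h h2.2.2), if_neg h, add_zero]
      refine Finset.sum_eq_zero fun j _ => ?_
      rw [if_neg]
      rintro ⟨_, h2⟩
      apply h
      simpa using h2
  rw [g3, Finset.sum_congr rfl e1]
  have e4 : ∑ i ∈ Finset.range (k + 1), (if i * d = k then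
      (1 - Lp 1) * Lp (2 * i + (i / r + 1)) else 0) =
      ∑ i ∈ Finset.range (r * (k + 1)), if i * d = k then
      (1 - Lp 1) * Lp (2 * i + (i / r + 1)) else 0 := by
    refine Finset.sum_subset (Finset.range_subset_range.2 (Nat.le_mul_of_pos_left _ hr))
      fun i _ hi => ?_
    have hi' : k + 1 ≤ i := by simpa using hi
    rw [if_neg]
    have h3 : i ≤ i * d := Nat.le_mul_of_pos_right i (by omega)
    omega
  rw [e4, sum_blocks]
  refine Finset.sum_congr rfl fun q _ => Finset.sum_congr rfl fun s hs => ?_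
  have hs' := Finset.mem_range.1 hs
  have hq : (r * q + s) / r = q := by
    rw [Nat.mul_add_div hr, Nat.div_eq_of_lt hs', add_zero]
  rw [hq]

theorem g3_mem {d p r : ℕ} (hd : 1 < d) (h3 : 0 < p → (1 : ℚ) ≠ -s₀ * p)
    (h4 : 0 < r → ((2 * r + 1 : ℕ) : ℚ) ≠ -s₀ * ((r * d + p : ℕ) : ℚ)) :
    PowerSeries.mk (g3 d p r) ∈ regularAt s₀ := by
  rcases Nat.eq_zero_or_pos r with rfl | hr
  · have h : PowerSeries.mk (g3 d p 0) = 0 := by
      ext k
      rw [PowerSeries.coeff_mk, map_zero, g3]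
      simp
    rw [h]
    exact zero_mem _
  have hrd : 0 < r * d := Nat.mul_pos hr (by omega)
  rcases Nat.eq_zero_or_pos p with rfl | hp
  · have h : PowerSeries.mk (g3 d 0 r) = ∑ s ∈ Finset.range r,
        PowerSeries.C ((1 - Lp 1) * Lp (2 * s + 1)) *
          (PowerSeries.X ^ (s * d) * G0 (2 * r + 1) (r * d)) := by
      ext k
      rw [PowerSeries.coeff_mk, sum_g3_zero hd hr, map_sum, Finset.sum_comm]
      refine Finset.sum_congr rfl fun s _ => ?_
      rw [PowerSeries.coeff_C_mul, coeff_ray _ hrd, Finset.mul_sum]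
      refine Finset.sum_congr rfl fun q _ => ?_
      have e1 : (r * q + s) * d = s * d + r * d * q := by ring
      have e2 : 2 * (r * q + s) + (q + 1) = 2 * s + 1 + (2 * r + 1) * q := by ring
      rw [e1, e2, Lp_add (2 * s + 1)]
      split_ifs
      · ring
      · ring
    rw [h]
    refine sum_mem fun s _ => mul_mem (C_mem_regularAt s₀ _)
      (mul_mem (pow_mem (X_mem_regularAt s₀) _) (G0_mem hrd ?_))
    have := h4 hr
    rwa [add_zero] at this
  · have hE : 0 < r * d + p := by omega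
    have h : PowerSeries.mk (g3 d p r) = ∑ s ∈ Finset.range r,
        PowerSeries.C ((1 - Lp 1) ^ 2 * Lp (2 * s + 1)) *
          (PowerSeries.X ^ (s * d + p) * (G0 (2 * r + 1) (r * d + p) * G0 1 p)) := by
      ext k
      rw [PowerSeries.coeff_mk, sum_g3_pos hd hp hr, map_sum, Finset.sum_comm]
      refine Finset.sum_congr rfl fun s _ => ?_
      rw [PowerSeries.coeff_C_mul, coeff_cone _ _ hE hp, Finset.mul_sum]
      refine Finset.sum_congr rfl fun q _ => ?_
      rw [Finset.mul_sum]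
      refine Finset.sum_congr rfl fun j _ => ?_
      have e1 : (r * q + s) * d + p * (q + 1 + j) =
          s * d + p + (r * d + p) * q + p * j := by ring
      have e2 : 2 * (r * q + s) + (q + 1 + j) = 2 * s + 1 + ((2 * r + 1) * q + 1 * j) := by ring
      rw [e1, e2, Lp_add (2 * s + 1)]
      split_ifs
      · ring
      · ring
    rw [h]
    refine sum_mem fun s _ => mul_mem (C_mem_regularAt s₀ _)
      (mul_mem (pow_mem (X_mem_regularAt s₀) _) (mul_mem (G0_mem hE (h4 hr))
        (G0_mem hp (by push_cast; exact h3 hp))))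

end MN

end MPb07157
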