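import Pool.Agent.Lib.MP_b07157_agN1.Co
import Pool.Agent.Lib.MP_b07157_agN1.Ser
import Pool.Agent.Lib.MP_b07157_agN1.Rs
import Pool.Agent.Lib.MP_b07157_agN1.Bin
import Pool.Agent.Lib.MP_b07157_agQ.HArc
import Pool.Agent.Lib.MP_b07157_agS.SE

/-!
# The strong monodromy conjecture for homogeneous `P(x, y) (z A(x, y) + B(x, y))^m`
-/

noncomputable section

namespace MPb07157

open MvPolynomial

namespace MN

open PC
open P1aux (Lp)

variable {R : Finset ℂ} {p r : ℂ → ℕ} {lP lA : ℂ} {B : MvPolynomial (Fin 2) ℂ} {m : ℕ}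

theorem Dt.mu_pos (h : Dt R p r lP lA B m) : 0 < mu R p r m := by
  unfold mu
  obtain ⟨c, hc⟩ := h.hne
  have h1 := h.hR c hc
  have h2 := Finset.single_le_sum (f := p) (fun _ _ => Nat.zero_le _) hc
  have h3 := Finset.single_le_sum (f := r) (fun _ _ => Nat.zero_le _) hc
  have h4 := h.hm
  have h5 : ∑ c ∈ R, r c ≤ m * ∑ c ∈ R, r c := Nat.le_mul_of_pos_left _ h4
  omega

/-- The zeta function is regular at `-3/d`, or `-3/d` is a root. -/
theorem Dt.main (h : Dt R p r lP lA B m) :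
    Zmot (mon (bin lP R p) (bin lA R r) B m) ∈ regularAt (-(3 / ((mu R p r m + m : ℕ) : ℚ))) ∨
    IsBernsteinSatoRoot (mon (bin lP R p) (bin lA R r) B m)
      (-(3 / ((mu R p r m + m : ℕ) : ℚ))) := by
  classical
  have hm := h.hm
  have hμ := h.mu_pos
  set f := mon (bin lP R p) (bin lA R r) B m with hf
  set μ := mu R p r m with hμdef
  set d := μ + m with hd
  have hd2 : 1 < d := by omega
  have hdQ : ((d : ℕ) : ℚ) ≠ 0 := by exact_mod_cast (by omega : d ≠ 0)
  by_cases hroot : IsBernsteinSatoRoot f (-(3 / ((d : ℕ) : ℚ)))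
  · exact Or.inr hroot
  left
  -- the exceptional values
  have hne1 : ∀ a : ℕ, 0 < a → IsBernsteinSatoRoot f (-(1 / (a : ℚ))) →
      (1 : ℚ) ≠ -(-(3 / ((d : ℕ) : ℚ))) * a := by
    intro a ha h1 h2
    apply hroot
    have haQ : (a : ℚ) ≠ 0 := by exact_mod_cast ha.ne'
    have h3 : (3 / ((d : ℕ) : ℚ)) = 1 / a := by
      field_simp
      field_simp at h2
      linarith
    rw [h3]
    exact h1
  have hrm := root_m (bin_ne_zero h.hP R p) (bin_ne_zero h.hA R r) h.relPrime hm
  have h1 := hne1 m hm hrm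
  have h2 : (2 : ℚ) ≠ -(-(3 / ((d : ℕ) : ℚ))) * (μ : ℕ) := by
    intro h3
    apply h1
    have h4 : (d : ℚ) = μ + m := by rw [hd]; push_cast; ring
    field_simp at h3 ⊢
    rw [h4] at h3 ⊢
    linarith
  have h3 : ∀ c ∈ R, 0 < p c → (1 : ℚ) ≠ -(-(3 / ((d : ℕ) : ℚ))) * (p c : ℕ) :=
    fun c hc hp => hne1 (p c) hp (h.root_p hc hp)
  have h4 : ∀ c ∈ R, 0 < r c → ((2 * r c + 1 : ℕ) : ℚ) ≠
      -(-(3 / ((d : ℕ) : ℚ))) * ((r c * d + p c : ℕ) : ℚ) := by
    intro c hc hr h5
    apply hroot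
    have h6 : (2 * r c + 1) * d = 3 * (r c * d + p c) := by
      have h7 : (((2 * r c + 1) * d : ℕ) : ℚ) = ((3 * (r c * d + p c) : ℕ) : ℚ) := by
        rw [Nat.cast_mul, h5, Nat.cast_mul]
        field_simp
        push_cast
        ring
      exact_mod_cast h7
    have h8 : r c = 1 := by nlinarith
    have h9 : p c = 0 := by
      rw [h8] at h6
      omega
    intro b hb
    have h10 : b.eval (-(3 / ((d : ℕ) : ℂ))) = 0 := root_simple h hc h8 h9 hb
    rw [← h10]
    push_cast
    rfl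
  -- the series
  have hser : Zmot f = PowerSeries.mk (g1 R p r m) +
      ∑ c ∈ R, (PowerSeries.mk (g2 μ (p c) (r c) m) + PowerSeries.mk (g3 d (p c) (r c))) := by
    ext k
    unfold Zmot
    rw [PowerSeries.coeff_mk, Zcoeff_eq h k, map_add, map_sum, PowerSeries.coeff_mk]
    simp only [map_add, PowerSeries.coeff_mk]
    rfl
  rw [hser]
  refine (regularAt _).add_mem (g1_mem hm hμ h1 h2) ((regularAt _).sum_mem fun c hc => ?_)
  have hpr := h.hR c hc
  refine (regularAt _).add_mem (g2_mem hm hμ hpr h1 h2 (fun hr0 => h3 c hc (by omega)) (h4 c hc))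
    (g3_mem hd2 (h3 c hc) (h4 c hc))

/-! ### General forms -/

/-- The substitution `x ↦ x + t y`. -/
def shv (t : ℂ) : Fin 2 → MvPolynomial (Fin 2) ℂ := ![X 0 + C t * X 1, X 1]

/-- The substitution `x ↦ x + t y` in three variables. -/
def shE (t : ℂ) : MvPolynomial (Fin 3) ℂ ≃ₐ[ℂ] MvPolynomial (Fin 3) ℂ :=
  AlgEquiv.ofAlgHom (aeval ![X 0, X 1 + C t * X 2, X 2]) (aeval ![X 0, X 1 - C t * X 2, X 2])
    (by
      apply MvPolynomial.algHom_ext
      intro i
      fin_cases i <;> simp)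
    (by
      apply MvPolynomial.algHom_ext
      intro i
      fin_cases i <;> simp)

theorem shE_rename (t : ℂ) (F : MvPolynomial (Fin 2) ℂ) :
    shE t (rename Fin.succ F) = rename Fin.succ (aeval (shv t) F) := by
  have h : ((shE t : MvPolynomial (Fin 3) ℂ →ₐ[ℂ] MvPolynomial (Fin 3) ℂ).comp
      (rename Fin.succ)) = (rename Fin.succ).comp (aeval (shv t)) := by
    apply MvPolynomial.algHom_ext
    intro i
    fin_cases i
    · change (aeval ![X 0, X 1 + C t * X 2, X 2] (rename Fin.succ (X 0))) =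
        rename Fin.succ (aeval (shv t) (X 0))
      rw [rename_X, aeval_X, aeval_X]
      simp only [shv, Matrix.cons_val_zero, map_add, map_mul, rename_X, rename_C]
      rfl
    · change (aeval ![X 0, X 1 + C t * X 2, X 2] (rename Fin.succ (X 1))) =
        rename Fin.succ (aeval (shv t) (X 1))
      rw [rename_X, aeval_X, aeval_X]
      simp only [shv, Matrix.cons_val, rename_X]
      rfl
  exact congrArg (fun φ => φ F) h

theorem shE_mon (t : ℂ) (P A B : MvPolynomial (Fin 2) ℂ) (m : ℕ) :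
    shE t (mon P A B m) =
      mon (aeval (shv t) P) (aeval (shv t) A) (aeval (shv t) B) m := by
  unfold mon
  rw [map_mul, map_pow, map_add, map_mul, shE_rename, shE_rename, shE_rename]
  have h1 : shE t (X 0) = X 0 := by
    change aeval ![X 0, X 1 + C t * X 2, X 2] (X 0) = _
    rw [aeval_X]
    rfl
  rw [h1]

/-- The substitution as an automorphism. -/
def shE2 (t : ℂ) : MvPolynomial (Fin 2) ℂ ≃ₐ[ℂ] MvPolynomial (Fin 2) ℂ :=
  AlgEquiv.ofAlgHom (aeval (shv t)) (aeval (shv (-t)))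
    (by
      apply MvPolynomial.algHom_ext
      intro i
      fin_cases i <;> simp [shv])
    (by
      apply MvPolynomial.algHom_ext
      intro i
      fin_cases i <;> simp [shv])

theorem shv_hom (t : ℂ) {F : MvPolynomial (Fin 2) ℂ} {n : ℕ} (hF : F.IsHomogeneous n) :
    (aeval (shv t) F).IsHomogeneous n := by
  have h1 : ∀ i, (shv t i).IsHomogeneous 1 := by
    intro i
    fin_cases i
    · refine (isHomogeneous_X ℂ 0).add ?_
      have := (isHomogeneous_C (Fin 2) t).mul (isHomogeneous_X ℂ (1 : Fin 2))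
      rwa [zero_add] at this
    · exact isHomogeneous_X ℂ 1
  have h2 := hF.aeval (shv t) h1
  rwa [one_mul] at h2

theorem eval_shv (t : ℂ) (F : MvPolynomial (Fin 2) ℂ) :
    eval ![0, 1] (aeval (shv t) F) = eval ![t, 1] F := by
  have h : (eval ![0, 1]).comp (aeval (shv t) : MvPolynomial (Fin 2) ℂ →ₐ[ℂ]
      MvPolynomial (Fin 2) ℂ).toRingHom = eval ![t, 1] := by
    apply MvPolynomial.ringHom_ext
    · intro a
      simp
    · intro i
      fin_cases i <;> simp [shv]
  exact congrArg (fun φ => φ F) h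

/-- The data in suitable coordinates. -/
theorem exists_dt {P A B : MvPolynomial (Fin 2) ℂ} {q e m : ℕ} (hP : P.IsHomogeneous q)
    (hA : A.IsHomogeneous e) (hB : B.IsHomogeneous (e + 1)) (hP0 : P ≠ 0) (hA0 : A ≠ 0)
    (hAB : IsRelPrime A B) (hm : 0 < m) (hμ : 0 < q + m * e) :
    ∃ (t : ℂ) (R : Finset ℂ) (p r : ℂ → ℕ) (lP lA : ℂ) (B' : MvPolynomial (Fin 2) ℂ),
      Dt R p r lP lA B' m ∧ mu R p r m = q + m * e ∧
      shE t (mon P A B m) = mon (bin lP R p) (bin lA R r) B' m := by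
  classical
  obtain ⟨t, ht⟩ := exists_t (hP.mul hA) (mul_ne_zero hP0 hA0)
  rw [map_mul] at ht
  obtain ⟨htP, htA⟩ := mul_ne_zero_iff.1 ht
  set P' := aeval (shv t) P with hP'
  set A' := aeval (shv t) A with hA'
  set B' := aeval (shv t) B with hB'
  have hP'0 : eval ![0, 1] P' ≠ 0 := by rw [hP', eval_shv]; exact htP
  have hA'0 : eval ![0, 1] A' ≠ 0 := by rw [hA', eval_shv]; exact htA
  have hPn : P' ≠ 0 := by
    intro h
    rw [h, map_zero] at hP'0
    exact hP'0 rfl
  have hAn : A' ≠ 0 := by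
    intro h
    rw [h, map_zero] at hA'0
    exact hA'0 rfl
  have hPAn : dh (P' * A') ≠ 0 := by
    intro h1
    have h2 : P' * A' = 0 := eq_of_dh ((shv_hom t hP).mul (shv_hom t hA))
      (isHomogeneous_zero _ _ _) (by rw [h1]; simp [dh])
    exact mul_ne_zero hPn hAn h2
  set R := (dh (P' * A')).roots.toFinset with hR
  have hmem : ∀ c, c ∈ R ↔ (dh P').eval c * (dh A').eval c = 0 := by
    intro c
    rw [hR, Multiset.mem_toFinset, Polynomial.mem_roots hPAn, Polynomial.IsRoot.def, dh_mul,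
      Polynomial.eval_mul]
  obtain ⟨lP, p, hlP, hPp, hps, hpc⟩ := exists_bin (shv_hom t hP) hP'0 R (fun c hc =>
    (hmem c).2 (by rw [← hP'] at hc; rw [hc, zero_mul]))
  obtain ⟨lA, r, hlA, hAr, hrs, hrc⟩ := exists_bin (shv_hom t hA) hA'0 R (fun c hc =>
    (hmem c).2 (by rw [← hA'] at hc; rw [hc, mul_zero]))
  rw [← hP'] at hPp hpc
  rw [← hA'] at hAr hrc
  have hAB' : IsRelPrime A' B' := by
    intro z hz1 hz2
    have h1 : (shE2 t).symm z ∣ A := by
      have := map_dvd (shE2 t).symm hz1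
      have h2 : (shE2 t).symm A' = A := (shE2 t).symm_apply_apply A
      rwa [h2] at this
    have h2 : (shE2 t).symm z ∣ B := by
      have := map_dvd (shE2 t).symm hz2
      have h2 : (shE2 t).symm B' = B := (shE2 t).symm_apply_apply B
      rwa [h2] at this
    have h3 := (hAB h1 h2).map (shE2 t)
    rwa [(shE2 t).apply_symm_apply] at h3
  have hmu : mu R p r m = q + m * e := by
    unfold mu
    rw [hps, hrs]
  refine ⟨t, R, p, r, lP, lA, B', ⟨hlP, hlA, hm, ?_, ?_, ?_, ?_⟩, hmu, ?_⟩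
  · rw [hrs]
    exact shv_hom t hB
  · intro c hc hr h0
    have h1 : (X 1 - C c * X 0 : MvPolynomial (Fin 2) ℂ) ∣ B' := lin_dvd (shv_hom t hB) h0
    have h2 : (X 1 - C c * X 0 : MvPolynomial (Fin 2) ℂ) ∣ A' := by
      refine lin_dvd (shv_hom t hA) ?_
      rw [← eval_dh]
      exact (hrc c hc).1 hr
    exact (irr_lin c (by decide)).not_isUnit (hAB' h2 h1)
  · intro c hc
    rcases mul_eq_zero.1 ((hmem c).1 hc) with h1 | h1
    · have := (hpc c hc).2 h1
      omega
    · have := (hrc c hc).2 h1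
      omega
  · by_contra hcon
    rw [Finset.not_nonempty_iff_eq_empty] at hcon
    rw [← hmu] at hμ
    unfold mu at hμ
    rw [hcon] at hμ
    simp at hμ
  · rw [shE_mon, ← hP', ← hA', ← hB', hPp, hAr]

/-- **The strong monodromy conjecture at `-3/d`** for all curves with a point `p` such that a general
line through `p` meets the curve in at most one point outside `p`: if `f`, homogeneous of degree `d`,
is in suitable coordinates `P(x, y) (z A(x, y) + B(x, y))^m`, then `-3/d` is not a pole or it is a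
root. -/
theorem root_monoid {f : MvPolynomial (Fin 3) ℂ} {d : ℕ} (hf : f.IsHomogeneous d)
    (E : MvPolynomial (Fin 3) ℂ ≃ₐ[ℂ] MvPolynomial (Fin 3) ℂ) {P A B : MvPolynomial (Fin 2) ℂ}
    {q e m : ℕ} (hP : P.IsHomogeneous q) (hA : A.IsHomogeneous e) (hB : B.IsHomogeneous (e + 1))
    (hP0 : P ≠ 0) (hA0 : A ≠ 0) (hAB : IsRelPrime A B) (hm : 0 < m) (hμ : 0 < q + m * e)
    (hd : d = q + m * (e + 1)) (hE : E f = mon P A B m)
    (hpole : IsPole (Zmot f) (-(3 / (d : ℚ))) ∨ IsPole (Zmot0 f) (-(3 / (d : ℚ)))) :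
    IsBernsteinSatoRoot f (-(3 / (d : ℚ))) := by
  obtain ⟨t, R, p, r, lP, lA, B', hD, hmu, ht⟩ := exists_dt hP hA hB hP0 hA0 hAB hm hμ
  have hd0 : 0 < d := by
    rw [hd]
    have : 0 < m * (e + 1) := Nat.mul_pos hm (Nat.succ_pos e)
    omega
  have hd' : mu R p r m + m = d := by
    rw [hmu, hd]
    ring
  have hmain := hD.main
  rw [hd'] at hmain
  set F := E.trans (shE t) with hF
  have hFf : F f = mon (bin lP R p) (bin lA R r) B' m := by
    rw [hF, AlgEquiv.trans_apply, hE, ht]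
  rcases hmain with h1 | h1
  · exfalso
    have h2 : Zmot f ∈ regularAt (-(3 / (d : ℚ))) := by
      have h3 : PolyEquivPow f (mon (bin lP R p) (bin lA R r) B' m) 1 :=
        ⟨F.symm, 1, one_ne_zero, by rw [← hFf, F.symm_apply_apply, pow_one, C_1, one_mul]⟩
      rw [Zmot_of_polyEquivPow one_pos h3, PowerSeries.expand_one_apply]
      exact h1
    rcases hpole with h3 | h3
    · exact h3 h2
    · apply h3
      rw [Zmot0_of_isHomogeneous hd0 hf]
      refine (regularAt _).mul_mem ((regularAt _).mul_mem ?_ ?_) h2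
      · exact (regularAt _).algebraMap_mem _
      · exact (regularAt _).pow_mem (Algebra.subset_adjoin (Or.inl rfl)) d
  · intro b hb
    exact h1 b (hFf ▸ Alp.isBernsteinSato_equiv F hb)

end MN

end MPb07157
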