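import Pool.Agent.Lib.MP_b07157_agN1.Defs
import Pool.Agent.Lib.MP_b07157_agK.K2
import Mathlib.RingTheory.MvPolynomial.IrreducibleQuadratic

/-!
# The roots `-1/m` and `-1/p_c`
-/

noncomputable section

namespace MPb07157

open MvPolynomial

namespace MN

theorem irr_lin {n : ℕ} (c : ℂ) {i j : Fin n} (hij : i ≠ j) :
    Irreducible (X i - C c * X j : MvPolynomial (Fin n) ℂ) := by
  classical
  have h1 := irreducible_mul_X_add (1 : MvPolynomial (Fin n) ℂ) (-(C c * X j)) i one_ne_zero
    (by simp) (by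
      intro h
      have h2 := vars_mul (C c : MvPolynomial (Fin n) ℂ) (X j) (by
        rwa [vars_neg] at h)
      simp [vars_X, hij] at h2) isRelPrime_one_left
  rwa [one_mul, ← sub_eq_add_neg] at h1

theorem bin_ne_zero {lam : ℂ} (h : lam ≠ 0) (R : Finset ℂ) (r : ℂ → ℕ) : bin lam R r ≠ 0 := by
  unfold bin
  refine mul_ne_zero (by simpa using h) (Finset.prod_ne_zero_iff.2 fun c _ => pow_ne_zero _ ?_)
  exact (irr_lin c (by decide)).ne_zero

theorem bin_hom (lam : ℂ) (R : Finset ℂ) (r : ℂ → ℕ) :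
    (bin lam R r).IsHomogeneous (∑ c ∈ R, r c) := by
  unfold bin
  have h1 : (∏ c ∈ R, (X 1 - C c * X 0 : MvPolynomial (Fin 2) ℂ) ^ r c).IsHomogeneous
      (∑ c ∈ R, r c) := by
    refine IsHomogeneous.prod _ _ _ fun c _ => ?_
    have h2 : (X 1 - C c * X 0 : MvPolynomial (Fin 2) ℂ).IsHomogeneous 1 := by
      refine (isHomogeneous_X ℂ 1).sub ?_
      have := (isHomogeneous_C (Fin 2) c).mul (isHomogeneous_X ℂ (0 : Fin 2))
      rwa [zero_add] at this
    have h3 := h2.pow (r c)
    rwa [one_mul] at h3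
  have h4 := (isHomogeneous_C (Fin 2) lam).mul h1
  rwa [zero_add] at h4

variable {R : Finset ℂ} {p r : ℂ → ℕ} {lP lA : ℂ} {B : MvPolynomial (Fin 2) ℂ} {m : ℕ}

theorem Dt.relPrime (h : Dt R p r lP lA B m) : IsRelPrime (bin lA R r) B := by
  refine WfDvdMonoid.isRelPrime_of_no_irreducible_factors
    (fun h0 => bin_ne_zero h.hA R r h0.1) fun z hz h1 h2 => ?_
  have hzp : Prime z := hz.prime
  unfold bin at h1
  rcases hzp.dvd_or_dvd h1 with h3 | h3
  · exact hz.not_isUnit (isUnit_of_dvd_unit h3 ((isUnit_iff_ne_zero.2 h.hA).map C))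
  · obtain ⟨c, hc, h4⟩ := (Prime.dvd_finsetProd_iff hzp _).1 h3
    have hr : 0 < r c := by
      rcases Nat.eq_zero_or_pos (r c) with h0 | h0
      · rw [h0, pow_zero] at h4
        exact absurd (isUnit_of_dvd_one h4) hz.not_isUnit
      · exact h0
    have h5 := hzp.dvd_of_dvd_pow h4
    have h6 : (X 1 - C c * X 0 : MvPolynomial (Fin 2) ℂ) ∣ z :=
      ((irr_lin c (by decide)).dvd_iff.1 h5).resolve_left hz.not_isUnit |>.dvd
    obtain ⟨u, hu⟩ := h6.trans h2
    apply h.hcop c hc hr
    rw [hu]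
    simp

/-- `z A + B`. -/
def gg (A B : MvPolynomial (Fin 2) ℂ) : MvPolynomial (Fin 3) ℂ :=
  X 0 * rename Fin.succ A + rename Fin.succ B

theorem finSuccEquiv_rename_succ (A : MvPolynomial (Fin 2) ℂ) :
    finSuccEquiv ℂ 2 (rename Fin.succ A) = Polynomial.C A := by
  induction A using MvPolynomial.induction_on with
  | C a => simp [finSuccEquiv_apply]
  | add p q hp hq => rw [map_add, map_add, hp, hq, Polynomial.C_add]
  | mul_X p i hp => rw [map_mul, map_mul, hp, rename_X, finSuccEquiv_X_succ, Polynomial.C_mul]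

theorem irr_gg {A B : MvPolynomial (Fin 2) ℂ} (hA : A ≠ 0) (h : IsRelPrime A B) :
    Irreducible (gg A B) := by
  refine Irreducible.of_map (f := finSuccEquiv ℂ 2) ?_
  unfold gg
  rw [map_add, map_mul, finSuccEquiv_rename_succ, finSuccEquiv_rename_succ, finSuccEquiv_X_zero,
    mul_comm]
  exact Polynomial.irreducible_C_mul_X_add_C hA h

/-- A polynomial in `x`, `y` is not divisible by `z A + B`. -/
theorem not_gg_dvd {P A B : MvPolynomial (Fin 2) ℂ} (hP : P ≠ 0) (hA : A ≠ 0) :
    ¬ gg A B ∣ rename Fin.succ P := by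
  rintro ⟨u, hu⟩
  have h1 := congrArg (finSuccEquiv ℂ 2) hu
  have hu0 : finSuccEquiv ℂ 2 u ≠ 0 := by
    intro h0
    rw [map_mul, h0, mul_zero, finSuccEquiv_rename_succ] at h1
    exact hP (Polynomial.C_eq_zero.1 h1)
  unfold gg at h1
  rw [finSuccEquiv_rename_succ, map_mul, map_add, map_mul, finSuccEquiv_rename_succ,
    finSuccEquiv_rename_succ, finSuccEquiv_X_zero, mul_comm Polynomial.X] at h1
  have h2 := congrArg Polynomial.natDegree h1
  have h3 : (Polynomial.C A * Polynomial.X + Polynomial.C B).natDegree = 1 :=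
    Polynomial.natDegree_linear hA
  rw [Polynomial.natDegree_C, Polynomial.natDegree_mul (by
    intro h0
    rw [h0, Polynomial.natDegree_zero] at h3
    exact absurd h3 (by norm_num)) hu0, h3] at h2
  omega

/-- The root `-1/m`. -/
theorem root_m {P A B : MvPolynomial (Fin 2) ℂ} (hP : P ≠ 0) (hA : A ≠ 0) (h : IsRelPrime A B)
    {m : ℕ} (hm : 0 < m) : IsBernsteinSatoRoot (mon P A B m) (-(1 / (m : ℚ))) := by
  have hirr := irr_gg hA h
  refine root_of_mult hirr hm (Dvd.intro_left _ rfl) ?_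
  unfold mon
  intro h1
  change gg A B ^ (m + 1) ∣ rename Fin.succ P * gg A B ^ m at h1
  rw [pow_succ', mul_dvd_mul_iff_right (pow_ne_zero _ hirr.ne_zero)] at h1
  exact not_gg_dvd hP hA h1

/-- The root `-1/p_c`. -/
theorem Dt.root_p (h : Dt R p r lP lA B m) {c : ℂ} (hc : c ∈ R) (hp : 0 < p c) :
    IsBernsteinSatoRoot (mon (bin lP R p) (bin lA R r) B m) (-(1 / (p c : ℚ))) := by
  classical
  have hirr : Irreducible (X 2 - C c * X 1 : MvPolynomial (Fin 3) ℂ) := irr_lin c (by decide)
  have hpr : Prime (X 2 - C c * X 1 : MvPolynomial (Fin 3) ℂ) := hirr.prime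
  have hren : ∀ c' : ℂ, rename Fin.succ (X 1 - C c' * X 0 : MvPolynomial (Fin 2) ℂ) =
      (X 2 - C c' * X 1 : MvPolynomial (Fin 3) ℂ) := by
    intro c'
    simp only [map_sub, map_mul, rename_X, rename_C]
    rfl
  have hbin : ∀ (lam : ℂ) (s : ℂ → ℕ), rename Fin.succ (bin lam R s) =
      C lam * ((X 2 - C c * X 1) ^ s c * ∏ c' ∈ R.erase c, (X 2 - C c' * X 1) ^ s c') := by
    intro lam s
    unfold bin
    rw [map_mul, rename_C, map_prod, ← Finset.mul_prod_erase _ _ hc]
    simp only [map_pow, hren]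
  refine root_of_mult hirr hp ?_ ?_
  · unfold mon
    rw [hbin lP p]
    exact Dvd.intro (C lP * (∏ c' ∈ R.erase c, (X 2 - C c' * X 1) ^ p c') * gg (bin lA R r) B ^ m)
      (by unfold gg; ring)
  · unfold mon
    intro h1
    change _ ∣ rename Fin.succ (bin lP R p) * gg (bin lA R r) B ^ m at h1
    rw [hbin lP p, show C lP * ((X 2 - C c * X 1) ^ p c * ∏ c' ∈ R.erase c,
      (X 2 - C c' * X 1 : MvPolynomial (Fin 3) ℂ) ^ p c') * gg (bin lA R r) B ^ m =
      (X 2 - C c * X 1) ^ p c * (C lP * (∏ c' ∈ R.erase c,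
      (X 2 - C c' * X 1 : MvPolynomial (Fin 3) ℂ) ^ p c') * gg (bin lA R r) B ^ m) by ring,
      pow_succ, mul_dvd_mul_iff_left (pow_ne_zero _ hirr.ne_zero)] at h1
    rcases hpr.dvd_or_dvd h1 with h2 | h2
    · rcases hpr.dvd_or_dvd h2 with h3 | h3
      · exact hirr.not_isUnit (isUnit_of_dvd_unit h3 ((isUnit_iff_ne_zero.2 h.hP).map C))
      · obtain ⟨c', hc', h4⟩ := (Prime.dvd_finsetProd_iff hpr _).1 h3
        obtain ⟨u, hu⟩ := hpr.dvd_of_dvd_pow h4
        have h5 := congrArg (eval ![(0 : ℂ), 1, c]) hu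
        simp only [map_sub, map_mul, eval_X, eval_C, Matrix.cons_val] at h5
        apply (Finset.mem_erase.1 hc').1
        linear_combination -h5
    · obtain ⟨u, hu⟩ := hpr.dvd_of_dvd_pow h2
      have h5 : ∀ z : ℂ, z * eval ![1, c] (bin lA R r) + eval ![1, c] B = 0 := by
        intro z
        have h6 := congrArg (eval ![z, 1, c]) hu
        unfold gg at h6
        rw [map_add, map_mul, eval_rename, eval_rename] at h6
        have h7 : (![z, 1, c] : Fin 3 → ℂ) ∘ Fin.succ = ![1, c] := by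
          funext i
          fin_cases i <;> rfl
        rw [h7] at h6
        simp only [map_sub, map_mul, eval_X, eval_C, Matrix.cons_val] at h6
        linear_combination h6
      have h8 := h5 0
      have h9 := h5 1
      rw [zero_mul, zero_add] at h8
      rw [h8, one_mul, add_zero] at h9
      rcases Nat.eq_zero_or_pos (r c) with h0 | h0
      · unfold bin at h9
        rw [map_mul, eval_C, map_prod, mul_eq_zero, Finset.prod_eq_zero_iff] at h9
        rcases h9 with h10 | ⟨c', hc', h10⟩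
        · exact h.hA h10
        · rw [map_pow] at h10
          by_cases hr : r c' = 0
          · rw [hr, pow_zero] at h10
            exact one_ne_zero h10
          · have h11 := (pow_eq_zero_iff hr).1 h10
            simp only [map_sub, map_mul, eval_X, eval_C, Matrix.cons_val] at h11
            have h12 : c' = c := by linear_combination -h11
            exact hr (h12 ▸ h0)
      · exact h.hcop c hc h0 h8

end MN

end MPb07157
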