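import Pool.Agent.Lib.MP_b07157_agN1.Defs

/-!
# Integration over `z`
-/

noncomputable section

namespace MPb07157

open MvPolynomial

namespace MN

open PC
open P1aux (Lp)

variable {P A B : MvPolynomial (Fin 2) ℂ} {m N k : ℕ} {S : Set (Fin 2 × Fin N → ℂ)}

namespace Zaux

/-- The linear form `z A + B`. -/
def lin (A B : MvPolynomial (Fin 2) ℂ) : MvPolynomial (Fin 3) ℂ :=
  X 0 * rename Fin.succ A + rename Fin.succ B

/-- The `z`-part of a jet. -/
def zJ (γ : Fin 3 × Fin N → ℂ) : Fin N → ℂ := fun j => γ (0, j)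

/-- A jet from its two parts. -/
def mkJ (s : Fin 2 × Fin N → ℂ) (z : Fin N → ℂ) : Fin 3 × Fin N → ℂ :=
  fun q => Fin.cases (z q.2) (fun i => s (i, q.2)) q.1

theorem zJ_mkJ (s : Fin 2 × Fin N → ℂ) (z : Fin N → ℂ) : zJ (mkJ s z) = z := by
  funext j
  rfl

theorem pJ_mkJ (s : Fin 2 × Fin N → ℂ) (z : Fin N → ℂ) : pJ (mkJ s z) = s := by
  funext q
  rfl

theorem ext_J {γ γ' : Fin 3 × Fin N → ℂ} (h1 : pJ γ = pJ γ') (h2 : zJ γ = zJ γ') : γ = γ' := by
  funext q
  obtain ⟨i, j⟩ := q
  refine Fin.cases ?_ (fun i => ?_) i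
  · exact congrFun h2 j
  · exact congrFun h1 (i, j)

theorem aeval_rename_succ (F : MvPolynomial (Fin 2) ℂ) (γ : Fin 3 × Fin N → ℂ) :
    (aeval (arc γ) (rename Fin.succ F) : PowerSeries ℂ) = vl F (pJ γ) := by
  rw [aeval_rename]
  rfl

theorem aeval_lin (γ : Fin 3 × Fin N → ℂ) :
    (aeval (arc γ) (lin A B) : PowerSeries ℂ) =
      SZ.ser (zJ γ) * vl A (pJ γ) + vl B (pJ γ) := by
  unfold lin
  rw [map_add, map_mul, aeval_rename_succ, aeval_rename_succ, aeval_X]
  rfl

theorem order_mon (γ : Fin 3 × Fin N → ℂ) :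
    (aeval (arc γ) (mon P A B m) : PowerSeries ℂ).order =
      (vl P (pJ γ)).order + m • (aeval (arc γ) (lin A B) : PowerSeries ℂ).order := by
  have h : mon P A B m = rename Fin.succ P * lin A B ^ m := rfl
  rw [h, map_mul, map_pow, PowerSeries.order_mul, PowerSeries.order_pow, aeval_rename_succ]

theorem ser_sub (z z' : Fin N → ℂ) : SZ.ser z - SZ.ser z' = SZ.ser (z - z') := by
  ext k
  rw [map_sub, SZ.coeff_ser, SZ.coeff_ser, SZ.coeff_ser]
  split_ifs with h
  · rfl
  · exact sub_zero _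

/-- Multiplication by a series of order `b` is injective on the coefficients `b, …, b + N - 1`. -/
theorem ser_eq_zero {b : ℕ} {φ : PowerSeries ℂ} (hφ : φ.order = b) {d : Fin N → ℂ}
    (h : ∀ j : Fin N, PowerSeries.coeff (b + j) (SZ.ser d * φ) = 0) : d = 0 := by
  by_contra hd
  have h0 : SZ.ser d ≠ 0 := by
    intro h1
    apply hd
    funext j
    have h2 := SZ.coeff_ser d j
    rw [h1, map_zero, dif_pos j.2] at h2
    exact h2.symm
  obtain ⟨e, he⟩ : ∃ e : ℕ, (SZ.ser d).order = e := by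
    obtain ⟨e, he⟩ := ENat.ne_top_iff_exists.1 (fun h1 => h0 (PowerSeries.order_eq_top.1 h1))
    exact ⟨e, he.symm⟩
  have he' := (PowerSeries.order_eq_nat.1 he).1
  have heN : e < N := by
    by_contra hlt
    rw [SZ.coeff_ser, dif_neg hlt] at he'
    exact he' rfl
  have ho : (SZ.ser d * φ).order = ((b + e : ℕ) : ℕ∞) := by
    rw [PowerSeries.order_mul, he, hφ]
    push_cast
    exact add_comm _ _
  exact (PowerSeries.order_eq_nat.1 ho).1 (h ⟨e, heN⟩)

/-- The coefficients `b, …, b + N - 1` of `z φ + ψ` can be prescribed. -/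
theorem exists_z {b : ℕ} {φ : PowerSeries ℂ} (hφ : φ.order = b) (ψ : PowerSeries ℂ)
    (w : Fin N → ℂ) : ∃ z : Fin N → ℂ, ∀ j : Fin N,
      PowerSeries.coeff (b + j) (SZ.ser z * φ + ψ) = w j := by
  let T : (Fin N → ℂ) →ₗ[ℂ] (Fin N → ℂ) :=
    { toFun := fun z j => PowerSeries.coeff (b + j) (SZ.ser z * φ)
      map_add' := by
        intro x y
        funext j
        have h : SZ.ser (x + y) = SZ.ser x + SZ.ser y := by
          ext k
          rw [map_add, SZ.coeff_ser, SZ.coeff_ser, SZ.coeff_ser]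
          split_ifs with h
          · rfl
          · exact (add_zero _).symm
        simp only [h, add_mul, map_add, Pi.add_apply]
      map_smul' := by
        intro c x
        funext j
        have h : SZ.ser (c • x) = c • SZ.ser x := by
          ext k
          rw [PowerSeries.coeff_smul, SZ.coeff_ser, SZ.coeff_ser]
          split_ifs with h
          · rfl
          · exact (mul_zero _).symm
        simp only [h, smul_mul_assoc, PowerSeries.coeff_smul, RingHom.id_apply, Pi.smul_apply] }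
  have hinj : Function.Injective T := by
    rw [← LinearMap.ker_eq_bot, LinearMap.ker_eq_bot']
    intro z hz
    exact ser_eq_zero hφ fun j => congrFun hz j
  obtain ⟨z, hz⟩ := LinearMap.injective_iff_surjective.1 hinj
    (fun j => w j - PowerSeries.coeff (b + j) ψ)
  refine ⟨z, fun j => ?_⟩
  have h := congrFun hz j
  change PowerSeries.coeff (b + j) (SZ.ser z * φ) = w j - PowerSeries.coeff (b + j) ψ at h
  rw [map_add, h, sub_add_cancel]

/-- The jets over `S` with `ord (z A + B) = b + l`. -/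
def lvl (A B : MvPolynomial (Fin 2) ℂ) (N e : ℕ) (S : Set (Fin 2 × Fin N → ℂ)) :
    Set (Fin 3 × Fin N → ℂ) := {γ | pJ γ ∈ S ∧ γ ∈ arcs (lin A B) N e}

theorem isConstr_lvl (hS : IsConstr S) (e : ℕ) : IsConstr (lvl A B N e S) :=
  (hS.reindex (fun q : Fin 2 × Fin N => (q.1.succ, q.2))).inter (isConstr_arcs _ N e)

theorem cls_lvl (hS : IsConstr S) {b l : ℕ} (hl : l < N)
    (hA : ∀ γ ∈ S, (vl A γ).order = b) (hB : ∀ γ ∈ S, (b : ℕ∞) ≤ (vl B γ).order) :
    cls (lvl A B N (b + l) S) = cls S * ((L - 1) * L ^ (N - 1 - l)) := by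
  choose Q hQ using fun j : Fin N => exists_coeff_poly (N := N) (lin A B) (b + j)
  let φ : (Fin 2 × Fin N) ⊕ Fin N → MvPolynomial (Fin 3 × Fin N) ℂ :=
    Sum.elim (fun q => X (q.1.succ, q.2)) Q
  have hφl : ∀ γ : Fin 3 × Fin N → ℂ, (fun i => polyMap φ γ (Sum.inl i)) = pJ γ := by
    intro γ
    funext q
    exact eval_X _
  have hφr : ∀ γ : Fin 3 × Fin N → ℂ, (fun j => polyMap φ γ (Sum.inr j)) =
      fun j : Fin N => PowerSeries.coeff (b + j) (aeval (arc γ) (lin A B) : PowerSeries ℂ) := by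
    intro γ
    funext j
    exact (hQ j γ).symm
  rw [← SZ.cls_ordS hl, ← cls_prodSum hS (SZ.isConstr_ordS N l)]
  refine cls_bijOn (isConstr_lvl hS _) (isConstr_prodSum hS (SZ.isConstr_ordS N l)) φ
    ⟨?_, ?_, ?_⟩
  · rintro γ ⟨h1, h2⟩
    refine ⟨?_, ?_⟩
    · rw [hφl]
      exact h1
    · rw [hφr, SZ.mem_ordS hl]
      have h3 := PowerSeries.order_eq_nat.1 h2
      exact ⟨fun j hj => h3.2 _ (by omega), h3.1⟩
  · rintro γ ⟨h1, h2⟩ γ' ⟨h1', h2'⟩ h
    have hp : pJ γ = pJ γ' := by
      rw [← hφl, ← hφl, h]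
    refine ext_J hp ?_
    have hr : ∀ j : Fin N, PowerSeries.coeff (b + j) (aeval (arc γ) (lin A B) : PowerSeries ℂ) =
        PowerSeries.coeff (b + j) (aeval (arc γ') (lin A B) : PowerSeries ℂ) := by
      intro j
      have := congrFun (hφr γ) j
      have h' := congrFun (hφr γ') j
      rw [← this, ← h', h]
    have hd : zJ γ - zJ γ' = 0 := by
      refine ser_eq_zero (hA _ h1) fun j => ?_
      rw [← ser_sub]
      have := hr j
      rw [aeval_lin, aeval_lin, ← hp, ← sub_eq_zero, ← map_sub] at this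
      rw [← this]
      congr 1
      ring
    exact sub_eq_zero.1 hd
  · rintro x ⟨h1, h2⟩
    obtain ⟨z, hz⟩ := exists_z (hA _ h1) (vl B fun i => x (Sum.inl i)) (fun j => x (Sum.inr j))
    rw [SZ.mem_ordS hl] at h2
    have hl1 : (aeval (arc (mkJ (fun i => x (Sum.inl i)) z)) (lin A B) : PowerSeries ℂ) =
        SZ.ser z * vl A (fun i => x (Sum.inl i)) + vl B (fun i => x (Sum.inl i)) := by
      rw [aeval_lin, zJ_mkJ, pJ_mkJ]
    refine ⟨mkJ (fun i => x (Sum.inl i)) z, ⟨?_, ?_⟩, ?_⟩
    · rw [pJ_mkJ]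
      exact h1
    · change (aeval (arc (mkJ (fun i => x (Sum.inl i)) z)) (lin A B) : PowerSeries ℂ).order = _
      rw [hl1, PowerSeries.order_eq_nat]
      refine ⟨?_, fun i hi => ?_⟩
      · have := hz ⟨l, hl⟩
        rw [this]
        exact h2.2
      · by_cases hib : i < b
        · rw [map_add, PowerSeries.coeff_of_lt_order _ (lt_of_lt_of_le (Nat.cast_lt.2 hib)
            (hB _ h1)), add_zero]
          refine PowerSeries.coeff_of_lt_order _ (lt_of_lt_of_le (Nat.cast_lt.2 hib) ?_)
          rw [PowerSeries.order_mul, hA _ h1]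
          exact le_add_self
        · have h3 : b + (i - b) = i := by omega
          have := hz ⟨i - b, by omega⟩
          simp only [h3] at this
          rw [this]
          exact h2.1 _ (by
            show i - b < l
            omega)
    · funext i
      rcases i with i | i
      · have := congrFun (hφl (mkJ (fun i => x (Sum.inl i)) z)) i
        refine this.trans ?_
        rw [pJ_mkJ]
      · have := congrFun (hφr (mkJ (fun i => x (Sum.inl i)) z)) i
        refine this.trans ?_
        rw [hl1]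
        exact hz i

theorem coe_inv_eq (n : ℕ) : (((LU ^ n)⁻¹ : Motˣ) : Mot) = Lp n := by
  unfold Lp
  rw [zpow_neg, zpow_natCast]

theorem Lp_mul_L (n : ℕ) : Lp (n + 1) * algebraMap K0 Mot L = Lp n := by
  rw [P1aux.Lp_add, mul_assoc]
  have h : Lp 1 * algebraMap K0 Mot L = 1 := by
    unfold Lp
    rw [← LU_val, Nat.cast_one, zpow_neg_one]
    exact Units.inv_mul LU
  rw [h, mul_one]

theorem Lp_mul_L_pow (n i : ℕ) : Lp (n + i) * algebraMap K0 Mot L ^ i = Lp n := by
  induction i with
  | zero => rw [add_zero, pow_zero, mul_one]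
  | succ i ih =>
    rw [pow_succ, ← mul_assoc, mul_comm (Lp _) _, mul_assoc, ← add_assoc, Lp_mul_L, mul_comm, ih]

theorem cls_pre (hS : IsConstr S) : cls {γ : Fin 3 × Fin N → ℂ | pJ γ ∈ S} = cls S * L ^ N := by
  let φ : (Fin 2 × Fin N) ⊕ Fin N → MvPolynomial (Fin 3 × Fin N) ℂ :=
    Sum.elim (fun q => X (q.1.succ, q.2)) (fun j => X (0, j))
  have hφl : ∀ γ : Fin 3 × Fin N → ℂ, (fun i => polyMap φ γ (Sum.inl i)) = pJ γ := by
    intro γ
    funext q
    exact eval_X _
  have hφr : ∀ γ : Fin 3 × Fin N → ℂ, (fun j => polyMap φ γ (Sum.inr j)) = zJ γ := by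
    intro γ
    funext j
    exact eval_X _
  have hU : cls (Set.univ : Set (Fin N → ℂ)) = L ^ N := by
    rw [cls_univ_eq, Fintype.card_fin]
  rw [← hU, ← cls_prodSum hS IsConstr.univ]
  refine cls_bijOn (hS.reindex (fun q : Fin 2 × Fin N => (q.1.succ, q.2)))
    (isConstr_prodSum hS IsConstr.univ) φ ⟨?_, ?_, ?_⟩
  · intro γ h1
    refine ⟨?_, Set.mem_univ _⟩
    rw [hφl]
    exact h1
  · intro γ _ γ' _ h
    refine ext_J ?_ ?_
    · rw [← hφl, ← hφl, h]
    · rw [← hφr, ← hφr, h]
  · rintro x ⟨h1, -⟩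
    refine ⟨mkJ (fun i => x (Sum.inl i)) (fun j => x (Sum.inr j)), ?_, ?_⟩
    · change pJ _ ∈ S
      rw [pJ_mkJ]
      exact h1
    · funext i
      rcases i with i | i
      · refine (congrFun (hφl _) i).trans ?_
        rw [pJ_mkJ]
      · refine (congrFun (hφr _) i).trans ?_
        rw [zJ_mkJ]

end Zaux

open Zaux

/-- If `ord B < ord A`, then `ord f = ord P + m ord B` for all `z`. -/
theorem mu3_ovr_lt (hk : k < N) (hS : IsConstr S) {a b : ℕ}
    (hP : ∀ γ ∈ S, (vl P γ).order = a) (hB : ∀ γ ∈ S, (vl B γ).order = b)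
    (hA : ∀ γ ∈ S, (b : ℕ∞) < (vl A γ).order) :
    mu3 N (ovr (mon P A B m) N k S) = if a + m * b = k then muN N S else 0 := by
  have ho : ∀ γ : Fin 3 × Fin N → ℂ, pJ γ ∈ S →
      (aeval (arc γ) (mon P A B m) : PowerSeries ℂ).order = ((a + m * b : ℕ) : ℕ∞) := by
    intro γ hγ
    have h1 : (b : ℕ∞) < (SZ.ser (zJ γ) * vl A (pJ γ)).order := by
      rw [PowerSeries.order_mul]
      exact lt_of_lt_of_le (hA _ hγ) le_add_self
    have h2 : (aeval (arc γ) (lin A B) : PowerSeries ℂ).order = b := by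
      have h3 : (SZ.ser (zJ γ) * vl A (pJ γ)).order ≠ (vl B (pJ γ)).order := by
        rw [hB _ hγ]
        exact h1.ne'
      rw [aeval_lin, PowerSeries.order_add_of_order_ne _ _ h3, hB _ hγ]
      exact min_eq_right h1.le
    rw [order_mon, hP _ hγ, h2, nsmul_eq_mul]
    push_cast
    rfl
  split_ifs with hc
  · have hov : ovr (mon P A B m) N k S = {γ : Fin 3 × Fin N → ℂ | pJ γ ∈ S} := by
      ext γ
      refine ⟨fun h => h.1, fun h => ⟨h, ?_⟩⟩
      change (aeval (arc γ) (mon P A B m) : PowerSeries ℂ).order = _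
      rw [ho γ h, hc]
    rw [hov]
    unfold mu3 muN clsM
    rw [cls_pre hS, map_mul, map_pow, coe_inv_eq, coe_inv_eq, mul_left_comm]
    have e1 : 3 * N = 2 * N + N := by omega
    rw [e1, Lp_mul_L_pow, mul_comm]
  · have hov : ovr (mon P A B m) N k S = ∅ := by
      rw [Set.eq_empty_iff_forall_notMem]
      rintro γ ⟨h1, h2⟩
      change (aeval (arc γ) (mon P A B m) : PowerSeries ℂ).order = _ at h2
      rw [ho γ h1] at h2
      exact hc (by exact_mod_cast h2)
    rw [hov]
    unfold mu3 clsM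
    rw [cls_empty, map_zero, mul_zero]

/-- If `ord A ≤ ord B`, the series `z A + B`, divided by `t^(ord A)`, is uniformly distributed. -/
theorem mu3_ovr_le (hm : 0 < m) (hk : k < N) (hS : IsConstr S) {a b : ℕ}
    (hP : ∀ γ ∈ S, (vl P γ).order = a) (hA : ∀ γ ∈ S, (vl A γ).order = b)
    (hB : ∀ γ ∈ S, (b : ℕ∞) ≤ (vl B γ).order) :
    mu3 N (ovr (mon P A B m) N k S) = muN N S * wt1 m (a + m * b) k := by
  have hge : ∀ γ : Fin 3 × Fin N → ℂ, pJ γ ∈ S →
      (b : ℕ∞) ≤ (aeval (arc γ) (lin A B) : PowerSeries ℂ).order := by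
    intro γ hγ
    rw [aeval_lin]
    refine le_trans (le_min ?_ (hB _ hγ)) (PowerSeries.min_order_le_order_add _ _)
    rw [PowerSeries.order_mul, hA _ hγ]
    exact le_add_self
  by_cases hc : a + m * b ≤ k ∧ m ∣ (k - (a + m * b))
  · obtain ⟨hle, l, hl⟩ := hc
    have hdiv : (k - (a + m * b)) / m = l := by
      rw [hl, Nat.mul_div_cancel_left l hm]
    have hlN : l < N := by
      have h1 : l ≤ m * l := Nat.le_mul_of_pos_left l hm
      omega
    have hkl : k = a + m * (b + l) := by
      rw [mul_add]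
      omega
    have hov : ovr (mon P A B m) N k S = lvl A B N (b + l) S := by
      ext γ
      refine and_congr_right fun hγ => ?_
      change (aeval (arc γ) (mon P A B m) : PowerSeries ℂ).order = _ ↔
        (aeval (arc γ) (lin A B) : PowerSeries ℂ).order = _
      rw [order_mon, hP _ hγ, hkl]
      generalize (aeval (arc γ) (lin A B) : PowerSeries ℂ).order = o
      constructor
      · intro h
        induction o using ENat.recTopCoe with
        | top =>
          exfalso
          rw [nsmul_eq_mul, ENat.mul_top (by exact_mod_cast hm.ne'), add_top] at h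
          exact ENat.top_ne_natCast _ h
        | coe o =>
          rw [nsmul_eq_mul] at h
          have h2 : a + m * o = a + m * (b + l) := by exact_mod_cast h
          have h3 : m * o = m * (b + l) := by omega
          have h4 := Nat.eq_of_mul_eq_mul_left hm h3
          rw [h4]
      · intro h
        rw [h, nsmul_eq_mul]
        push_cast
        rfl
    rw [hov]
    unfold mu3 clsM muN wt1
    rw [cls_lvl hS hlN hA hB, if_pos ⟨hle, ⟨l, hl⟩⟩, hdiv]
    unfold clsM
    rw [map_mul, map_mul, map_sub, map_one, map_pow, coe_inv_eq, coe_inv_eq]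
    have e1 : 3 * N = (2 * N + l + 1) + (N - 1 - l) := by omega
    have e2 : 2 * N + l = 2 * N + l := rfl
    have h1 : Lp (3 * N) * algebraMap K0 Mot L ^ (N - 1 - l) = Lp (2 * N + l + 1) := by
      rw [e1]
      exact Lp_mul_L_pow _ _
    have h2 : Lp (2 * N + l + 1) * algebraMap K0 Mot L = Lp (2 * N + l) := Lp_mul_L _
    have h3 : Lp (2 * N + l) = Lp (2 * N) * Lp l := P1aux.Lp_add _ _
    have h4 : Lp (2 * N + l + 1) = Lp (2 * N) * Lp l * Lp 1 := by
      rw [P1aux.Lp_add, h3]
    calc Lp (3 * N) * (algebraMap K0 Mot (cls S) *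
          ((algebraMap K0 Mot L - 1) * algebraMap K0 Mot L ^ (N - 1 - l)))
        = (Lp (3 * N) * algebraMap K0 Mot L ^ (N - 1 - l)) * (algebraMap K0 Mot L - 1) *
            algebraMap K0 Mot (cls S) := by ring
      _ = (Lp (2 * N + l + 1) * algebraMap K0 Mot L - Lp (2 * N + l + 1)) *
            algebraMap K0 Mot (cls S) := by rw [h1]; ring
      _ = Lp (2 * N) * algebraMap K0 Mot (cls S) * ((1 - Lp 1) * Lp l) := by
          rw [h2, h3, h4]; ring
  · have hov : ovr (mon P A B m) N k S = ∅ := by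
      rw [Set.eq_empty_iff_forall_notMem]
      rintro γ ⟨h1, h2⟩
      change (aeval (arc γ) (mon P A B m) : PowerSeries ℂ).order = _ at h2
      rw [order_mon, hP _ h1] at h2
      have h3 := hge γ h1
      revert h2 h3
      generalize (aeval (arc γ) (lin A B) : PowerSeries ℂ).order = o
      intro h2 h3
      induction o using ENat.recTopCoe with
      | top =>
        rw [nsmul_eq_mul, ENat.mul_top (by exact_mod_cast hm.ne'), add_top] at h2
        exact ENat.top_ne_natCast _ h2
      | coe o =>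
        rw [nsmul_eq_mul] at h2
        have h4 : a + m * o = k := by exact_mod_cast h2
        have h5 : b ≤ o := by exact_mod_cast h3
        obtain ⟨d, rfl⟩ := Nat.exists_eq_add_of_le h5
        apply hc
        rw [mul_add] at h4
        exact ⟨by omega, ⟨d, by omega⟩⟩
    rw [hov]
    unfold mu3 clsM wt1
    rw [cls_empty, map_zero, mul_zero, if_neg hc, mul_zero]

end MN

end MPb07157
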