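import Pool.Agent.Lib.MP_b07157_agN1.Dec
import Pool.Agent.Lib.MP_b07157_agN1.Za
import Pool.Agent.Lib.MP_b07157_agN1.Roots

/-!
# The coefficients of the zeta function
-/

noncomputable section

namespace MPb07157

open MvPolynomial

namespace MN

open PC
open P1aux (Lp)

variable {R : Finset ℂ} {p r : ℂ → ℕ} {lP lA : ℂ} {B : MvPolynomial (Fin 2) ℂ} {m : ℕ}

theorem T3_lt {N k : ℕ} {c : ℂ} {J : ℕ} (hJ : 0 < J) {γ : Fin 2 × Fin N → ℂ}
    (hγ : γ ∈ T3 N k c J) : ∀ i, ∀ j : Fin N, (j : ℕ) < k → γ (i, j) = 0 := by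
  obtain ⟨h1, -, h3⟩ := hγ
  intro i j hj
  fin_cases i
  · exact h1 j hj
  · change γ (1, j) = 0
    rw [h3 j (by omega), h1 j hj, mul_zero]

/-- The strata off the lines. -/
theorem Dt.mu3_T1 (h : Dt R p r lP lA B m) {k i : ℕ} (hi : i < k + 1) :
    mu3 (k + 1) (ovr (mon (bin lP R p) (bin lA R r) B m) (k + 1) k (T1 (k + 1) i R)) =
      Lp (2 * i) * (1 - Lp 2 - (R.card : Mot) * (Lp 1 - Lp 2)) * wt1 m (i * mu R p r m) k := by
  rw [mu3_ovr_le h.hm (Nat.lt_succ_self k) (isConstr_T1 _ _ _)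
    (a := i * ∑ c ∈ R, p c) (b := i * ∑ c ∈ R, r c)
    (fun γ hγ => order_T1 h.hP hγ) (fun γ hγ => order_T1 h.hA hγ) (fun γ hγ => ?_),
    muN_T1 R hi]
  · congr 1
    unfold mu
    congr 1
    ring
  · refine le_trans ?_ (le_order h.hB hγ.1 hi.le)
    exact_mod_cast Nat.mul_le_mul_left i (Nat.le_succ _)

/-- The strata `ord (y - c x) = i + j`. -/
theorem Dt.mu3_T2 (h : Dt R p r lP lA B m) {c : ℂ} (hc : c ∈ R) {k i j : ℕ} (hj : 0 < j)
    (hij : j < k + 1 - i) :
    mu3 (k + 1) (ovr (mon (bin lP R p) (bin lA R r) B m) (k + 1) k (T2 (k + 1) i c j)) =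
      (if r c * j ≤ i then (1 - Lp 1) ^ 2 * Lp (2 * i + j) *
        wt1 m (i * mu R p r m + (p c + m * r c) * j) k else 0) +
      (if i < r c * j ∧ i * (mu R p r m + m) + p c * j = k then
        (1 - Lp 1) ^ 2 * Lp (2 * i + j) else 0) := by
  have hij' : i + j < k + 1 := by omega
  have hP : ∀ γ ∈ T2 (k + 1) i c j, (vl (bin lP R p) γ).order =
      ((i * ∑ c ∈ R, p c + p c * j : ℕ) : ℕ∞) := fun γ hγ => order_T2 h.hP hc hj hij' hγ
  have hA : ∀ γ ∈ T2 (k + 1) i c j, (vl (bin lA R r) γ).order =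
      ((i * ∑ c ∈ R, r c + r c * j : ℕ) : ℕ∞) := fun γ hγ => order_T2 h.hA hc hj hij' hγ
  by_cases hr : r c * j ≤ i
  · rw [if_pos hr, if_neg (fun h0 => absurd h0.1 (not_lt.2 hr)), add_zero,
      mu3_ovr_le h.hm (Nat.lt_succ_self k) (isConstr_T2 _ _ _ _) hP hA (fun γ hγ => ?_),
      muN_T2 c hij']
    · congr 1
      unfold mu
      congr 1
      ring
    · refine le_trans ?_ (le_order h.hB (T3_lt hj hγ.1) (by omega))
      have : i * ∑ c ∈ R, r c + r c * j ≤ i * (∑ c ∈ R, r c + 1) := by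
        rw [mul_add]
        omega
      exact_mod_cast this
  · rw [if_neg hr, zero_add]
    push Not at hr
    have hrc : 0 < r c := by
      rcases Nat.eq_zero_or_pos (r c) with h0 | h0
      · rw [h0, zero_mul] at hr
        exact absurd hr (Nat.not_lt_zero _)
      · exact h0
    rw [mu3_ovr_lt (Nat.lt_succ_self k) (isConstr_T2 _ _ _ _) hP
      (b := i * (∑ c ∈ R, r c + 1)) (fun γ hγ => order_B h.hB (h.hcop c hc hrc) hj hγ.1)
      (fun γ hγ => ?_), muN_T2 c hij']
    · congr 1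
      unfold mu
      rw [eq_iff_iff]
      constructor
      · rintro h1
        refine ⟨hr, ?_⟩
        rw [← h1]
        ring
      · rintro ⟨-, h1⟩
        rw [← h1]
        ring
    · rw [hA γ hγ]
      have : i * (∑ c ∈ R, r c + 1) < i * ∑ c ∈ R, r c + r c * j := by
        rw [mul_add]
        omega
      exact_mod_cast this

/-- The strata `y = c x` modulo `t^(k+1)`. -/
theorem Dt.mu3_T3 (h : Dt R p r lP lA B m) {c : ℂ} (hc : c ∈ R) {k i : ℕ} (hi : i < k + 1) :
    mu3 (k + 1) (ovr (mon (bin lP R p) (bin lA R r) B m) (k + 1) k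
      (T3 (k + 1) i c (k + 1 - i))) =
      if p c = 0 ∧ 0 < r c ∧ i * (mu R p r m + m) = k then (1 - Lp 1) * Lp (i + (k + 1))
        else 0 := by
  classical
  have hJ : 0 < k + 1 - i := by omega
  -- the linear form vanishes
  have hlin : ∀ γ ∈ T3 (k + 1) i c (k + 1 - i), arc γ 1 = PowerSeries.C c * arc γ 0 := by
    intro γ hγ
    unfold arc
    rw [Finset.mul_sum]
    refine Finset.sum_congr rfl fun j _ => ?_
    rw [hγ.2.2 j (by have := j.2; omega), map_mul, mul_assoc]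
  have hvan : ∀ (lam : ℂ) (s : ℂ → ℕ), 0 < s c → ∀ γ ∈ T3 (k + 1) i c (k + 1 - i),
      vl (bin lam R s) γ = 0 := by
    intro lam s hs γ hγ
    unfold vl bin
    have hC : (aeval (arc γ) (C c : MvPolynomial (Fin 2) ℂ) : PowerSeries ℂ) =
        PowerSeries.C c := by
      rw [aeval_C]
      rfl
    rw [map_mul, map_prod, ← Finset.mul_prod_erase _ _ hc, map_pow, map_sub, map_mul, aeval_X,
      aeval_X, hC, hlin γ hγ, sub_self, zero_pow hs.ne', zero_mul, mul_zero]
  by_cases hpc : p c = 0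
  · have hrc : 0 < r c := by
      have := h.hR c hc
      omega
    rw [mu3_ovr_lt (Nat.lt_succ_self k) (isConstr_T3 _ _ _ _)
      (a := i * ∑ c ∈ R, p c) (b := i * (∑ c ∈ R, r c + 1))
      (fun γ hγ => order_T3 h.hP hc hpc hJ hγ)
      (fun γ hγ => order_B h.hB (h.hcop c hc hrc) hJ hγ)
      (fun γ hγ => ?_), muN_T3 c hi (by omega)]
    · have e1 : 2 * i + (k + 1 - i) = i + (k + 1) := by omega
      rw [e1]
      congr 1
      unfold mu
      rw [eq_iff_iff]
      constructor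
      · rintro h1
        refine ⟨hpc, hrc, ?_⟩
        rw [← h1]
        ring
      · rintro ⟨-, -, h1⟩
        rw [← h1]
        ring
    · rw [hvan lA r hrc γ hγ, PowerSeries.order_zero]
      exact ENat.natCast_lt_top _
  · rw [if_neg (fun h0 => hpc h0.1)]
    have h1 : ovr (mon (bin lP R p) (bin lA R r) B m) (k + 1) k
        (T3 (k + 1) i c (k + 1 - i)) = ∅ := by
      rw [Set.eq_empty_iff_forall_notMem]
      rintro γ ⟨h2, h3⟩
      have h4 : (aeval (arc γ) (rename Fin.succ (bin lP R p)) : PowerSeries ℂ) = 0 := by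
        rw [Zaux.aeval_rename_succ]
        exact hvan lP p (Nat.pos_of_ne_zero hpc) _ h2
      have h5 : (aeval (arc γ) (mon (bin lP R p) (bin lA R r) B m) : PowerSeries ℂ).order =
          (k : ℕ∞) := h3
      unfold mon at h5
      rw [map_mul, h4, zero_mul, PowerSeries.order_zero] at h5
      exact ENat.top_ne_natCast k h5
    rw [h1]
    unfold mu3 clsM
    rw [cls_empty, map_zero, mul_zero]

/-- The coefficients of the zeta function. -/
theorem Zcoeff_eq (h : Dt R p r lP lA B m) (k : ℕ) :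
    Zcoeff (mon (bin lP R p) (bin lA R r) B m) k = g1 R p r m k +
      ∑ c ∈ R, (g2 (mu R p r m) (p c) (r c) m k + g3 (mu R p r m + m) (p c) (r c) k) := by
  have hμ : 0 < ∑ c ∈ R, p c + m * ∑ c ∈ R, r c := by
    obtain ⟨c, hc⟩ := h.hne
    have h1 := h.hR c hc
    have h2 := Finset.single_le_sum (f := p) (fun _ _ => Nat.zero_le _) hc
    have h3 := Finset.single_le_sum (f := r) (fun _ _ => Nat.zero_le _) hc
    have h4 := h.hm
    have h5 : ∑ c ∈ R, r c ≤ m * ∑ c ∈ R, r c := Nat.le_mul_of_pos_left _ h4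
    omega
  rw [Zcoeff_dec (bin_hom lP R p) (bin_hom lA R r) h.hB hμ R]
  congr 1
  · unfold g1
    exact Finset.sum_congr rfl fun i hi => h.mu3_T1 (Finset.mem_range.1 hi)
  · refine Finset.sum_congr rfl fun c hc => ?_
    unfold g2 g3
    rw [← Finset.sum_add_distrib]
    refine Finset.sum_congr rfl fun i hi => ?_
    have e1 : ∑ j ∈ Finset.Ico 1 (k + 1 - i),
        mu3 (k + 1) (ovr (mon (bin lP R p) (bin lA R r) B m) (k + 1) k (T2 (k + 1) i c j)) =
        ∑ j ∈ Finset.Ico 1 (k + 1 - i), (if r c * j ≤ i then (1 - Lp 1) ^ 2 * Lp (2 * i + j) *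
          wt1 m (i * mu R p r m + (p c + m * r c) * j) k else 0) +
        ∑ j ∈ Finset.Ico 1 (k + 1 - i),
          (if i < r c * j ∧ i * (mu R p r m + m) + p c * j = k then
            (1 - Lp 1) ^ 2 * Lp (2 * i + j) else 0) := by
      rw [← Finset.sum_add_distrib]
      refine Finset.sum_congr rfl fun j hj => ?_
      obtain ⟨h1, h2⟩ := Finset.mem_Ico.1 hj
      exact h.mu3_T2 hc h1 h2
    rw [h.mu3_T3 hc (Finset.mem_range.1 hi), e1, add_assoc]

end MN

end MPb07157
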