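import Pool.Agent.Lib.MP_b07157_agN1.Defs

/-!
# The strata of the arcs in the plane: orders of binary forms
-/

noncomputable section

namespace MPb07157

open MvPolynomial

namespace MN

open PC
open P1aux (Lp)

namespace PlOaux

theorem order_eq_nat {φ : PowerSeries ℂ} {n : ℕ} (h1 : PowerSeries.coeff n φ ≠ 0)
    (h2 : ∀ i, i < n → PowerSeries.coeff i φ = 0) : φ.order = (n : ℕ∞) :=
  PowerSeries.order_eq_nat.2 ⟨h1, h2⟩

theorem le_order {φ : PowerSeries ℂ} {n : ℕ}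
    (h2 : ∀ i, i < n → PowerSeries.coeff i φ = 0) : (n : ℕ∞) ≤ φ.order :=
  PowerSeries.nat_le_order _ _ h2

variable {N : ℕ} {γ : Fin 2 × Fin N → ℂ}

/-- The linear form `y - c x`. -/
def ln (γ : Fin 2 × Fin N → ℂ) (c : ℂ) : PowerSeries ℂ :=
  arc γ 1 - PowerSeries.C c * arc γ 0

theorem vl_bin (lam : ℂ) (R : Finset ℂ) (r : ℂ → ℕ) :
    vl (bin lam R r) γ = PowerSeries.C lam * ∏ c ∈ R, ln γ c ^ r c := by
  unfold vl bin ln
  rw [map_mul, map_prod, aeval_C]
  congr 1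
  refine Finset.prod_congr rfl fun c _ => ?_
  rw [map_pow, map_sub, map_mul, aeval_X, aeval_X, aeval_C]
  rfl

theorem order_C {lam : ℂ} (hlam : lam ≠ 0) : (PowerSeries.C lam : PowerSeries ℂ).order = 0 := by
  have := order_eq_nat (φ := PowerSeries.C lam) (n := 0) (by
    rw [PowerSeries.coeff_zero_C]
    exact hlam) (fun i hi => absurd hi (Nat.not_lt_zero i))
  simpa using this

theorem order_prod (R : Finset ℂ) (f : ℂ → PowerSeries ℂ) :
    (∏ c ∈ R, f c).order = ∑ c ∈ R, (f c).order := by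
  classical
  induction R using Finset.induction_on with
  | empty =>
    rw [Finset.prod_empty, Finset.sum_empty]
    exact PowerSeries.order_one
  | insert a s ha ih => rw [Finset.prod_insert ha, Finset.sum_insert ha, PowerSeries.order_mul, ih]

theorem coeff_ln (c : ℂ) (j : ℕ) : PowerSeries.coeff j (ln γ c) =
    if h : j < N then γ (1, ⟨j, h⟩) - c * γ (0, ⟨j, h⟩) else 0 := by
  unfold ln
  rw [map_sub, PowerSeries.coeff_C_mul, coeff_arc, coeff_arc]
  split_ifs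
  · rfl
  · simp

end PlOaux

open PlOaux

variable {N k J : ℕ} {R : Finset ℂ} {r : ℂ → ℕ} {lam : ℂ} {γ : Fin 2 × Fin N → ℂ}

theorem order_T1 (hlam : lam ≠ 0) (hγ : γ ∈ T1 N k R) :
    (vl (bin lam R r) γ).order = ((k * ∑ c ∈ R, r c : ℕ) : ℕ∞) := by
  obtain ⟨h1, hk, -, h3⟩ := hγ
  have h4 : ∀ c ∈ R, (ln γ c).order = (k : ℕ∞) := by
    intro c hc
    refine order_eq_nat ?_ ?_
    · rw [coeff_ln, dif_pos hk, sub_ne_zero]
      exact h3 c hc
    · intro i hi
      rw [coeff_ln]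
      split_ifs with h
      · rw [h1 1 ⟨i, h⟩ hi, h1 0 ⟨i, h⟩ hi, mul_zero, sub_zero]
      · rfl
  rw [vl_bin, PowerSeries.order_mul, order_C hlam, zero_add, order_prod, Finset.mul_sum]
  push_cast
  refine Finset.sum_congr rfl fun c hc => ?_
  rw [PowerSeries.order_pow, h4 c hc, nsmul_eq_mul, mul_comm]

/-- The order of `y - c x`. -/
theorem PlOaux.le_order_ln {c : ℂ} (hγ : γ ∈ T3 N k c J) :
    ((k + J : ℕ) : ℕ∞) ≤ (ln γ c).order := by
  refine PlOaux.le_order fun i hi => ?_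
  rw [coeff_ln]
  split_ifs with h
  · rw [hγ.2.2 ⟨i, h⟩ hi, sub_self]
  · rfl

/-- The order of `y - c' x`. -/
theorem PlOaux.order_ln_ne {c c' : ℂ} (hcc : c' ≠ c) (hJ : 0 < J) (hγ : γ ∈ T3 N k c J) :
    (ln γ c').order = (k : ℕ∞) := by
  obtain ⟨h1, ⟨hk, h2⟩, h3⟩ := hγ
  refine order_eq_nat ?_ ?_
  · rw [coeff_ln, dif_pos hk, h3 ⟨k, hk⟩ (show k < k + J by omega), ← sub_mul]
    exact mul_ne_zero (sub_ne_zero.2 hcc.symm) h2
  · intro i hi
    rw [coeff_ln]
    split_ifs with h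
    · rw [h3 ⟨i, h⟩ (show i < k + J by omega), h1 ⟨i, h⟩ hi, mul_zero, mul_zero, sub_zero]
    · rfl

theorem order_T2 (hlam : lam ≠ 0) {c : ℂ} (hc : c ∈ R) (hJ : 0 < J) (hJN : k + J < N)
    (hγ : γ ∈ T2 N k c J) :
    (vl (bin lam R r) γ).order = ((k * ∑ c ∈ R, r c + r c * J : ℕ) : ℕ∞) := by
  obtain ⟨hγ1, hγ2⟩ := hγ
  have h1 : (ln γ c).order = ((k + J : ℕ) : ℕ∞) := by
    refine order_eq_nat ?_ ?_
    · intro h
      apply hγ2
      refine ⟨hγ1.1, hγ1.2.1, fun j hj => ?_⟩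
      rcases Nat.lt_or_ge (j : ℕ) (k + J) with h' | h'
      · exact hγ1.2.2 j h'
      · have e : (j : ℕ) = k + J := by omega
        rw [coeff_ln, dif_pos hJN, sub_eq_zero] at h
        have ej : j = ⟨k + J, hJN⟩ := Fin.ext e
        rw [ej]
        exact h
    · intro i hi
      rw [coeff_ln]
      split_ifs with h
      · rw [hγ1.2.2 ⟨i, h⟩ hi, sub_self]
      · rfl
  rw [vl_bin, PowerSeries.order_mul, order_C hlam, zero_add, order_prod,
    ← Finset.add_sum_erase R _ hc, ← Finset.add_sum_erase R r hc, PowerSeries.order_pow, h1]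
  have h2 : ∑ x ∈ R.erase c, (ln γ x ^ r x).order = ((k * ∑ x ∈ R.erase c, r x : ℕ) : ℕ∞) := by
    rw [Finset.mul_sum]
    push_cast
    refine Finset.sum_congr rfl fun x hx => ?_
    rw [PowerSeries.order_pow, PlOaux.order_ln_ne (Finset.ne_of_mem_erase hx) hJ hγ1,
      nsmul_eq_mul, mul_comm]
  rw [h2, nsmul_eq_mul]
  have h3 : k * (r c + ∑ x ∈ R.erase c, r x) + r c * J =
      r c * (k + J) + k * ∑ x ∈ R.erase c, r x := by ring
  rw [h3]
  push_cast
  rfl

theorem le_order_T3 {c : ℂ} (hc : c ∈ R) (hJ : 0 < J) (hJN : k + J ≤ N)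
    (hγ : γ ∈ T3 N k c J) :
    ((k * ∑ c ∈ R, r c + r c * J : ℕ) : ℕ∞) ≤ (vl (bin lam R r) γ).order := by
  rw [vl_bin, PowerSeries.order_mul, order_prod,
    ← Finset.add_sum_erase R (fun c => (ln γ c ^ r c).order) hc,
    ← Finset.add_sum_erase R r hc, PowerSeries.order_pow]
  have h2 : ∑ x ∈ R.erase c, (ln γ x ^ r x).order = ((k * ∑ x ∈ R.erase c, r x : ℕ) : ℕ∞) := by
    rw [Finset.mul_sum]
    push_cast
    refine Finset.sum_congr rfl fun x hx => ?_
    rw [PowerSeries.order_pow, PlOaux.order_ln_ne (Finset.ne_of_mem_erase hx) hJ hγ,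
      nsmul_eq_mul, mul_comm]
  have h3 : k * (r c + ∑ x ∈ R.erase c, r x) + r c * J =
      r c * (k + J) + k * ∑ x ∈ R.erase c, r x := by ring
  rw [h2, h3, nsmul_eq_mul, Nat.cast_add, Nat.cast_mul]
  refine le_trans ?_ (le_add_of_nonneg_left bot_le)
  exact add_le_add (mul_le_mul_right (PlOaux.le_order_ln hγ) _) le_rfl

theorem order_T3 (hlam : lam ≠ 0) {c : ℂ} (hc : c ∈ R) (hr : r c = 0) (hJ : 0 < J)
    (hγ : γ ∈ T3 N k c J) :
    (vl (bin lam R r) γ).order = ((k * ∑ c ∈ R, r c : ℕ) : ℕ∞) := by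
  rw [vl_bin, PowerSeries.order_mul, order_C hlam, zero_add, order_prod, Finset.mul_sum]
  push_cast
  refine Finset.sum_congr rfl fun x _ => ?_
  by_cases hx : x = c
  · rw [hx, hr, pow_zero, Nat.cast_zero, mul_zero]
    exact PowerSeries.order_one
  · rw [PowerSeries.order_pow, PlOaux.order_ln_ne hx hJ hγ, nsmul_eq_mul, mul_comm]

/-- Homogeneity. -/
theorem PlOaux.vl_homog {B : MvPolynomial (Fin 2) ℂ} {E : ℕ} (hB : B.IsHomogeneous E)
    (s : PowerSeries ℂ) (x : Fin 2 → PowerSeries ℂ) :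
    (aeval (fun i => s * x i) B : PowerSeries ℂ) = s ^ E * aeval x B := by
  rw [aeval_def, aeval_def, eval₂_eq', eval₂_eq', Finset.mul_sum]
  refine Finset.sum_congr rfl fun v hv => ?_
  have h1 : ∑ i, v i = E := by
    have h2 := hB (mem_support_iff.1 hv)
    rw [← h2, Finsupp.weight_apply, Finsupp.sum_fintype _ _ (by simp)]
    simp
  have h3 : ∏ i, (s * x i) ^ v i = s ^ E * ∏ i, x i ^ v i := by
    rw [← h1, ← Finset.prod_pow_eq_pow_sum, ← Finset.prod_mul_distrib]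
    exact Finset.prod_congr rfl fun i _ => mul_pow _ _ _
  rw [h3]
  ring

/-- Division by `t^k`. -/
theorem PlOaux.exists_div (hγ : ∀ i, ∀ j : Fin N, (j : ℕ) < k → γ (i, j) = 0) :
    ∃ x : Fin 2 → PowerSeries ℂ, ∀ i, arc γ i = PowerSeries.X ^ k * x i := by
  have h : ∀ i, ∃ x : PowerSeries ℂ, arc γ i = PowerSeries.X ^ k * x := by
    intro i
    have : (PowerSeries.X : PowerSeries ℂ) ^ k ∣ arc γ i := by
      rw [PowerSeries.X_pow_dvd_iff]
      intro j hj
      exact P1aux.coeff_arc_eq_zero (hγ i) j hj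
    exact this
  choose x hx using h
  exact ⟨x, hx⟩

/-- All coefficients of degree `< k` vanish. -/
theorem le_order {B : MvPolynomial (Fin 2) ℂ} {E : ℕ} (hB : B.IsHomogeneous E)
    (hγ : ∀ i, ∀ j : Fin N, (j : ℕ) < k → γ (i, j) = 0) (hk : k ≤ N) :
    ((k * E : ℕ) : ℕ∞) ≤ (vl B γ).order := by
  obtain ⟨x, hx⟩ := PlOaux.exists_div hγ
  have h1 : vl B γ = (PowerSeries.X ^ k) ^ E * aeval x B := by
    rw [← PlOaux.vl_homog hB]
    unfold vl
    congr 2
    funext i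
    exact hx i
  rw [h1, ← pow_mul, PowerSeries.order_mul, PowerSeries.order_X_pow]
  exact le_add_of_nonneg_right bot_le

theorem order_B {B : MvPolynomial (Fin 2) ℂ} {E : ℕ} (hB : B.IsHomogeneous E) {c : ℂ}
    (hBc : eval ![1, c] B ≠ 0) (hJ : 0 < J) (hγ : γ ∈ T3 N k c J) :
    (vl B γ).order = ((k * E : ℕ) : ℕ∞) := by
  obtain ⟨g1, ⟨hk, g2⟩, g3⟩ := hγ
  have hz : ∀ i, ∀ j : Fin N, (j : ℕ) < k → γ (i, j) = 0 := by
    intro i j hj
    fin_cases i
    · exact g1 j hj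
    · show γ (1, j) = 0
      rw [g3 j (by omega), g1 j hj, mul_zero]
  obtain ⟨x, hx⟩ := PlOaux.exists_div hz
  have h1 : vl B γ = (PowerSeries.X ^ k) ^ E * aeval x B := by
    rw [← PlOaux.vl_homog hB]
    unfold vl
    congr 2
    funext i
    exact hx i
  have hc0 : ∀ i, PowerSeries.coeff 0 (x i) = γ (i, ⟨k, hk⟩) := by
    intro i
    have h2 := congrArg (PowerSeries.coeff k) (hx i)
    rw [coeff_arc, dif_pos hk] at h2
    have h3 := PowerSeries.coeff_X_pow_mul (x i) k 0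
    rw [zero_add] at h3
    rw [h3] at h2
    exact h2.symm
  have h4 : PowerSeries.coeff 0 (aeval x B : PowerSeries ℂ) =
      eval (fun i => γ (i, ⟨k, hk⟩)) B := by
    have h5 : (PowerSeries.constantCoeff (R := ℂ)).comp
        ((aeval x : MvPolynomial (Fin 2) ℂ →ₐ[ℂ] PowerSeries ℂ) :
          MvPolynomial (Fin 2) ℂ →+* PowerSeries ℂ) =
        (eval (fun i => γ (i, ⟨k, hk⟩)) : MvPolynomial (Fin 2) ℂ →+* ℂ) := by
      refine MvPolynomial.ringHom_ext (fun a => ?_) (fun i => ?_)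
      · rw [RingHom.comp_apply, RingHom.coe_coe, aeval_C, eval_C]
        exact PowerSeries.constantCoeff_C a
      · rw [RingHom.comp_apply, RingHom.coe_coe, aeval_X, eval_X, ← hc0 i,
          PowerSeries.coeff_zero_eq_constantCoeff_apply]
    rw [PowerSeries.coeff_zero_eq_constantCoeff_apply]
    exact congrArg (fun φ => φ B) h5
  have h6 : eval (fun i => γ (i, ⟨k, hk⟩)) B = γ (0, ⟨k, hk⟩) ^ E * eval ![1, c] B := by
    have e : (fun i => γ (i, ⟨k, hk⟩)) = fun i => γ (0, ⟨k, hk⟩) * (![1, c] : Fin 2 → ℂ) i := by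
      funext i
      fin_cases i
      · show γ (0, ⟨k, hk⟩) = γ (0, ⟨k, hk⟩) * 1
        rw [mul_one]
      · show γ (1, ⟨k, hk⟩) = γ (0, ⟨k, hk⟩) * c
        rw [g3 ⟨k, hk⟩ (show k < k + J by omega), mul_comm]
    rw [e, eval_eq', eval_eq', Finset.mul_sum]
    refine Finset.sum_congr rfl fun v hv => ?_
    have h1 : ∑ i, v i = E := by
      have h2 := hB (mem_support_iff.1 hv)
      rw [← h2, Finsupp.weight_apply, Finsupp.sum_fintype _ _ (by simp)]
      simp
    have h3 : ∏ i, (γ (0, ⟨k, hk⟩) * (![1, c] : Fin 2 → ℂ) i) ^ v i =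
        γ (0, ⟨k, hk⟩) ^ E * ∏ i, (![1, c] : Fin 2 → ℂ) i ^ v i := by
      rw [← h1, ← Finset.prod_pow_eq_pow_sum, ← Finset.prod_mul_distrib]
      exact Finset.prod_congr rfl fun i _ => mul_pow _ _ _
    rw [h3]
    ring
  have h7 : (aeval x B : PowerSeries ℂ).order = 0 := by
    have := order_eq_nat (φ := (aeval x B : PowerSeries ℂ)) (n := 0) (by
      rw [h4, h6]
      exact mul_ne_zero (pow_ne_zero _ g2) hBc) (fun i hi => absurd hi (Nat.not_lt_zero i))
    simpa using this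
  rw [h1, ← pow_mul, PowerSeries.order_mul, PowerSeries.order_X_pow, h7, add_zero]

end MN

end MPb07157
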