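import Pool.Agent.Lib.MP_b07157_agN1.PlM
import Pool.Agent.Lib.MP_b07157_agN1.PlO

/-!
# The decomposition of the arcs according to the direction of `(x, y)`
-/

noncomputable section

namespace MPb07157

open MvPolynomial

namespace MN

open PC
open P1aux (Lp)

theorem isConstr_ovr (f : MvPolynomial (Fin 3) ℂ) (N k : ℕ) {S : Set (Fin 2 × Fin N → ℂ)}
    (hS : IsConstr S) : IsConstr (ovr f N k S) :=
  isConstr_setOf_and
    (hS.reindex fun q : Fin 2 × Fin N => ((q.1.succ, q.2) : Fin 3 × Fin N))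
    (isConstr_arcs f N k)

/-- The arcs with `x = y = 0` modulo `t^N` do not contribute. -/
theorem not_mem_arcs {P A B : MvPolynomial (Fin 2) ℂ} {m q e N k : ℕ} (hk : k < N)
    (hP : P.IsHomogeneous q) (hA : A.IsHomogeneous e) (hB : B.IsHomogeneous (e + 1))
    (hμ : 0 < q + m * e) {γ : Fin 3 × Fin N → ℂ} (hγ : ∀ i j, pJ γ (i, j) = 0) :
    γ ∉ arcs (mon P A B m) N k := by
  have h0 : ∀ i : Fin 2, arc γ i.succ = 0 := fun i => by
    unfold arc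
    refine Finset.sum_eq_zero fun j _ => ?_
    have : γ (i.succ, j) = 0 := hγ i j
    rw [this, map_zero, zero_mul]
  have hv : ∀ {E : ℕ} {F : MvPolynomial (Fin 2) ℂ}, F.IsHomogeneous E → 0 < E →
      aeval (arc γ) (rename Fin.succ F) = 0 := by
    intro E F hF hE
    rw [aeval_rename, aeval_def, eval₂_eq']
    refine Finset.sum_eq_zero fun d hd => ?_
    have hne : d ≠ 0 := by
      rintro rfl
      have h1 := hF (mem_support_iff.1 hd)
      rw [map_zero] at h1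
      omega
    obtain ⟨i, hi⟩ := Finsupp.ne_iff.1 hne
    rw [Finset.prod_eq_zero (Finset.mem_univ i), mul_zero]
    rw [Function.comp_apply, h0, zero_pow hi]
  have h1 : aeval (arc γ) (mon P A B m) = (0 : PowerSeries ℂ) := by
    unfold mon
    rw [map_mul, map_pow, map_add, map_mul]
    rcases Nat.eq_zero_or_pos q with hq | hq
    · have hm : m ≠ 0 := by
        rintro rfl
        omega
      have he : 0 < e := by
        rcases Nat.eq_zero_or_pos e with he | he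
        · subst he
          omega
        · exact he
      rw [hv hA he, hv hB (Nat.succ_pos e), mul_zero, add_zero, zero_pow hm, mul_zero]
    · rw [hv hP hq, zero_mul]
  intro h
  have h2 : (aeval (arc γ) (mon P A B m) : PowerSeries ℂ).order = k := h
  rw [h1, PowerSeries.order_zero] at h2
  exact absurd h2 (by simp)

namespace DecAux

theorem T3_anti {N k J J' : ℕ} {c : ℂ} (hJ : J ≤ J') {γ : Fin 2 × Fin N → ℂ}
    (h : γ ∈ T3 N k c J') : γ ∈ T3 N k c J :=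
  ⟨h.1, h.2.1, fun j hj => h.2.2 j (by omega)⟩

/-- The leading vector is `(x, c x)`. -/
theorem T3_lead {N k J : ℕ} {c : ℂ} (hJ : 0 < J) {γ : Fin 2 × Fin N → ℂ}
    (h : γ ∈ T3 N k c J) : (∀ i, ∀ j : Fin N, (j : ℕ) < k → γ (i, j) = 0) ∧
      ∃ h : k < N, γ (0, ⟨k, h⟩) ≠ 0 ∧ γ (1, ⟨k, h⟩) = c * γ (0, ⟨k, h⟩) := by
  obtain ⟨h1, ⟨h2, h3⟩, h4⟩ := h
  refine ⟨fun i j hj => ?_, h2, h3, h4 _ (by simp; omega)⟩
  fin_cases i
  · exact h1 j hj
  · have h5 := h4 j (by omega)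
    rw [h1 j hj, mul_zero] at h5
    exact h5

theorem T2_sub {N k J : ℕ} {c : ℂ} {γ : Fin 2 × Fin N → ℂ} (h : γ ∈ T2 N k c J) :
    γ ∈ T3 N k c J := h.1

/-- The leading index is unique. -/
theorem lead_eq {N k k' : ℕ} {γ : Fin 2 × Fin N → ℂ}
    (h1 : ∀ i, ∀ j : Fin N, (j : ℕ) < k → γ (i, j) = 0)
    (h2 : ∃ h : k < N, γ (0, ⟨k, h⟩) ≠ 0 ∨ γ (1, ⟨k, h⟩) ≠ 0)
    (h1' : ∀ i, ∀ j : Fin N, (j : ℕ) < k' → γ (i, j) = 0)
    (h2' : ∃ h : k' < N, γ (0, ⟨k', h⟩) ≠ 0 ∨ γ (1, ⟨k', h⟩) ≠ 0) : k = k' := by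
  obtain ⟨h, h3⟩ := h2
  obtain ⟨h', h3'⟩ := h2'
  rcases lt_trichotomy k k' with hl | hl | hl
  · rcases h3 with h3 | h3
    · exact (h3 (h1' 0 ⟨k, h⟩ hl)).elim
    · exact (h3 (h1' 1 ⟨k, h⟩ hl)).elim
  · exact hl
  · rcases h3' with h3' | h3'
    · exact (h3' (h1 0 ⟨k', h'⟩ hl)).elim
    · exact (h3' (h1 1 ⟨k', h'⟩ hl)).elim

theorem T1_T1 {N k k' : ℕ} {R : Finset ℂ} {γ : Fin 2 × Fin N → ℂ} (h : γ ∈ T1 N k R)
    (h' : γ ∈ T1 N k' R) : k = k' := by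
  obtain ⟨h1, h2, h3, -⟩ := h
  obtain ⟨h1', h2', h3', -⟩ := h'
  exact lead_eq h1 ⟨h2, h3⟩ h1' ⟨h2', h3'⟩

theorem T1_T3 {N k k' J : ℕ} {R : Finset ℂ} {c : ℂ} {γ : Fin 2 × Fin N → ℂ} (hc : c ∈ R)
    (hJ : 0 < J) (h : γ ∈ T1 N k R) (h' : γ ∈ T3 N k' c J) : False := by
  obtain ⟨h1, h2, h3, h4⟩ := h
  obtain ⟨h1', h2', h3', h4'⟩ := T3_lead hJ h'
  obtain rfl := lead_eq h1 ⟨h2, h3⟩ h1' ⟨h2', Or.inl h3'⟩
  exact h4 c hc h4'

theorem T3_T3 {N k k' J J' : ℕ} {c c' : ℂ} {γ : Fin 2 × Fin N → ℂ}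
    (hJ : 0 < J) (hJ' : 0 < J') (h : γ ∈ T3 N k c J) (h' : γ ∈ T3 N k' c' J') :
    k = k' ∧ c = c' := by
  obtain ⟨h1, h2, h3, h4⟩ := T3_lead hJ h
  obtain ⟨h1', h2', h3', h4'⟩ := T3_lead hJ' h'
  obtain rfl := lead_eq h1 ⟨h2, Or.inl h3⟩ h1' ⟨h2', Or.inl h3'⟩
  refine ⟨rfl, mul_right_cancel₀ h3 ?_⟩
  rw [← h4, ← h4']

/-- All arcs with `(x, y) ≠ 0` are covered. -/
theorem cover {N : ℕ} (R : Finset ℂ) {γ : Fin 2 × Fin N → ℂ} (h : ¬ ∀ i j, γ (i, j) = 0) :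
    ∃ k < N, γ ∈ T1 N k R ∨ ∃ c ∈ R, (∃ J, 1 ≤ J ∧ J < N - k ∧ γ ∈ T2 N k c J) ∨
      γ ∈ T3 N k c (N - k) := by
  classical
  have hex : ∃ k, ∃ h : k < N, γ (0, ⟨k, h⟩) ≠ 0 ∨ γ (1, ⟨k, h⟩) ≠ 0 := by
    push Not at h
    obtain ⟨i, j, hij⟩ := h
    refine ⟨j, j.2, ?_⟩
    fin_cases i
    · exact Or.inl hij
    · exact Or.inr hij
  obtain ⟨hk, h1⟩ := Nat.find_spec hex
  have hmin : ∀ j : Fin N, (j : ℕ) < Nat.find hex → γ (0, j) = 0 ∧ γ (1, j) = 0 := by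
    intro j hj
    have h2 := Nat.find_min hex hj
    push Not at h2
    exact h2 j.2
  generalize Nat.find hex = k at hk h1 hmin
  have hmin' : ∀ i, ∀ j : Fin N, (j : ℕ) < k → γ (i, j) = 0 := by
    intro i j hj
    fin_cases i
    · exact (hmin j hj).1
    · exact (hmin j hj).2
  refine ⟨k, hk, ?_⟩
  by_cases hR : ∀ c ∈ R, γ (1, ⟨k, hk⟩) ≠ c * γ (0, ⟨k, hk⟩)
  · exact Or.inl ⟨hmin', hk, h1, hR⟩
  right
  push Not at hR
  obtain ⟨c, hc, hcR⟩ := hR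
  refine ⟨c, hc, ?_⟩
  have hx : γ (0, ⟨k, hk⟩) ≠ 0 := by
    intro h0
    rw [h0, mul_zero] at hcR
    rcases h1 with h1 | h1
    · exact h1 h0
    · exact h1 hcR
  by_cases hall : γ ∈ T3 N k c (N - k)
  · exact Or.inr hall
  left
  have hex2 : ∃ J, γ ∉ T3 N k c J := ⟨_, hall⟩
  have h3 := Nat.find_spec hex2
  have h4 : ∀ J, J < Nat.find hex2 → γ ∈ T3 N k c J := fun J hJ => not_not.1 (Nat.find_min hex2 hJ)
  have h5 := Nat.find_min' hex2 hall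
  generalize Nat.find hex2 = M at h3 h4 h5
  have h6 : γ ∈ T3 N k c 1 := by
    refine ⟨fun j hj => (hmin j hj).1, ⟨hk, hx⟩, fun j hj => ?_⟩
    rcases Nat.lt_succ_iff_lt_or_eq.1 hj with hj | hj
    · rw [(hmin j hj).1, (hmin j hj).2, mul_zero]
    · have : j = ⟨k, hk⟩ := Fin.ext hj
      rw [this]
      exact hcR
  have h7 : 1 < M := by
    by_contra h8
    exact h3 (T3_anti (by omega) h6)
  obtain ⟨J, rfl⟩ : ∃ J, M = J + 1 := ⟨M - 1, by omega⟩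
  exact ⟨J, by omega, by omega, h4 J (by omega), h3⟩

section

variable {f : MvPolynomial (Fin 3) ℂ} {N k : ℕ}

theorem mu3_union {S T : Set (Fin 2 × Fin N → ℂ)} (hS : IsConstr S) (hT : IsConstr T)
    (h : Disjoint S T) :
    mu3 N (ovr f N k (S ∪ T)) = mu3 N (ovr f N k S) + mu3 N (ovr f N k T) := by
  have e : ovr f N k (S ∪ T) = ovr f N k S ∪ ovr f N k T := by
    ext γ
    simp only [ovr, Set.mem_ofPred_eq, Set.mem_union]
    tauto
  unfold mu3 clsM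
  rw [e, cls_union (isConstr_ovr f N k hS) (isConstr_ovr f N k hT), map_add, mul_add]
  rw [Set.disjoint_left] at h ⊢
  exact fun γ h1 h2 => h h1.1 h2.1

theorem mu3_biUnion {α : Type*} (s : Finset α) (S : α → Set (Fin 2 × Fin N → ℂ))
    (h : ∀ i ∈ s, IsConstr (S i)) (hd : ∀ i ∈ s, ∀ j ∈ s, i ≠ j → Disjoint (S i) (S j)) :
    mu3 N (ovr f N k (⋃ i ∈ s, S i)) = ∑ i ∈ s, mu3 N (ovr f N k (S i)) := by
  have e : ovr f N k (⋃ i ∈ s, S i) = ⋃ i ∈ s, ovr f N k (S i) := by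
    ext γ
    simp only [ovr, Set.mem_ofPred_eq, Set.mem_iUnion, exists_prop]
    constructor
    · rintro ⟨⟨i, h1, h2⟩, h3⟩
      exact ⟨i, h1, h2, h3⟩
    · rintro ⟨i, h1, h2, h3⟩
      exact ⟨⟨i, h1, h2⟩, h3⟩
  unfold mu3 clsM
  rw [e, cls_biUnion s _ (fun i hi => isConstr_ovr f N k (h i hi)), map_sum, Finset.mul_sum]
  intro i hi j hj hij
  have h1 := hd i hi j hj hij
  rw [Set.disjoint_left] at h1 ⊢
  exact fun γ h2 h3 => h1 h2.1 h3.1

end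

end DecAux

open DecAux in
/-- The decomposition. -/
theorem Zcoeff_dec {P A B : MvPolynomial (Fin 2) ℂ} {m q e k : ℕ}
    (hP : P.IsHomogeneous q) (hA : A.IsHomogeneous e) (hB : B.IsHomogeneous (e + 1))
    (hμ : 0 < q + m * e) (R : Finset ℂ) :
    Zcoeff (mon P A B m) k =
      ∑ i ∈ Finset.range (k + 1), mu3 (k + 1) (ovr (mon P A B m) (k + 1) k (T1 (k + 1) i R)) +
      ∑ c ∈ R, ∑ i ∈ Finset.range (k + 1),
        ((∑ j ∈ Finset.Ico 1 (k + 1 - i),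
          mu3 (k + 1) (ovr (mon P A B m) (k + 1) k (T2 (k + 1) i c j))) +
          mu3 (k + 1) (ovr (mon P A B m) (k + 1) k (T3 (k + 1) i c (k + 1 - i)))) := by
  set f := mon P A B m with hf
  set U2 : ℂ → ℕ → Set (Fin 2 × Fin (k + 1) → ℂ) := fun c i =>
    ⋃ j ∈ Finset.Ico 1 (k + 1 - i), T2 (k + 1) i c j with hU2
  set U : ℂ → ℕ → Set (Fin 2 × Fin (k + 1) → ℂ) := fun c i =>
    U2 c i ∪ T3 (k + 1) i c (k + 1 - i) with hU
  have cU2 : ∀ c i, IsConstr (U2 c i) := fun c i =>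
    isConstr_biUnion _ _ fun j _ => isConstr_T2 _ _ _ _
  have cU : ∀ c i, IsConstr (U c i) := fun c i => (cU2 c i).union (isConstr_T3 _ _ _ _)
  have mU2 : ∀ {c i γ}, γ ∈ U2 c i → ∃ j, 1 ≤ j ∧ j < k + 1 - i ∧ γ ∈ T2 (k + 1) i c j := by
    intro c i γ h
    simp only [hU2, Set.mem_iUnion, Finset.mem_Ico, exists_prop] at h
    obtain ⟨j, ⟨h1, h2⟩, h3⟩ := h
    exact ⟨j, h1, h2, h3⟩
  have mU : ∀ {c i γ}, i < k + 1 → γ ∈ U c i → γ ∈ T3 (k + 1) i c 1 := by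
    intro c i γ hi h
    rcases h with h | h
    · obtain ⟨j, h1, h2, h3⟩ := mU2 h
      exact T3_anti h1 (T2_sub h3)
    · exact T3_anti (by omega) h
  have e1 : mu3 (k + 1) (ovr f (k + 1) k (⋃ i ∈ Finset.range (k + 1), T1 (k + 1) i R)) =
      ∑ i ∈ Finset.range (k + 1), mu3 (k + 1) (ovr f (k + 1) k (T1 (k + 1) i R)) :=
    mu3_biUnion _ _ (fun i _ => isConstr_T1 _ _ _) fun i _ j _ hij =>
      Set.disjoint_left.2 fun γ h1 h2 => hij (T1_T1 h1 h2)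
  have e2 : ∀ c i, i < k + 1 → mu3 (k + 1) (ovr f (k + 1) k (U c i)) =
      (∑ j ∈ Finset.Ico 1 (k + 1 - i), mu3 (k + 1) (ovr f (k + 1) k (T2 (k + 1) i c j))) +
        mu3 (k + 1) (ovr f (k + 1) k (T3 (k + 1) i c (k + 1 - i))) := by
    intro c i hi
    rw [hU]
    simp only
    rw [mu3_union (cU2 c i) (isConstr_T3 _ _ _ _), hU2]
    · simp only
      rw [mu3_biUnion _ _ (fun j _ => isConstr_T2 _ _ _ _)]
      intro j hj j' hj' hne
      rw [Set.disjoint_left]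
      intro γ h1 h2
      rcases lt_or_gt_of_ne hne with hl | hl
      · exact h1.2 (T3_anti hl (T2_sub h2))
      · exact h2.2 (T3_anti hl (T2_sub h1))
    · rw [Set.disjoint_left]
      intro γ h1 h2
      obtain ⟨j, h3, h4, h5⟩ := mU2 h1
      exact h5.2 (T3_anti (by omega) h2)
  have e3 : ∀ c, mu3 (k + 1) (ovr f (k + 1) k (⋃ i ∈ Finset.range (k + 1), U c i)) =
      ∑ i ∈ Finset.range (k + 1), mu3 (k + 1) (ovr f (k + 1) k (U c i)) := fun c =>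
    mu3_biUnion _ _ (fun i _ => cU c i) fun i hi j hj hij =>
      Set.disjoint_left.2 fun γ h1 h2 =>
        hij (T3_T3 Nat.one_pos Nat.one_pos (mU (Finset.mem_range.1 hi) h1)
          (mU (Finset.mem_range.1 hj) h2)).1
  have e4 : mu3 (k + 1) (ovr f (k + 1) k (⋃ c ∈ R, ⋃ i ∈ Finset.range (k + 1), U c i)) =
      ∑ c ∈ R, mu3 (k + 1) (ovr f (k + 1) k (⋃ i ∈ Finset.range (k + 1), U c i)) := by
    refine mu3_biUnion _ _ (fun c _ => isConstr_biUnion _ _ fun i _ => cU c i)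
      fun c _ c' _ hcc => Set.disjoint_left.2 fun γ h1 h2 => ?_
    simp only [Set.mem_iUnion, Finset.mem_range, exists_prop] at h1 h2
    obtain ⟨i, h3, h4⟩ := h1
    obtain ⟨j, h5, h6⟩ := h2
    exact hcc (T3_T3 Nat.one_pos Nat.one_pos (mU h3 h4) (mU h5 h6)).2
  have e5 : mu3 (k + 1) (ovr f (k + 1) k ((⋃ i ∈ Finset.range (k + 1), T1 (k + 1) i R) ∪
      ⋃ c ∈ R, ⋃ i ∈ Finset.range (k + 1), U c i)) = Zcoeff f k := by
    have e6 : ovr f (k + 1) k ((⋃ i ∈ Finset.range (k + 1), T1 (k + 1) i R) ∪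
        ⋃ c ∈ R, ⋃ i ∈ Finset.range (k + 1), U c i) = arcs f (k + 1) k := by
      ext γ
      refine ⟨fun h => h.2, fun h => ⟨?_, h⟩⟩
      have h1 : ¬ ∀ i j, pJ γ (i, j) = 0 := fun h2 =>
        not_mem_arcs (Nat.lt_succ_self k) hP hA hB hμ h2 h
      obtain ⟨i, hi, h2 | ⟨c, hc, h2⟩⟩ := cover R h1
      · left
        simp only [Set.mem_iUnion, Finset.mem_range, exists_prop]
        exact ⟨i, hi, h2⟩
      · right
        simp only [Set.mem_iUnion, Finset.mem_range, exists_prop]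
        refine ⟨c, hc, i, hi, ?_⟩
        rcases h2 with ⟨J, h3, h4, h5⟩ | h2
        · left
          simp only [hU2, Set.mem_iUnion, Finset.mem_Ico, exists_prop]
          exact ⟨J, ⟨h3, h4⟩, h5⟩
        · exact Or.inr h2
    rw [e6]
    rfl
  rw [← e5, mu3_union (isConstr_biUnion _ _ fun i _ => isConstr_T1 _ _ _)
    (isConstr_biUnion _ _ fun c _ => isConstr_biUnion _ _ fun i _ => cU c i), e1, e4]
  · congr 1
    refine Finset.sum_congr rfl fun c _ => ?_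
    rw [e3]
    exact Finset.sum_congr rfl fun i hi => e2 c i (Finset.mem_range.1 hi)
  · rw [Set.disjoint_left]
    intro γ h1 h2
    simp only [Set.mem_iUnion, Finset.mem_range, exists_prop] at h1 h2
    obtain ⟨i, h3, h4⟩ := h1
    obtain ⟨c, h5, j, h6, h7⟩ := h2
    exact T1_T3 h5 Nat.one_pos h4 (mU h6 h7)

end MN

end MPb07157
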