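import Pool.Agent.Lib.MP_b07157_agV.P1

/-!
# Homogeneous polynomials `P(x, y) (z A(x, y) + B(x, y))^m`: definitions

All curves `C` in the plane with a point `p = (1 : 0 : 0)` such that a general line through `p` meets
`C` in exactly one point outside `p`. The coordinates are `z = X 0`, `x = X 1`, `y = X 2`.
-/

noncomputable section

namespace MPb07157

open MvPolynomial

namespace MN

open PC
open P1aux (Lp)

/-- `P(x, y) (z A(x, y) + B(x, y))^m`. -/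
def mon (P A B : MvPolynomial (Fin 2) ℂ) (m : ℕ) : MvPolynomial (Fin 3) ℂ :=
  rename Fin.succ P * (X 0 * rename Fin.succ A + rename Fin.succ B) ^ m

/-- The binary form `lam ∏_{c ∈ R} (y - c x)^{r_c}`. -/
def bin (lam : ℂ) (R : Finset ℂ) (r : ℂ → ℕ) : MvPolynomial (Fin 2) ℂ :=
  C lam * ∏ c ∈ R, (X 1 - C c * X 0) ^ r c

/-- The data: `P = lP ∏ (y - c x)^{p_c}`, `A = lA ∏ (y - c x)^{r_c}`, `B` is homogeneous of degree
`deg A + 1` and has no common factor with `A`. -/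
structure Dt (R : Finset ℂ) (p r : ℂ → ℕ) (lP lA : ℂ) (B : MvPolynomial (Fin 2) ℂ) (m : ℕ) :
    Prop where
  hP : lP ≠ 0
  hA : lA ≠ 0
  hm : 0 < m
  hB : B.IsHomogeneous (∑ c ∈ R, r c + 1)
  hcop : ∀ c ∈ R, 0 < r c → eval ![1, c] B ≠ 0
  hR : ∀ c ∈ R, 0 < p c + r c
  hne : R.Nonempty

/-- The multiplicity `deg P + m deg A` of the point `p`. -/
def mu (R : Finset ℂ) (p r : ℂ → ℕ) (m : ℕ) : ℕ := ∑ c ∈ R, p c + m * ∑ c ∈ R, r c

/-! ### Jets -/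

/-- The value at a truncated arc in the plane. -/
def vl (F : MvPolynomial (Fin 2) ℂ) {N : ℕ} (γ : Fin 2 × Fin N → ℂ) : PowerSeries ℂ :=
  aeval (arc γ) F

/-- The `(x, y)`-part of a jet. -/
def pJ {N : ℕ} (γ : Fin 3 × Fin N → ℂ) : Fin 2 × Fin N → ℂ := fun q => γ (q.1.succ, q.2)

/-- The jets over `S` with `ord f = k`. -/
def ovr (f : MvPolynomial (Fin 3) ℂ) (N k : ℕ) (S : Set (Fin 2 × Fin N → ℂ)) :
    Set (Fin 3 × Fin N → ℂ) := {γ | pJ γ ∈ S ∧ γ ∈ arcs f N k}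

/-- The measure of a set of jets. -/
def mu3 (N : ℕ) (W : Set (Fin 3 × Fin N → ℂ)) : Mot := ↑((LU ^ (3 * N))⁻¹) * clsM W

/-- The measure of the arcs `z` with `a + m ord z = k`. -/
def wt1 (m a k : ℕ) : Mot := if a ≤ k ∧ m ∣ (k - a) then (1 - Lp 1) * Lp ((k - a) / m) else 0

/-- Leading vector in degree `k`, not on the lines `y = c x`, `c ∈ R`. -/
def T1 (N k : ℕ) (R : Finset ℂ) : Set (Fin 2 × Fin N → ℂ) :=
  {γ | (∀ i, ∀ j : Fin N, (j : ℕ) < k → γ (i, j) = 0) ∧ ∃ h : k < N,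
    (γ (0, ⟨k, h⟩) ≠ 0 ∨ γ (1, ⟨k, h⟩) ≠ 0) ∧ ∀ c ∈ R, γ (1, ⟨k, h⟩) ≠ c * γ (0, ⟨k, h⟩)}

/-- `ord x = k` and `ord (y - c x) ≥ k + J`. -/
def T3 (N k : ℕ) (c : ℂ) (J : ℕ) : Set (Fin 2 × Fin N → ℂ) :=
  {γ | (∀ j : Fin N, (j : ℕ) < k → γ (0, j) = 0) ∧ (∃ h : k < N, γ (0, ⟨k, h⟩) ≠ 0) ∧
    ∀ j : Fin N, (j : ℕ) < k + J → γ (1, j) = c * γ (0, j)}

/-- `ord x = k` and `ord (y - c x) = k + J`. -/
def T2 (N k : ℕ) (c : ℂ) (J : ℕ) : Set (Fin 2 × Fin N → ℂ) := T3 N k c J \ T3 N k c (J + 1)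

/-! ### The coefficients of the zeta function -/

/-- The contribution of the directions `≠ c`. -/
def g1 (R : Finset ℂ) (p r : ℂ → ℕ) (m k : ℕ) : Mot :=
  ∑ i ∈ Finset.range (k + 1), Lp (2 * i) * (1 - Lp 2 - (R.card : Mot) * (Lp 1 - Lp 2)) *
    wt1 m (i * mu R p r m) k

/-- The contribution of the direction `c`, for `r_c i ≥ ...`: the part where `z A` and `B` can
cancel. -/
def g2 (μ p r m k : ℕ) : Mot :=
  ∑ i ∈ Finset.range (k + 1), ∑ j ∈ Finset.Ico 1 (k + 1 - i),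
    if r * j ≤ i then (1 - Lp 1) ^ 2 * Lp (2 * i + j) * wt1 m (i * μ + (p + m * r) * j) k else 0

/-- The contribution of the direction `c`, part where `ord B < ord A`. -/
def g3 (d p r k : ℕ) : Mot :=
  ∑ i ∈ Finset.range (k + 1), ((∑ j ∈ Finset.Ico 1 (k + 1 - i),
    if i < r * j ∧ i * d + p * j = k then (1 - Lp 1) ^ 2 * Lp (2 * i + j) else 0) +
      if p = 0 ∧ 0 < r ∧ i * d = k then (1 - Lp 1) * Lp (i + (k + 1)) else 0)

end MN

end MPb07157
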