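import Pool.Agent.Lib.MP_b07157_agN1.Defs

/-!
# The strata of the arcs in the plane: measures
-/

noncomputable section

namespace MPb07157

open MvPolynomial

namespace MN

open PC
open P1aux (Lp)

/-! ### Constructible sets -/

namespace PlMaux

theorem isC_coord {σ : Type} (p : σ) : IsConstr {γ : σ → ℂ | γ p = 0} := by
  have := isConstr_eq_zero (X p : MvPolynomial σ ℂ)
  simpa using this

theorem isC_coord_ne {σ : Type} (p : σ) : IsConstr {γ : σ → ℂ | γ p ≠ 0} := by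
  have := isConstr_ne_zero (X p : MvPolynomial σ ℂ)
  simpa using this

theorem isC_lin {σ : Type} (p q : σ) (c : ℂ) : IsConstr {γ : σ → ℂ | γ p = c * γ q} := by
  have := isConstr_eq_zero (X p - C c * X q : MvPolynomial σ ℂ)
  simpa [sub_eq_zero] using this

theorem isC_lin_ne {σ : Type} (p q : σ) (c : ℂ) : IsConstr {γ : σ → ℂ | γ p ≠ c * γ q} :=
  isConstr_setOf_not (isC_lin p q c)

theorem isC_forall {σ : Type} {N : ℕ} (P : Fin N → Prop) (Q : Fin N → (σ → ℂ) → Prop)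
    (h : ∀ j, IsConstr {γ | Q j γ}) : IsConstr {γ : σ → ℂ | ∀ j, P j → Q j γ} := by
  have h1 := isConstr_forall_mem (σ := σ) (Finset.univ : Finset (Fin N))
    (fun j γ => P j → Q j γ) (fun j _ => isConstr_setOf_imp (isConstr_const (P j)) (h j))
  have e : {γ : σ → ℂ | ∀ j, P j → Q j γ} =
      {γ : σ → ℂ | ∀ j ∈ (Finset.univ : Finset (Fin N)), P j → Q j γ} := by
    ext γ
    exact ⟨fun h j _ => h j, fun h j => h j (Finset.mem_univ j)⟩
  rw [e]
  exact h1

theorem isC_ex {σ : Type} (P : Prop) (Q : P → (σ → ℂ) → Prop)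
    (h : ∀ hp : P, IsConstr {γ | Q hp γ}) : IsConstr {γ : σ → ℂ | ∃ hp : P, Q hp γ} := by
  by_cases hp : P
  · have e : {γ : σ → ℂ | ∃ hp : P, Q hp γ} = {γ | Q hp γ} := by
      ext γ
      exact ⟨fun ⟨_, h⟩ => h, fun h => ⟨hp, h⟩⟩
    rw [e]
    exact h hp
  · have e : {γ : σ → ℂ | ∃ hp : P, Q hp γ} = ∅ := by
      ext γ
      exact ⟨fun ⟨h, _⟩ => absurd h hp, fun h => absurd h (Set.notMem_empty γ)⟩
    rw [e]
    exact IsConstr.empty

/-- The directions different from those in `R`. -/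
def Dir (R : Finset ℂ) : Set (Fin 2 → ℂ) :=
  {ξ | (ξ 0 ≠ 0 ∨ ξ 1 ≠ 0) ∧ ∀ c ∈ R, ξ 1 ≠ c * ξ 0}

/-- The line `y = c x` without the origin. -/
def Ln (c : ℂ) : Set (Fin 2 → ℂ) := {ξ | ξ 0 ≠ 0 ∧ ξ 1 = c * ξ 0}

theorem isConstr_Dir (R : Finset ℂ) : IsConstr (Dir R) :=
  isConstr_setOf_and (isConstr_setOf_or (isC_coord_ne 0) (isC_coord_ne 1))
    (isConstr_forall_mem R _ fun c _ => isC_lin_ne 1 0 c)

theorem isConstr_Ln (c : ℂ) : IsConstr (Ln c) :=
  isConstr_setOf_and (isC_coord_ne 0) (isC_lin 1 0 c)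

theorem cls_Ln (c : ℂ) : cls (Ln c) = L - 1 := by
  rw [← cls_torus1]
  symm
  have hmap : ∀ x : Fin 1 → ℂ, polyMap ![X 0, C c * X 0] x = ![x 0, c * x 0] := by
    intro x
    funext j
    unfold polyMap
    fin_cases j
    · exact eval_X _
    · show eval x (C c * X 0) = c * x 0
      rw [map_mul, eval_C, eval_X]
  refine cls_bijOn isConstr_torus1 (isConstr_Ln c) ![X 0, C c * X 0] ⟨?_, ?_, ?_⟩
  · intro x hx
    rw [hmap]
    exact ⟨hx, rfl⟩
  · intro x _ y _ hxy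
    rw [hmap, hmap] at hxy
    funext j
    have hj : j = 0 := Subsingleton.elim _ _
    rw [hj]
    exact congrFun hxy 0
  · rintro ξ ⟨h1, h2⟩
    refine ⟨fun _ => ξ 0, h1, ?_⟩
    rw [hmap]
    funext j
    fin_cases j
    · rfl
    · exact h2.symm

theorem cls_zero : cls {ξ : Fin 2 → ℂ | ξ 0 = 0 ∧ ξ 1 = 0} = 1 := by
  have h := cls_cell (σ := Fin 2) (κ := Fin 0) (fun i => i.elim0) (fun i => i.elim0) Set.univ
    IsConstr.univ Finset.univ (fun i => i.elim0) 0 (by simp)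
  have e : {ξ : Fin 2 → ℂ | ξ 0 = 0 ∧ ξ 1 = 0} =
      {x : Fin 2 → ℂ | (fun i : Fin 0 => x (i.elim0)) ∈ (Set.univ : Set (Fin 0 → ℂ)) ∧
        ∀ j ∈ (Finset.univ : Finset (Fin 2)), x j = 0} := by
    ext ξ
    constructor
    · rintro ⟨h1, h2⟩
      refine ⟨Set.mem_univ _, fun j _ => ?_⟩
      fin_cases j
      · exact h1
      · exact h2
    · rintro ⟨-, h⟩
      exact ⟨h 0 (Finset.mem_univ _), h 1 (Finset.mem_univ _)⟩
  rw [e, h, cls_univ_eq, Fintype.card_fin, pow_zero, mul_one]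

theorem cls_Dir (R : Finset ℂ) : cls (Dir R) = L ^ 2 - 1 - (R.card : K0) * (L - 1) := by
  have hc0 : IsConstr {ξ : Fin 2 → ℂ | ξ 0 = 0 ∧ ξ 1 = 0} :=
    isConstr_setOf_and (isC_coord 0) (isC_coord 1)
  have hcU : IsConstr (⋃ c ∈ R, Ln c) := isConstr_biUnion R _ fun c _ => isConstr_Ln c
  have hU : cls (⋃ c ∈ R, Ln c) = (R.card : K0) * (L - 1) := by
    rw [cls_biUnion R Ln (fun c _ => isConstr_Ln c), Finset.sum_congr rfl fun c _ => cls_Ln c,
      Finset.sum_const, nsmul_eq_mul]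
    intro c _ c' _ hcc
    rw [Set.disjoint_left]
    rintro ξ ⟨h1, h2⟩ ⟨-, h3⟩
    rw [h2] at h3
    exact hcc (mul_right_cancel₀ h1 h3)
  have hd1 : Disjoint (Dir R) (⋃ c ∈ R, Ln c) := by
    rw [Set.disjoint_left]
    rintro ξ ⟨-, h1⟩ h2
    obtain ⟨c, hc, -, h3⟩ := Set.mem_iUnion₂.1 h2
    exact h1 c hc h3
  have hd2 : Disjoint (Dir R ∪ ⋃ c ∈ R, Ln c) {ξ : Fin 2 → ℂ | ξ 0 = 0 ∧ ξ 1 = 0} := by
    rw [Set.disjoint_left]
    rintro ξ h1 ⟨h2, h3⟩
    rcases h1 with ⟨h4 | h4, -⟩ | h1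
    · exact h4 h2
    · exact h4 h3
    · obtain ⟨c, hc, h4, -⟩ := Set.mem_iUnion₂.1 h1
      exact h4 h2
  have hun : (Dir R ∪ ⋃ c ∈ R, Ln c) ∪ {ξ : Fin 2 → ℂ | ξ 0 = 0 ∧ ξ 1 = 0} = Set.univ := by
    rw [Set.eq_univ_iff_forall]
    intro ξ
    by_cases h0 : ξ 0 = 0 ∧ ξ 1 = 0
    · exact Or.inr h0
    left
    by_cases h1 : ∀ c ∈ R, ξ 1 ≠ c * ξ 0
    · left
      refine ⟨?_, h1⟩
      by_contra h2
      rw [not_or, not_not, not_not] at h2
      exact h0 h2
    · right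
      have h2 : ∃ c ∈ R, ξ 1 = c * ξ 0 := by
        by_contra h3
        exact h1 fun c hc h4 => h3 ⟨c, hc, h4⟩
      obtain ⟨c, hc, h3⟩ := h2
      refine Set.mem_iUnion₂.2 ⟨c, hc, fun h4 => h0 ⟨h4, ?_⟩, h3⟩
      rw [h3, h4, mul_zero]
  have h1 := cls_union ((isConstr_Dir R).union hcU) hc0 hd2
  rw [hun, cls_univ_eq, Fintype.card_fin, cls_union (isConstr_Dir R) hcU hd1, hU, cls_zero] at h1
  rw [h1]
  ring

/-- `L^{-2N} L^M = L^{-K}`. -/
theorem pow_mul {N M K : ℕ} (h : 2 * N = K + M) :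
    (((LU ^ (2 * N))⁻¹ : Motˣ) : Mot) * algebraMap K0 Mot L ^ M = Lp K := by
  rw [← LU_val, ← Units.val_pow_eq_pow_val, ← Units.val_mul]
  unfold P1aux.Lp
  congr 1
  rw [← zpow_natCast, ← zpow_natCast, ← zpow_neg, ← zpow_add]
  congr 1
  omega

theorem L_mul (K : ℕ) : algebraMap K0 Mot L * Lp (K + 1) = Lp K := by
  rw [← LU_val]
  unfold P1aux.Lp
  rw [← Units.val_mul, ← zpow_one_add]
  congr 2
  push_cast
  ring

end PlMaux

open PlMaux

theorem isConstr_T1 (N k : ℕ) (R : Finset ℂ) : IsConstr (T1 N k R) := by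
  refine isConstr_setOf_and ?_ (isC_ex _ _ fun h => isConstr_setOf_and
    (isConstr_setOf_or (isC_coord_ne _) (isC_coord_ne _))
    (isConstr_forall_mem R _ fun c _ => isC_lin_ne _ _ c))
  have h1 := isConstr_forall_mem (σ := Fin 2 × Fin N) (Finset.univ : Finset (Fin 2))
    (fun i γ => ∀ j : Fin N, (j : ℕ) < k → γ (i, j) = 0)
    (fun i _ => isC_forall (fun j : Fin N => (j : ℕ) < k) (fun j γ => γ (i, j) = 0)
      fun _ => isC_coord _)
  have e : {γ : Fin 2 × Fin N → ℂ | ∀ i, ∀ j : Fin N, (j : ℕ) < k → γ (i, j) = 0} =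
      {γ | ∀ i ∈ (Finset.univ : Finset (Fin 2)), ∀ j : Fin N, (j : ℕ) < k → γ (i, j) = 0} := by
    ext γ
    exact ⟨fun h i _ => h i, fun h i => h i (Finset.mem_univ i)⟩
  rw [e]
  exact h1

theorem isConstr_T3 (N k : ℕ) (c : ℂ) (J : ℕ) : IsConstr (T3 N k c J) :=
  isConstr_setOf_and
    (isC_forall (fun j : Fin N => (j : ℕ) < k) (fun j γ => γ (0, j) = 0) fun _ => isC_coord _)
    (isConstr_setOf_and (isC_ex _ _ fun _ => isC_coord_ne _)
      (isC_forall (fun j : Fin N => (j : ℕ) < k + J) (fun j γ => γ (1, j) = c * γ (0, j))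
        fun _ => isC_lin _ _ c))

theorem isConstr_T2 (N k : ℕ) (c : ℂ) (J : ℕ) : IsConstr (T2 N k c J) :=
  (isConstr_T3 N k c J).diff (isConstr_T3 N k c (J + 1))

/-- The change of coordinates `y ↦ y - c x`. -/
theorem cls_T3_shear (N k : ℕ) (c : ℂ) (J : ℕ) : cls (T3 N k c J) = cls (T3 N k 0 J) := by
  have hmap : ∀ γ : Fin 2 × Fin N → ℂ, polyMap (fun p : Fin 2 × Fin N =>
      if p.1 = 0 then (X p : MvPolynomial (Fin 2 × Fin N) ℂ) else X p - C c * X (0, p.2)) γ =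
      fun p => if p.1 = 0 then γ p else γ p - c * γ (0, p.2) := by
    intro γ
    funext p
    show eval γ (if p.1 = 0 then (X p : MvPolynomial (Fin 2 × Fin N) ℂ)
      else X p - C c * X (0, p.2)) = if p.1 = 0 then γ p else γ p - c * γ (0, p.2)
    by_cases hp : p.1 = 0
    · rw [if_pos hp, if_pos hp, eval_X]
    · rw [if_neg hp, if_neg hp, map_sub, map_mul, eval_C, eval_X, eval_X]
  refine cls_bijOn (isConstr_T3 N k c J) (isConstr_T3 N k 0 J) (fun p : Fin 2 × Fin N =>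
      if p.1 = 0 then (X p : MvPolynomial (Fin 2 × Fin N) ℂ) else X p - C c * X (0, p.2))
      ⟨?_, ?_, ?_⟩
  · rintro γ ⟨h1, ⟨h, h2⟩, h3⟩
    rw [hmap]
    refine ⟨fun j hj => ?_, ⟨h, ?_⟩, fun j hj => ?_⟩
    · show (if (0 : Fin 2) = 0 then γ (0, j) else _) = 0
      rw [if_pos rfl]
      exact h1 j hj
    · show (if (0 : Fin 2) = 0 then γ (0, ⟨k, h⟩) else _) ≠ 0
      rw [if_pos rfl]
      exact h2
    · show (if (1 : Fin 2) = 0 then _ else γ (1, j) - c * γ (0, j)) = 0 * _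
      rw [if_neg one_ne_zero, h3 j hj, sub_self, zero_mul]
  · intro γ _ γ' _ hgg
    rw [hmap, hmap] at hgg
    have h0 : ∀ j, γ (0, j) = γ' (0, j) := fun j => by
      have := congrFun hgg (0, j)
      simpa using this
    funext p
    obtain ⟨i, j⟩ := p
    have h1 := congrFun hgg (i, j)
    by_cases hi : i = 0
    · rw [hi]
      exact h0 j
    · have h2 : γ (i, j) - c * γ (0, j) = γ' (i, j) - c * γ' (0, j) := by
        have h3 : (if i = 0 then γ (i, j) else γ (i, j) - c * γ (0, j)) =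
            if i = 0 then γ' (i, j) else γ' (i, j) - c * γ' (0, j) := h1
        rwa [if_neg hi, if_neg hi] at h3
      rw [h0 j] at h2
      exact sub_left_injective h2
  · rintro γ ⟨h1, ⟨h, h2⟩, h3⟩
    refine ⟨fun p => if p.1 = 0 then γ p else γ p + c * γ (0, p.2), ⟨fun j hj => ?_, ⟨h, ?_⟩,
      fun j hj => ?_⟩, ?_⟩
    · show (if (0 : Fin 2) = 0 then γ (0, j) else _) = 0
      rw [if_pos rfl]
      exact h1 j hj
    · show (if (0 : Fin 2) = 0 then γ (0, ⟨k, h⟩) else _) ≠ 0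
      rw [if_pos rfl]
      exact h2
    · show (if (1 : Fin 2) = 0 then _ else γ (1, j) + c * γ (0, j)) =
        c * (if (0 : Fin 2) = 0 then γ (0, j) else _)
      rw [if_neg one_ne_zero, if_pos rfl, h3 j hj, zero_mul, zero_add]
    · rw [hmap]
      funext p
      obtain ⟨i, j⟩ := p
      by_cases hi : i = 0
      · show (if i = 0 then (if i = 0 then γ (i, j) else _) else _) = γ (i, j)
        rw [if_pos hi, if_pos hi]
      · show (if i = 0 then _ else (if i = 0 then _ else γ (i, j) + c * γ (0, j)) -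
          c * (if (0 : Fin 2) = 0 then γ (0, j) else _)) = γ (i, j)
        rw [if_neg hi, if_neg hi, if_pos rfl, add_sub_cancel_right]

theorem cls_T3_zero {N k J M : ℕ} (hk : k < N) (hJ : k + J ≤ N) (hM : 2 * N = 2 * k + J + 1 + M) :
    cls (T3 N k 0 J) = (L - 1) * L ^ M := by
  have h := cls_cell (fun _ : Fin 1 => ((0, ⟨k, hk⟩) : Fin 2 × Fin N))
    (fun i j _ => Subsingleton.elim i j) {x : Fin 1 → ℂ | x 0 ≠ 0} isConstr_torus1
    (Zpos N ![k, k + J]) (fun i => ?_) M ?_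
  · rw [← cls_torus1, ← h]
    congr 1
    ext γ
    constructor
    · rintro ⟨h1, ⟨h', h2⟩, h3⟩
      refine ⟨h2, ?_⟩
      rintro ⟨i, j⟩ hj
      have hj' : (j : ℕ) < (![k, k + J] : Fin 2 → ℕ) i := (Finset.mem_filter.1 hj).2
      fin_cases i
      · exact h1 j hj'
      · have := h3 j hj'
        rwa [zero_mul] at this
    · rintro ⟨h1, h2⟩
      refine ⟨fun j hj => h2 (0, j) (Finset.mem_filter.2 ⟨Finset.mem_univ _, hj⟩), ⟨hk, h1⟩,
        fun j hj => ?_⟩
      rw [zero_mul]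
      exact h2 (1, j) (Finset.mem_filter.2 ⟨Finset.mem_univ _, hj⟩)
  · intro h1
    have h2 : k < k := (Finset.mem_filter.1 h1).2
    exact lt_irrefl _ h2
  · rw [card_Zpos, Fintype.card_prod, Fintype.card_fin, Fintype.card_fin, Fintype.card_fin,
      Fin.sum_univ_two]
    · show 2 * N = 1 + (k + (k + J)) + M
      omega
    · intro j
      fin_cases j
      · exact hk.le
      · exact hJ

theorem muN_T3 {N k J : ℕ} (c : ℂ) (hk : k < N) (hJ : k + J ≤ N) :
    muN N (T3 N k c J) = (1 - Lp 1) * Lp (2 * k + J) := by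
  obtain ⟨M, hM⟩ : ∃ M, 2 * N = 2 * k + J + 1 + M := ⟨2 * N - (2 * k + J + 1), by omega⟩
  unfold muN clsM
  rw [cls_T3_shear, cls_T3_zero hk hJ hM, map_mul, map_sub, map_one, map_pow, mul_left_comm,
    PlMaux.pow_mul hM, sub_mul, L_mul, one_mul, sub_mul, one_mul, ← P1aux.Lp_add, add_comm 1]

theorem muN_T2 {N k J : ℕ} (c : ℂ) (hJ : k + J < N) :
    muN N (T2 N k c J) = (1 - Lp 1) ^ 2 * Lp (2 * k + J) := by
  have hsub : T3 N k c (J + 1) ⊆ T3 N k c J := by
    rintro γ ⟨h1, h2, h3⟩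
    exact ⟨h1, h2, fun j hj => h3 j (by omega)⟩
  have h1 : muN N (T3 N k c J) = muN N (T2 N k c J) + muN N (T3 N k c (J + 1)) := by
    unfold muN clsM
    rw [← mul_add, ← map_add, ← cls_union (isConstr_T2 N k c J) (isConstr_T3 N k c (J + 1))]
    · unfold T2
      rw [Set.sdiff_union_of_subset hsub]
    · unfold T2
      exact Set.disjoint_sdiff_left
  rw [muN_T3 c (by omega) (by omega), muN_T3 c (by omega) (by omega)] at h1
  have h2 : Lp (2 * k + (J + 1)) = Lp (2 * k + J) * Lp 1 := by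
    rw [← P1aux.Lp_add]
    congr 1
  rw [h2] at h1
  linear_combination -h1

theorem muN_T1 {N k : ℕ} (R : Finset ℂ) (hk : k < N) :
    muN N (T1 N k R) = Lp (2 * k) * (1 - Lp 2 - (R.card : Mot) * (Lp 1 - Lp 2)) := by
  obtain ⟨M, hM⟩ : ∃ M, 2 * N = 2 * k + 1 + 1 + M := ⟨2 * N - (2 * k + 2), by omega⟩
  have h := cls_cell (fun i : Fin 2 => ((i, ⟨k, hk⟩) : Fin 2 × Fin N))
    (fun i j h => (Prod.mk.inj h).1) (Dir R) (isConstr_Dir R) (Zpos N ![k, k]) (fun i => ?_) M ?_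
  · have e : T1 N k R = {x : Fin 2 × Fin N → ℂ | (fun i => x (i, ⟨k, hk⟩)) ∈ Dir R ∧
        ∀ j ∈ Zpos N ![k, k], x j = 0} := by
      ext γ
      constructor
      · rintro ⟨h1, h', h2, h3⟩
        refine ⟨⟨h2, h3⟩, ?_⟩
        rintro ⟨i, j⟩ hj
        have hj' : (j : ℕ) < (![k, k] : Fin 2 → ℕ) i := (Finset.mem_filter.1 hj).2
        refine h1 i j ?_
        fin_cases i
        · exact hj'
        · exact hj'
      · rintro ⟨⟨h1, h2⟩, h3⟩
        refine ⟨fun i j hj => h3 (i, j) (Finset.mem_filter.2 ⟨Finset.mem_univ _, ?_⟩), hk, h1, h2⟩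
        fin_cases i
        · exact hj
        · exact hj
    unfold muN clsM
    rw [e, h, cls_Dir, map_mul, map_sub, map_sub, map_mul, map_sub, map_one, map_pow, map_pow,
      map_natCast, mul_left_comm, PlMaux.pow_mul hM]
    have h1 : algebraMap K0 Mot L * Lp (2 * k + 1 + 1) = Lp (2 * k + 1) := L_mul _
    have h2 : algebraMap K0 Mot L * Lp (2 * k + 1) = Lp (2 * k) := L_mul _
    have h3 : Lp (2 * k + 1 + 1) = Lp (2 * k) * Lp 2 := by rw [← P1aux.Lp_add]
    have h4 : Lp (2 * k + 1) = Lp (2 * k) * Lp 1 := P1aux.Lp_add _ _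
    linear_combination (algebraMap K0 Mot L - (R.card : Mot)) * h1 + h2 +
      ((R.card : Mot) - 1) * h3 - (R.card : Mot) * h4
  · intro h1
    have h2 : k < (![k, k] : Fin 2 → ℕ) i := (Finset.mem_filter.1 h1).2
    have h3 : (![k, k] : Fin 2 → ℕ) i = k := by
      fin_cases i
      · rfl
      · rfl
    rw [h3] at h2
    exact lt_irrefl _ h2
  · rw [card_Zpos, Fintype.card_prod, Fintype.card_fin, Fintype.card_fin, Fin.sum_univ_two]
    · show 2 * N = 2 + (k + k) + M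
      omega
    · intro j
      fin_cases j
      · exact hk.le
      · exact hk.le

end MN

end MPb07157
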